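import Pool.Agent.H46.D2.Cub

/-!
# The integrability equations of the contact cell

`cub_con`: if `s w * Q y z - s y * Q w z + γ w * Ω y z - γ y * Ω w z - 2 * Ω w y * γ z` is small for
all `w`, `y`, `z`, with `Q` symmetric and not degenerate and `Ω` antisymmetric and not small, then
`s` and `γ` are small. `con5`: a symmetric form whose quadratic form is small at five points, no
three of them in a plane, is near a multiple of the conic of the five points.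
-/

set_option autoImplicit false

namespace Pool.CUB46

open Finset

/-! ### The integrability equations -/

/-- The integrability expression. -/
def Ei (Q Om : Fin 3 → Fin 3 → ℝ) (s γ : Fin 3 → ℝ) (w y z : Fin 3) : ℝ :=
  s w * Q y z - s y * Q w z + γ w * Om y z - γ y * Om w z - 2 * (Om w y * γ z)

/-- The cofactors of a symmetric form. -/
def cof (Q : Fin 3 → Fin 3 → ℝ) (i j : Fin 3) : ℝ :=
  Q (j + 1) (i + 1) * Q (j + 2) (i + 2) - Q (j + 1) (i + 2) * Q (j + 2) (i + 1)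

/-- The kernel of an antisymmetric form. -/
def kr (Om : Fin 3 → Fin 3 → ℝ) (i : Fin 3) : ℝ := Om (i + 1) (i + 2)

theorem cof_mul (Q : Fin 3 → Fin 3 → ℝ) (i k : Fin 3) :
    ∑ j, cof Q i j * Q j k = if i = k then d3 (Q 0) (Q 1) (Q 2) else 0 := by
  simp only [Fin.sum_univ_three, cof, d3]
  fin_cases i <;> fin_cases k <;> simp <;> ring

theorem kr_om {Om : Fin 3 → Fin 3 → ℝ} (hOm : ∀ i j, Om i j = -Om j i) (j : Fin 3) :
    ∑ w, kr Om w * Om w j = 0 := by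
  have h0 : ∀ i, Om i i = 0 := fun i => by linarith [hOm i i]
  simp only [Fin.sum_univ_three, kr]
  fin_cases j
  · simp
    rw [h0, hOm 1 0, hOm 2 0]
    ring
  · simp
    rw [h0, hOm 2 0, hOm 2 1]
    ring
  · simp
    rw [h0, hOm 2 0]
    ring

theorem ek_eq {Q Om : Fin 3 → Fin 3 → ℝ} (hOm : ∀ i j, Om i j = -Om j i) (s γ : Fin 3 → ℝ)
    (y z : Fin 3) : ∑ w, kr Om w * Ei Q Om s γ w y z = (∑ w, kr Om w * s w) * Q y z -
      s y * (∑ w, kr Om w * Q w z) + (∑ w, kr Om w * γ w) * Om y z := by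
  have h1 := kr_om hOm z
  have h2 := kr_om hOm y
  unfold Ei
  simp only [Fin.sum_univ_three] at *
  linear_combination -(γ y) * h1 - 2 * γ z * h2

theorem tr_id {Q Om : Fin 3 → Fin 3 → ℝ} (hQ : ∀ i j, Q i j = Q j i) (hOm : ∀ i j, Om i j = -Om j i)
    (s k : Fin 3 → ℝ) (κ : ℝ) :
    ∑ y, ∑ z, cof Q z y * ((∑ w, k w * s w) * Q y z - s y * (∑ w, k w * Q w z) + κ * Om y z) =
      2 * d3 (Q 0) (Q 1) (Q 2) * (∑ w, k w * s w) := by
  have h0 : ∀ i, Om i i = 0 := fun i => by linarith [hOm i i]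
  simp only [Fin.sum_univ_three, cof, d3]
  simp
  rw [hOm 1 0, hOm 2 0, hOm 2 1, h0, h0, h0, hQ 1 0, hQ 2 0, hQ 2 1]
  ring

theorem cof_v {Q : Fin 3 → Fin 3 → ℝ} (hQ : ∀ i j, Q i j = Q j i) (k : Fin 3 → ℝ) (i : Fin 3) :
    ∑ z, cof Q i z * (∑ w, k w * Q w z) = d3 (Q 0) (Q 1) (Q 2) * k i := by
  have h := cof_mul Q i
  have e : ∑ z, cof Q i z * (∑ w, k w * Q w z) = ∑ w, k w * ∑ z, cof Q i z * Q z w := by
    simp only [Finset.mul_sum]
    rw [Finset.sum_comm]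
    refine Finset.sum_congr rfl fun w _ => Finset.sum_congr rfl fun z _ => ?_
    rw [hQ w z]
    ring
  rw [e, Finset.sum_congr rfl fun w _ => by rw [h w]]
  simp
  ring

theorem cof_le {Q : Fin 3 → Fin 3 → ℝ} {T : ℝ} (hT : ∀ i j, |Q i j| ≤ T) (i j : Fin 3) :
    |cof Q i j| ≤ 2 * T ^ 2 := by
  have hT0 : 0 ≤ T := (abs_nonneg _).trans (hT 0 0)
  unfold cof
  have h1 : ∀ a b c d, |Q a b * Q c d| ≤ T ^ 2 := by
    intro a b c d
    rw [abs_mul, sq]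
    exact mul_le_mul (hT _ _) (hT _ _) (abs_nonneg _) hT0
  have h2 := h1 (j + 1) (i + 1) (j + 2) (i + 2)
  have h3 := h1 (j + 1) (i + 2) (j + 2) (i + 1)
  refine (abs_sub _ _).trans ?_
  linarith

/-- **The integrability equations.** -/
theorem cub_con {Q Om : Fin 3 → Fin 3 → ℝ} {s γ : Fin 3 → ℝ} {T ε : ℝ} (hT1 : 1 ≤ T)
    (hQ : ∀ i j, Q i j = Q j i) (hOm : ∀ i j, Om i j = -Om j i) (hQT : ∀ i j, |Q i j| ≤ T)
    (hOT : ∀ i j, |Om i j| ≤ T) (hdet : 1 ≤ T * |d3 (Q 0) (Q 1) (Q 2)|) {i₀ j₀ : Fin 3}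
    (hom : 1 ≤ T * |Om i₀ j₀|) (hE : ∀ w y z, |Ei Q Om s γ w y z| ≤ ε) :
    (∀ i, |s i| ≤ 3600 * T ^ 15 * ε) ∧ ∀ i, |γ i| ≤ 12003 * T ^ 17 * ε := by
  have hT0 : 0 ≤ T := zero_le_one.trans hT1
  have hε0 : 0 ≤ ε := (abs_nonneg _).trans (hE 0 0 0)
  have hz : ∀ i, Om i i = 0 := fun i => by linarith [hOm i i]
  obtain ⟨k, hk⟩ : ∃ k, k = kr Om := ⟨_, rfl⟩
  have hkT : ∀ i, |k i| ≤ T := fun i => by rw [hk]; exact hOT _ _
  obtain ⟨v, hv⟩ : ∃ v : Fin 3 → ℝ, v = fun z => ∑ w, k w * Q w z := ⟨_, rfl⟩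
  obtain ⟨σ, hσ⟩ : ∃ σ : ℝ, σ = ∑ w, k w * s w := ⟨_, rfl⟩
  obtain ⟨κ, hκ⟩ : ∃ κ : ℝ, κ = ∑ w, k w * γ w := ⟨_, rfl⟩
  have hek : ∀ y z, |σ * Q y z - s y * v z + κ * Om y z| ≤ 3 * T * ε := by
    intro y z
    have h := ek_eq (Q := Q) hOm s γ y z
    rw [hσ, hκ, hv, hk]
    dsimp only
    rw [← h]
    refine (Finset.abs_sum_le_sum_abs _ _).trans ?_
    have h2 : ∀ w ∈ (Finset.univ : Finset (Fin 3)), |kr Om w * Ei Q Om s γ w y z| ≤ T * ε := by
      intro w _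
      rw [abs_mul]
      exact mul_le_mul (hk ▸ hkT w) (hE w y z) (abs_nonneg _) hT0
    refine (Finset.sum_le_sum h2).trans (le_of_eq ?_)
    rw [Finset.sum_const, Finset.card_univ, Fintype.card_fin, nsmul_eq_mul]
    push_cast
    ring
  -- the value `σ`
  have hσb : |σ| ≤ 27 * T ^ 4 * ε := by
    have h1 := tr_id hQ hOm s k κ
    have h2 : |∑ y, ∑ z, cof Q z y * ((∑ w, k w * s w) * Q y z - s y * (∑ w, k w * Q w z) +
        κ * Om y z)| ≤ 54 * T ^ 3 * ε := by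
      have h3 : ∀ y z, |cof Q z y * ((∑ w, k w * s w) * Q y z - s y * (∑ w, k w * Q w z) +
          κ * Om y z)| ≤ 6 * T ^ 3 * ε := by
        intro y z
        have h4 := hek y z
        rw [hσ, hv] at h4
        rw [abs_mul]
        calc _ ≤ 2 * T ^ 2 * (3 * T * ε) :=
              mul_le_mul (cof_le hQT z y) h4 (abs_nonneg _) (by positivity)
          _ = _ := by ring
      refine (Finset.abs_sum_le_sum_abs _ _).trans ?_
      refine (Finset.sum_le_sum fun y _ => (Finset.abs_sum_le_sum_abs _ _).trans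
        (Finset.sum_le_sum fun z _ => h3 y z)).trans (le_of_eq ?_)
      simp only [Finset.sum_const, Finset.card_univ, Fintype.card_fin, nsmul_eq_mul]
      push_cast
      ring
    rw [h1, ← hσ, abs_mul, abs_mul, abs_two] at h2
    calc |σ| ≤ T * |d3 (Q 0) (Q 1) (Q 2)| * |σ| := le_mul_of_one_le_left (abs_nonneg _) hdet
      _ = T * (2 * |d3 (Q 0) (Q 1) (Q 2)| * |σ|) / 2 := by ring
      _ ≤ T * (54 * T ^ 3 * ε) / 2 := by
          have := mul_le_mul_of_nonneg_left h2 hT0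
          linarith
      _ = _ := by ring
  -- the symmetric part
  have hN : ∀ y z, |s y * v z + s z * v y| ≤ 60 * T ^ 5 * ε := by
    intro y z
    have h1 := hek y z
    have h2 := hek z y
    have e : s y * v z + s z * v y = 2 * (σ * Q y z) - (σ * Q y z - s y * v z + κ * Om y z) -
        (σ * Q z y - s z * v y + κ * Om z y) := by
      rw [hQ z y, hOm z y]
      ring
    rw [e]
    have h3 : |σ * Q y z| ≤ 27 * T ^ 4 * ε * T := by
      rw [abs_mul]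
      exact mul_le_mul hσb (hQT _ _) (abs_nonneg _) (by positivity)
    have h4 : |2 * (σ * Q y z)| ≤ 2 * (27 * T ^ 4 * ε * T) := by
      rw [abs_mul, abs_two]
      linarith
    have h5 : T * ε ≤ T ^ 5 * ε := mul_le_mul_of_nonneg_right
      (by calc T = T ^ 1 := (pow_one T).symm
          _ ≤ T ^ 5 := pow_le_pow_right₀ hT1 (by norm_num)) hε0
    refine (abs_sub _ _).trans ?_
    have h6 := abs_sub (2 * (σ * Q y z)) (σ * Q y z - s y * v z + κ * Om y z)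
    nlinarith
  -- a component of `v`
  have hvT : ∀ z, |v z| ≤ 3 * T ^ 2 := by
    intro z
    rw [hv]
    refine (Finset.abs_sum_le_sum_abs _ _).trans ?_
    have h2 : ∀ w ∈ (Finset.univ : Finset (Fin 3)), |k w * Q w z| ≤ T ^ 2 := by
      intro w _
      rw [abs_mul, sq]
      exact mul_le_mul (hkT w) (hQT w z) (abs_nonneg _) hT0
    refine (Finset.sum_le_sum h2).trans (le_of_eq ?_)
    rw [Finset.sum_const, Finset.card_univ, Fintype.card_fin, nsmul_eq_mul]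
    push_cast
    ring
  obtain ⟨i, hi⟩ : ∃ i, 1 ≤ T * |k i| := by
    have h1 : ∀ a b : Fin 3, a ≠ b → ∃ i, |Om a b| = |k i| := by
      intro a b hab
      rw [hk]
      unfold kr
      fin_cases a <;> fin_cases b
      · exact absurd rfl hab
      · exact ⟨2, rfl⟩
      · exact ⟨1, by simp; rw [hOm 0 2, abs_neg]⟩
      · exact ⟨2, by simp; rw [hOm 1 0, abs_neg]⟩
      · exact absurd rfl hab
      · exact ⟨0, rfl⟩
      · exact ⟨1, rfl⟩
      · exact ⟨0, by simp; rw [hOm 2 1, abs_neg]⟩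
      · exact absurd rfl hab
    have h2 : i₀ ≠ j₀ := by
      rintro rfl
      rw [hz, abs_zero, mul_zero] at hom
      linarith
    obtain ⟨i, hi⟩ := h1 i₀ j₀ h2
    exact ⟨i, by rw [← hi]; exact hom⟩
  obtain ⟨z₀, hz₀⟩ : ∃ z, 1 ≤ 6 * T ^ 4 * |v z| := by
    by_contra hcon
    push Not at hcon
    have h1 := cof_v hQ k i
    have h2 : |∑ z, cof Q i z * (∑ w, k w * Q w z)| ≤ ∑ z, 2 * T ^ 2 * |v z| := by
      refine (Finset.abs_sum_le_sum_abs _ _).trans (Finset.sum_le_sum fun z _ => ?_)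
      rw [abs_mul, hv]
      exact mul_le_mul_of_nonneg_right (cof_le hQT i z) (abs_nonneg _)
    rw [h1, abs_mul, ← Finset.mul_sum] at h2
    have h3 : 1 ≤ T * |d3 (Q 0) (Q 1) (Q 2)| * (T * |k i|) := one_le_mul_of_one_le_of_one_le hdet hi
    have h4 : T * |d3 (Q 0) (Q 1) (Q 2)| * (T * |k i|) ≤ T ^ 2 * (2 * T ^ 2 * ∑ z, |v z|) := by
      calc _ = T ^ 2 * (|d3 (Q 0) (Q 1) (Q 2)| * |k i|) := by ring
        _ ≤ _ := mul_le_mul_of_nonneg_left h2 (by positivity)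
    rw [Fin.sum_univ_three] at h4
    have h5 := hcon 0
    have h6 := hcon 1
    have h7 := hcon 2
    nlinarith
  have hs0 : |s z₀| ≤ 180 * T ^ 9 * ε := by
    have h1 := hN z₀ z₀
    have e : s z₀ * v z₀ + s z₀ * v z₀ = 2 * (s z₀ * v z₀) := by ring
    rw [e, abs_mul, abs_two, abs_mul] at h1
    calc |s z₀| ≤ 6 * T ^ 4 * |v z₀| * |s z₀| := le_mul_of_one_le_left (abs_nonneg _) hz₀
      _ = 3 * T ^ 4 * (2 * (|s z₀| * |v z₀|)) := by ring
      _ ≤ 3 * T ^ 4 * (60 * T ^ 5 * ε) := mul_le_mul_of_nonneg_left h1 (by positivity)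
      _ = _ := by ring
  have hs : ∀ i, |s i| ≤ 3600 * T ^ 15 * ε := by
    intro i
    have h1 := hN i z₀
    have h2 : |s i * v z₀| ≤ 60 * T ^ 5 * ε + 180 * T ^ 9 * ε * (3 * T ^ 2) := by
      have e : s i * v z₀ = (s i * v z₀ + s z₀ * v i) - s z₀ * v i := by ring
      rw [e]
      refine (abs_sub _ _).trans (add_le_add h1 ?_)
      rw [abs_mul]
      exact mul_le_mul hs0 (hvT i) (abs_nonneg _) (by positivity)
    rw [abs_mul] at h2
    have h3 : T ^ 5 * ε ≤ T ^ 11 * ε :=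
      mul_le_mul_of_nonneg_right (pow_le_pow_right₀ hT1 (by norm_num)) hε0
    have h4 : |s i| * |v z₀| ≤ 600 * T ^ 11 * ε := by
      refine h2.trans ?_
      have : 60 * T ^ 5 * ε + 180 * T ^ 9 * ε * (3 * T ^ 2) =
          60 * (T ^ 5 * ε) + 540 * (T ^ 11 * ε) := by ring
      rw [this]
      linarith
    calc |s i| ≤ 6 * T ^ 4 * |v z₀| * |s i| := le_mul_of_one_le_left (abs_nonneg _) hz₀
      _ = 6 * T ^ 4 * (|s i| * |v z₀|) := by ring
      _ ≤ 6 * T ^ 4 * (600 * T ^ 11 * ε) := mul_le_mul_of_nonneg_left h4 (by positivity)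
      _ = _ := by ring
  refine ⟨hs, ?_⟩
  -- the covector `γ`
  have hT16 : ε ≤ T ^ 16 * ε := le_mul_of_one_le_left hε0 (one_le_pow₀ hT1)
  have hsQ : ∀ i a b, |s i * Q a b| ≤ 3600 * (T ^ 16 * ε) := by
    intro i a b
    rw [abs_mul]
    calc _ ≤ 3600 * T ^ 15 * ε * T := mul_le_mul (hs i) (hQT a b) (abs_nonneg _) (by positivity)
      _ = _ := by ring
  have hγ0 : |γ j₀| ≤ 2401 * T ^ 17 * ε := by
    have h1 := hE j₀ i₀ j₀
    have e : 3 * (γ j₀ * Om i₀ j₀) = Ei Q Om s γ j₀ i₀ j₀ - s j₀ * Q i₀ j₀ + s i₀ * Q j₀ j₀ := by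
      unfold Ei
      rw [hz j₀, hOm j₀ i₀]
      ring
    have h2 : |3 * (γ j₀ * Om i₀ j₀)| ≤ 7201 * (T ^ 16 * ε) := by
      rw [e]
      refine (abs_add_le _ _).trans ?_
      have h3 := abs_sub (Ei Q Om s γ j₀ i₀ j₀) (s j₀ * Q i₀ j₀)
      have h4 := hsQ j₀ i₀ j₀
      have h5 := hsQ i₀ j₀ j₀
      linarith
    rw [abs_mul, abs_mul, abs_of_pos (by norm_num : (0 : ℝ) < 3)] at h2
    have h6 : |γ j₀| ≤ T * |Om i₀ j₀| * |γ j₀| := le_mul_of_one_le_left (abs_nonneg _) hom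
    have h7 : 0 ≤ T ^ 17 * ε := by positivity
    have h8 : T * |Om i₀ j₀| * |γ j₀| ≤ T * (7201 * (T ^ 16 * ε)) / 3 := by
      have := mul_le_mul_of_nonneg_left h2 hT0
      linarith
    have h9 : T * (7201 * (T ^ 16 * ε)) / 3 = 7201 / 3 * (T ^ 17 * ε) := by ring
    linarith
  intro c
  obtain ⟨τ, hτ, hτ1⟩ : ∃ τ : ℝ, τ ^ 2 = 1 ∧ |Om i₀ j₀| ≤ |Om i₀ j₀ + τ * Om i₀ c| := by
    rcases le_total 0 (Om i₀ j₀ * Om i₀ c) with h | h
    · refine ⟨1, by norm_num, ?_⟩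
      rw [one_mul]
      apply sq_le_sq.1
      nlinarith [sq_nonneg (Om i₀ c)]
    · refine ⟨-1, by norm_num, ?_⟩
      apply sq_le_sq.1
      nlinarith [sq_nonneg (Om i₀ c)]
  have hτa : |τ| = 1 := by
    have : τ ^ 2 = 1 ^ 2 := by rw [hτ]; norm_num
    rcases sq_eq_sq_iff_eq_or_eq_neg.1 this with h | h
    · rw [h, abs_one]
    · rw [h, abs_neg, abs_one]
  have h1 := hE j₀ i₀ j₀
  have h2 := hE j₀ i₀ c
  have h3 := hE c i₀ j₀
  have h4 := hE c i₀ c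
  have e : 3 * ((γ j₀ + τ * γ c) * (Om i₀ j₀ + τ * Om i₀ c)) = (Ei Q Om s γ j₀ i₀ j₀ +
      τ * Ei Q Om s γ j₀ i₀ c + τ * Ei Q Om s γ c i₀ j₀ + Ei Q Om s γ c i₀ c) -
      (s j₀ * Q i₀ j₀ + τ * (s j₀ * Q i₀ c) + τ * (s c * Q i₀ j₀) + s c * Q i₀ c) +
      (s i₀ * Q j₀ j₀ + 2 * (τ * (s i₀ * Q j₀ c)) + s i₀ * Q c c) := by
    unfold Ei
    rw [hz j₀, hz c, hOm j₀ i₀, hOm c i₀, hOm c j₀, hQ c j₀]
    linear_combination 3 * γ c * Om i₀ c * hτ
  have hτm : ∀ x : ℝ, |τ * x| = |x| := fun x => by rw [abs_mul, hτa, one_mul]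
  have h5 : |3 * ((γ j₀ + τ * γ c) * (Om i₀ j₀ + τ * Om i₀ c))| ≤ 28804 * (T ^ 16 * ε) := by
    rw [e]
    have k1 := hsQ j₀ i₀ j₀
    have k2 := hsQ j₀ i₀ c
    have k3 := hsQ c i₀ j₀
    have k4 := hsQ c i₀ c
    have k5 := hsQ i₀ j₀ j₀
    have k6 := hsQ i₀ j₀ c
    have k7 := hsQ i₀ c c
    rw [← hτm] at h2 h3 k2 k3 k6
    rw [abs_le] at h1 h2 h3 h4 k1 k2 k3 k4 k5 k6 k7 ⊢
    constructor <;> linarith [h1.1, h1.2, h2.1, h2.2, h3.1, h3.2, h4.1, h4.2]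
  rw [abs_mul, abs_mul, abs_of_pos (by norm_num : (0 : ℝ) < 3)] at h5
  have h6 : 1 ≤ T * |Om i₀ j₀ + τ * Om i₀ c| := hom.trans (mul_le_mul_of_nonneg_left hτ1 hT0)
  have h7 : |γ j₀ + τ * γ c| ≤ 9602 * (T ^ 17 * ε) := by
    have k1 : |γ j₀ + τ * γ c| ≤ T * |Om i₀ j₀ + τ * Om i₀ c| * |γ j₀ + τ * γ c| :=
      le_mul_of_one_le_left (abs_nonneg _) h6
    have k2 : T * |Om i₀ j₀ + τ * Om i₀ c| * |γ j₀ + τ * γ c| ≤
        T * (28804 * (T ^ 16 * ε)) / 3 := by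
      have := mul_le_mul_of_nonneg_left h5 hT0
      linarith
    have k3 : T * (28804 * (T ^ 16 * ε)) / 3 = 28804 / 3 * (T ^ 17 * ε) := by ring
    have k4 : 0 ≤ T ^ 17 * ε := by positivity
    linarith
  have h8 : |γ c| = |τ * γ c| := (hτm _).symm
  rw [h8]
  have e2 : τ * γ c = (γ j₀ + τ * γ c) - γ j₀ := by ring
  rw [e2]
  refine (abs_sub _ _).trans ?_
  linarith

/-! ### The conic of five points -/

/-- The coordinates with respect to three points, times their determinant. -/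
def co (P : Fin 3 → Fin 3 → ℝ) (i : Fin 3) (Y : Fin 3 → ℝ) : ℝ := d3 Y (P (i + 1)) (P (i + 2))

theorem co_cramer (P : Fin 3 → Fin 3 → ℝ) (Y : Fin 3 → ℝ) (j : Fin 3) :
    d3 (P 0) (P 1) (P 2) * Y j = ∑ i, co P i Y * P i j := by
  simp only [Fin.sum_univ_three, co, d3]
  fin_cases j <;> simp <;> ring

theorem co_self (P : Fin 3 → Fin 3 → ℝ) (i j : Fin 3) :
    co P i (P j) = if i = j then d3 (P 0) (P 1) (P 2) else 0 := by
  simp only [co, d3]
  fin_cases i <;> fin_cases j <;> simp <;> ring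

theorem co_lin (P : Fin 3 → Fin 3 → ℝ) (i : Fin 3) (Y : Fin 3 → ℝ) :
    co P i Y = ∑ j, Y j * co P i (eb j) := by
  simp only [Fin.sum_univ_three, co, d3, eb]
  simp
  ring

/-- The coefficients of the conic of the five points `P 0`, `P 1`, `P 2`, `X`, `Y`. -/
def nn (P : Fin 3 → Fin 3 → ℝ) (X Y : Fin 3 → ℝ) (i : Fin 3) : ℝ :=
  co P i X * co P i Y * (co P (i + 2) X * co P (i + 1) Y - co P (i + 1) X * co P (i + 2) Y)

/-- **The conic of the five points** `P 0`, `P 1`, `P 2`, `X`, `Y`. -/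
noncomputable def cq (P : Fin 3 → Fin 3 → ℝ) (X Y Z W : Fin 3 → ℝ) : ℝ :=
  ∑ i, nn P X Y i * (co P (i + 1) Z * co P (i + 2) W + co P (i + 2) Z * co P (i + 1) W)

/-- Its matrix. -/
noncomputable def cqm (P : Fin 3 → Fin 3 → ℝ) (X Y : Fin 3 → ℝ) (i j : Fin 3) : ℝ :=
  cq P X Y (eb i) (eb j)

theorem cq_symm (P : Fin 3 → Fin 3 → ℝ) (X Y Z W : Fin 3 → ℝ) : cq P X Y Z W = cq P X Y W Z := by
  unfold cq
  exact Finset.sum_congr rfl fun i _ => by ring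

theorem cq_P (P : Fin 3 → Fin 3 → ℝ) (X Y : Fin 3 → ℝ) (i : Fin 3) :
    cq P X Y (P i) (P i) = 0 := by
  unfold cq
  refine Finset.sum_eq_zero fun j _ => ?_
  rw [co_self, co_self]
  have h : j + 1 ≠ j + 2 := by
    intro h
    have := add_left_cancel h
    exact absurd this (by decide)
  by_cases h1 : j + 1 = i
  · rw [if_neg (show ¬ j + 2 = i from fun h2 => h (h1.trans h2.symm))]
    ring
  · rw [if_neg h1]
    ring

theorem cq_X (P : Fin 3 → Fin 3 → ℝ) (X Y : Fin 3 → ℝ) : cq P X Y X X = 0 := by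
  simp only [cq, nn, Fin.sum_univ_three]
  simp
  ring

theorem cq_Y (P : Fin 3 → Fin 3 → ℝ) (X Y : Fin 3 → ℝ) : cq P X Y Y Y = 0 := by
  simp only [cq, nn, Fin.sum_univ_three]
  simp
  ring

theorem q2_cqm (P : Fin 3 → Fin 3 → ℝ) (X Y Z W : Fin 3 → ℝ) :
    q2 (cqm P X Y) Z W = cq P X Y Z W := by
  have hZ : ∀ i, co P i Z = Z 0 * co P i (eb 0) + Z 1 * co P i (eb 1) + Z 2 * co P i (eb 2) :=
    fun i => by rw [co_lin, Fin.sum_univ_three]
  have hW : ∀ i, co P i W = W 0 * co P i (eb 0) + W 1 * co P i (eb 1) + W 2 * co P i (eb 2) :=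
    fun i => by rw [co_lin, Fin.sum_univ_three]
  simp only [q2, cqm, cq, Fin.sum_univ_three, hZ, hW]
  ring

theorem det_co (P : Fin 3 → Fin 3 → ℝ) :
    d3 (fun j => co P 0 (eb j)) (fun j => co P 1 (eb j)) (fun j => co P 2 (eb j)) =
      d3 (P 0) (P 1) (P 2) ^ 2 := by
  simp only [co, d3, eb]
  simp
  ring

theorem det_cq (P : Fin 3 → Fin 3 → ℝ) (X Y : Fin 3 → ℝ) :
    d3 (cqm P X Y 0) (cqm P X Y 1) (cqm P X Y 2) =
      2 * (nn P X Y 0 * nn P X Y 1 * nn P X Y 2) * d3 (P 0) (P 1) (P 2) ^ 4 := by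
  have h := det_co P
  have e : d3 (P 0) (P 1) (P 2) ^ 4 = (d3 (P 0) (P 1) (P 2) ^ 2) ^ 2 := by ring
  rw [e, ← h]
  have e1 : (0 : Fin 3) + 1 = 1 := rfl
  have e2 : (0 : Fin 3) + 2 = 2 := rfl
  have e3 : (1 : Fin 3) + 1 = 2 := rfl
  have e4 : (1 : Fin 3) + 2 = 0 := rfl
  have e5 : (2 : Fin 3) + 1 = 0 := rfl
  have e6 : (2 : Fin 3) + 2 = 1 := rfl
  simp only [d3, cqm, cq, Fin.sum_univ_three, e1, e2, e3, e4, e5, e6]
  ring

/-- The mixed determinant of two points. -/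
theorem co_two (P : Fin 3 → Fin 3 → ℝ) (X Y : Fin 3 → ℝ) (i : Fin 3) :
    co P (i + 2) X * co P (i + 1) Y - co P (i + 1) X * co P (i + 2) Y =
      -(d3 (P 0) (P 1) (P 2) * d3 (P i) X Y) := by
  simp only [co, d3]
  fin_cases i <;> simp <;> ring

/-- **The expansion of a symmetric form.** -/
theorem q2_exp {S : Fin 3 → Fin 3 → ℝ} (hS : ∀ i j, S i j = S j i) (P : Fin 3 → Fin 3 → ℝ)
    (Z W : Fin 3 → ℝ) : d3 (P 0) (P 1) (P 2) ^ 2 * q2 S Z W =
      ∑ i, q2 S (P i) (P i) * (co P i Z * co P i W) + ∑ i, q2 S (P (i + 1)) (P (i + 2)) *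
        (co P (i + 1) Z * co P (i + 2) W + co P (i + 2) Z * co P (i + 1) W) := by
  have hl : ∀ U V : Fin 3 → ℝ, d3 (P 0) (P 1) (P 2) * q2 S U V = ∑ i, co P i U * q2 S (P i) V := by
    intro U V
    have h1 := q2_lin S (co P 0 U) (co P 1 U) (co P 2 U) (P 0) (P 1) (P 2) V
    have h2 : (fun i => co P 0 U * P 0 i + co P 1 U * P 1 i + co P 2 U * P 2 i) =
        fun i => d3 (P 0) (P 1) (P 2) * U i := by
      funext i
      rw [co_cramer, Fin.sum_univ_three]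
    rw [h2, q2_sc] at h1
    rw [h1, Fin.sum_univ_three]
  have h3 : ∀ i, d3 (P 0) (P 1) (P 2) * q2 S (P i) W = ∑ j, co P j W * q2 S (P i) (P j) := by
    intro i
    rw [q2_symm hS, hl]
    exact Finset.sum_congr rfl fun j _ => by rw [q2_symm hS]
  have e1 : (0 : Fin 3) + 1 = 1 := rfl
  have e2 : (0 : Fin 3) + 2 = 2 := rfl
  have e3 : (1 : Fin 3) + 1 = 2 := rfl
  have e4 : (1 : Fin 3) + 2 = 0 := rfl
  have e5 : (2 : Fin 3) + 1 = 0 := rfl
  have e6 : (2 : Fin 3) + 2 = 1 := rfl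
  have h4 : d3 (P 0) (P 1) (P 2) ^ 2 * q2 S Z W =
      ∑ i, co P i Z * ∑ j, co P j W * q2 S (P i) (P j) := by
    rw [sq, mul_assoc, hl, Finset.mul_sum]
    refine Finset.sum_congr rfl fun i _ => ?_
    rw [← h3]
    ring
  rw [h4]
  simp only [Fin.sum_univ_three, e1, e2, e3, e4, e5, e6]
  rw [q2_symm hS (P 1) (P 0), q2_symm hS (P 2) (P 1), q2_symm hS (P 0) (P 2)]
  ring

/-- **Five points in general position**, with their bounds. -/
structure Five (P : Fin 3 → Fin 3 → ℝ) (X Y : Fin 3 → ℝ) (T : ℝ) : Prop where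
  one : 1 ≤ T
  hP : ∀ i j, |P i j| ≤ T
  hX : ∀ j, |X j| ≤ T
  hY : ∀ j, |Y j| ≤ T
  hd : 1 ≤ T * |d3 (P 0) (P 1) (P 2)|
  dX : ∀ i, 1 ≤ T * |co P i X|
  dY : ∀ i, 1 ≤ T * |co P i Y|
  dd : ∀ i, 1 ≤ T * |d3 (P i) X Y|

namespace Five

variable {P : Fin 3 → Fin 3 → ℝ} {X Y : Fin 3 → ℝ} {T : ℝ}

theorem co_le (h : Five P X Y T) {Z : Fin 3 → ℝ} {K : ℝ} (hZ : ∀ j, |Z j| ≤ K) (i : Fin 3) :
    |co P i Z| ≤ 6 * (K * T ^ 2) := by
  have h1 := d3_le hZ (h.hP (i + 1)) (h.hP (i + 2))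
  unfold co
  rw [sq]
  exact h1

theorem nn_le (h : Five P X Y T) (i : Fin 3) : |nn P X Y i| ≤ 2592 * T ^ 12 := by
  have hT0 : 0 ≤ T := zero_le_one.trans h.one
  have hx : ∀ i, |co P i X| ≤ 6 * T ^ 3 := fun i =>
    (h.co_le h.hX i).trans (le_of_eq (by ring))
  have hy : ∀ i, |co P i Y| ≤ 6 * T ^ 3 := fun i =>
    (h.co_le h.hY i).trans (le_of_eq (by ring))
  have h2 : ∀ i j, |co P i X * co P j Y| ≤ 36 * T ^ 6 := by
    intro i j
    rw [abs_mul]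
    calc _ ≤ 6 * T ^ 3 * (6 * T ^ 3) := mul_le_mul (hx i) (hy j) (abs_nonneg _) (by positivity)
      _ = _ := by ring
  unfold nn
  rw [abs_mul]
  have h3 : |co P (i + 2) X * co P (i + 1) Y - co P (i + 1) X * co P (i + 2) Y| ≤ 72 * T ^ 6 := by
    refine (abs_sub _ _).trans ?_
    linarith [h2 (i + 2) (i + 1), h2 (i + 1) (i + 2)]
  calc _ ≤ 36 * T ^ 6 * (72 * T ^ 6) := mul_le_mul (h2 i i) h3 (abs_nonneg _) (by positivity)
    _ = _ := by ring

theorem le_nn (h : Five P X Y T) (i : Fin 3) : 1 ≤ T ^ 4 * |nn P X Y i| := by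
  unfold nn
  rw [co_two, abs_mul, abs_mul, abs_neg, abs_mul]
  calc (1 : ℝ) ≤ (T * |co P i X|) * (T * |co P i Y|) * ((T * |d3 (P 0) (P 1) (P 2)|) *
        (T * |d3 (P i) X Y|)) := one_le_mul_of_one_le_of_one_le
          (one_le_mul_of_one_le_of_one_le (h.dX i) (h.dY i))
          (one_le_mul_of_one_le_of_one_le h.hd (h.dd i))
    _ = _ := by ring

theorem cq_le (h : Five P X Y T) {Z W : Fin 3 → ℝ} (hZ : ∀ j, |Z j| ≤ 1) (hW : ∀ j, |W j| ≤ 1)
    (i : Fin 3) : |co P (i + 1) Z * co P (i + 2) W + co P (i + 2) Z * co P (i + 1) W| ≤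
      72 * T ^ 4 := by
  have h2 : ∀ i j, |co P i Z * co P j W| ≤ 36 * T ^ 4 := by
    intro i j
    rw [abs_mul]
    calc _ ≤ 6 * (1 * T ^ 2) * (6 * (1 * T ^ 2)) :=
          mul_le_mul (h.co_le hZ i) (h.co_le hW j) (abs_nonneg _) (by positivity)
      _ = _ := by ring
  refine (abs_add_le _ _).trans ?_
  linarith [h2 (i + 1) (i + 2), h2 (i + 2) (i + 1)]

theorem cqm_le (h : Five P X Y T) (i j : Fin 3) : |cqm P X Y i j| ≤ 2 ^ 20 * T ^ 16 := by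
  have hT0 : 0 ≤ T := zero_le_one.trans h.one
  unfold cqm cq
  refine (Finset.abs_sum_le_sum_abs _ _).trans ?_
  have h2 : ∀ k ∈ (Finset.univ : Finset (Fin 3)), |nn P X Y k * (co P (k + 1) (eb i) *
      co P (k + 2) (eb j) + co P (k + 2) (eb i) * co P (k + 1) (eb j))| ≤ 186624 * T ^ 16 := by
    intro k _
    rw [abs_mul]
    calc _ ≤ 2592 * T ^ 12 * (72 * T ^ 4) := mul_le_mul (h.nn_le k)
          (h.cq_le (eb_le i) (eb_le j) k) (abs_nonneg _) (by positivity)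
      _ = _ := by ring
  refine (Finset.sum_le_sum h2).trans ?_
  rw [Finset.sum_const, Finset.card_univ, Fintype.card_fin, nsmul_eq_mul]
  push_cast
  have : 0 ≤ T ^ 16 := by positivity
  linarith

theorem le_det (h : Five P X Y T) :
    1 ≤ T ^ 16 * |d3 (cqm P X Y 0) (cqm P X Y 1) (cqm P X Y 2)| := by
  rw [det_cq, abs_mul, abs_mul, abs_mul, abs_mul, abs_two, abs_pow]
  have h1 : (1 : ℝ) ≤ (T ^ 4 * |nn P X Y 0|) * (T ^ 4 * |nn P X Y 1|) * (T ^ 4 * |nn P X Y 2|) *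
      (T * |d3 (P 0) (P 1) (P 2)|) ^ 4 :=
    one_le_mul_of_one_le_of_one_le (one_le_mul_of_one_le_of_one_le
      (one_le_mul_of_one_le_of_one_le (h.le_nn 0) (h.le_nn 1)) (h.le_nn 2)) (one_le_pow₀ h.hd)
  have e : T ^ 16 * (2 * (|nn P X Y 0| * |nn P X Y 1| * |nn P X Y 2|) *
      |d3 (P 0) (P 1) (P 2)| ^ 4) = 2 * ((T ^ 4 * |nn P X Y 0|) * (T ^ 4 * |nn P X Y 1|) *
      (T ^ 4 * |nn P X Y 2|) * (T * |d3 (P 0) (P 1) (P 2)|) ^ 4) := by ring
  rw [e]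
  linarith

/-- The factor of the coefficient. -/
noncomputable def tau (P : Fin 3 → Fin 3 → ℝ) (X Y : Fin 3 → ℝ) : ℝ :=
  1 / (nn P X Y 0 * d3 (P 0) (P 1) (P 2) ^ 2)

theorem tau_le (h : Five P X Y T) : |tau P X Y| ≤ T ^ 6 ∧ nn P X Y 0 ≠ 0 ∧
    d3 (P 0) (P 1) (P 2) ≠ 0 := by
  have hn : nn P X Y 0 ≠ 0 := by
    intro h0
    have := h.le_nn 0
    rw [h0, abs_zero, mul_zero] at this
    linarith
  have hd : d3 (P 0) (P 1) (P 2) ≠ 0 := by
    intro h0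
    have := h.hd
    rw [h0, abs_zero, mul_zero] at this
    linarith
  refine ⟨?_, hn, hd⟩
  unfold tau
  rw [abs_div, abs_one, abs_mul, abs_pow, div_le_iff₀ (by positivity)]
  calc (1 : ℝ) ≤ (T ^ 4 * |nn P X Y 0|) * (T * |d3 (P 0) (P 1) (P 2)|) ^ 2 :=
        one_le_mul_of_one_le_of_one_le (h.le_nn 0) (one_le_pow₀ h.hd)
    _ = _ := by ring

/-- **A form which is small at the five points is near a multiple of their conic.** -/
theorem con5 (h : Five P X Y T) {S : Fin 3 → Fin 3 → ℝ} {ε : ℝ} (hS : ∀ i j, S i j = S j i)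
    (hSP : ∀ i, |q2 S (P i) (P i)| ≤ ε) (hSX : |q2 S X X| ≤ ε) (hSY : |q2 S Y Y| ≤ ε)
    (i j : Fin 3) :
    |S i j - tau P X Y * q2 S (P 1) (P 2) * cqm P X Y i j| ≤ 2 ^ 20 * T ^ 22 * ε := by
  have hT0 : 0 ≤ T := zero_le_one.trans h.one
  have hε0 : 0 ≤ ε := (abs_nonneg _).trans hSX
  obtain ⟨hτ, hn, hd⟩ := h.tau_le
  have hx : ∀ i, |co P i X| ≤ 6 * T ^ 3 := fun i =>
    (h.co_le h.hX i).trans (le_of_eq (by ring))
  have hy : ∀ i, |co P i Y| ≤ 6 * T ^ 3 := fun i =>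
    (h.co_le h.hY i).trans (le_of_eq (by ring))
  have hxx : ∀ i j, |co P i X * co P j X| ≤ 36 * T ^ 6 := by
    intro i j
    rw [abs_mul]
    calc _ ≤ 6 * T ^ 3 * (6 * T ^ 3) := mul_le_mul (hx i) (hx j) (abs_nonneg _) (by positivity)
      _ = _ := by ring
  have hyy : ∀ i j, |co P i Y * co P j Y| ≤ 36 * T ^ 6 := by
    intro i j
    rw [abs_mul]
    calc _ ≤ 6 * T ^ 3 * (6 * T ^ 3) := mul_le_mul (hy i) (hy j) (abs_nonneg _) (by positivity)
      _ = _ := by ring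
  have hdT : |d3 (P 0) (P 1) (P 2)| ^ 2 ≤ 36 * T ^ 6 := by
    have h1 := d3_le (h.hP 0) (h.hP 1) (h.hP 2)
    calc |d3 (P 0) (P 1) (P 2)| ^ 2 ≤ (6 * (T * (T * T))) ^ 2 :=
          pow_le_pow_left₀ (abs_nonneg _) h1 2
      _ = _ := by ring
  have hf : ∀ Z : Fin 3 → ℝ, (∀ i j, |co P i Z * co P j Z| ≤ 36 * T ^ 6) → |q2 S Z Z| ≤ ε →
      |∑ i, q2 S (P (i + 1)) (P (i + 2)) * (co P (i + 1) Z * co P (i + 2) Z)| ≤
        72 * T ^ 6 * ε := by
    intro Z hZ hSZ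
    have h1 := q2_exp hS P Z Z
    have h2 : ∑ i, q2 S (P (i + 1)) (P (i + 2)) * (co P (i + 1) Z * co P (i + 2) Z) =
        (d3 (P 0) (P 1) (P 2) ^ 2 * q2 S Z Z -
          ∑ i, q2 S (P i) (P i) * (co P i Z * co P i Z)) / 2 := by
      rw [h1]
      have : ∑ i, q2 S (P (i + 1)) (P (i + 2)) * (co P (i + 1) Z * co P (i + 2) Z +
          co P (i + 2) Z * co P (i + 1) Z) =
          2 * ∑ i, q2 S (P (i + 1)) (P (i + 2)) * (co P (i + 1) Z * co P (i + 2) Z) := by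
        rw [Finset.mul_sum]
        exact Finset.sum_congr rfl fun i _ => by ring
      rw [this]
      ring
    rw [h2, abs_div, abs_two]
    have h3 : |∑ i, q2 S (P i) (P i) * (co P i Z * co P i Z)| ≤ 3 * (ε * (36 * T ^ 6)) := by
      refine (Finset.abs_sum_le_sum_abs _ _).trans ?_
      refine (Finset.sum_le_sum (g := fun _ => ε * (36 * T ^ 6)) fun i _ => ?_).trans
        (le_of_eq ?_)
      · rw [abs_mul]
        exact mul_le_mul (hSP i) (hZ i i) (abs_nonneg _) hε0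
      · rw [Finset.sum_const, Finset.card_univ, Fintype.card_fin, nsmul_eq_mul]
        push_cast
        ring
    have h4 : |d3 (P 0) (P 1) (P 2) ^ 2 * q2 S Z Z| ≤ 36 * T ^ 6 * ε := by
      rw [abs_mul, abs_pow]
      exact mul_le_mul hdT hSZ (abs_nonneg _) (by positivity)
    have h5 := abs_sub (d3 (P 0) (P 1) (P 2) ^ 2 * q2 S Z Z)
      (∑ i, q2 S (P i) (P i) * (co P i Z * co P i Z))
    linarith
  have hfX := hf X hxx hSX
  have hfY := hf Y hyy hSY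
  obtain ⟨f3, hf3⟩ : ∃ f, f = ∑ i, q2 S (P (i + 1)) (P (i + 2)) *
      (co P (i + 1) X * co P (i + 2) X) := ⟨_, rfl⟩
  obtain ⟨f4, hf4⟩ : ∃ f, f = ∑ i, q2 S (P (i + 1)) (P (i + 2)) *
      (co P (i + 1) Y * co P (i + 2) Y) := ⟨_, rfl⟩
  rw [← hf3] at hfX
  rw [← hf4] at hfY
  have e1 : (0 : Fin 3) + 1 = 1 := rfl
  have e2 : (0 : Fin 3) + 2 = 2 := rfl
  have e3 : (1 : Fin 3) + 1 = 2 := rfl
  have e4 : (1 : Fin 3) + 2 = 0 := rfl
  have e5 : (2 : Fin 3) + 1 = 0 := rfl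
  have e6 : (2 : Fin 3) + 2 = 1 := rfl
  have k1 : q2 S (P 2) (P 0) * nn P X Y 0 - q2 S (P 1) (P 2) * nn P X Y 1 =
      f3 * (co P 0 Y * co P 1 Y) - f4 * (co P 0 X * co P 1 X) := by
    rw [hf3, hf4]
    simp only [nn, Fin.sum_univ_three, e1, e2, e3, e4, e5, e6]
    ring
  have k2 : q2 S (P 0) (P 1) * nn P X Y 0 - q2 S (P 1) (P 2) * nn P X Y 2 =
      f4 * (co P 0 X * co P 2 X) - f3 * (co P 0 Y * co P 2 Y) := by
    rw [hf3, hf4]
    simp only [nn, Fin.sum_univ_three, e1, e2, e3, e4, e5, e6]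
    ring
  have hfm : ∀ {f c : ℝ}, |f| ≤ 72 * T ^ 6 * ε → |c| ≤ 36 * T ^ 6 →
      |f * c| ≤ 2592 * (T ^ 12 * ε) := by
    intro f c h1 h2
    rw [abs_mul]
    calc _ ≤ 72 * T ^ 6 * ε * (36 * T ^ 6) := mul_le_mul h1 h2 (abs_nonneg _) (by positivity)
      _ = _ := by ring
  have k1' : |q2 S (P 2) (P 0) * nn P X Y 0 - q2 S (P 1) (P 2) * nn P X Y 1| ≤
      5184 * (T ^ 12 * ε) := by
    rw [k1]
    refine (abs_sub _ _).trans ?_
    linarith [hfm hfX (hyy 0 1), hfm hfY (hxx 0 1)]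
  have k2' : |q2 S (P 0) (P 1) * nn P X Y 0 - q2 S (P 1) (P 2) * nn P X Y 2| ≤
      5184 * (T ^ 12 * ε) := by
    rw [k2]
    refine (abs_sub _ _).trans ?_
    linarith [hfm hfX (hyy 0 2), hfm hfY (hxx 0 2)]
  -- the form
  have hmain : nn P X Y 0 * (d3 (P 0) (P 1) (P 2) ^ 2 * S i j) -
      q2 S (P 1) (P 2) * cqm P X Y i j =
      nn P X Y 0 * ∑ k, q2 S (P k) (P k) * (co P k (eb i) * co P k (eb j)) +
      (q2 S (P 2) (P 0) * nn P X Y 0 - q2 S (P 1) (P 2) * nn P X Y 1) *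
        (co P 2 (eb i) * co P 0 (eb j) + co P 0 (eb i) * co P 2 (eb j)) +
      (q2 S (P 0) (P 1) * nn P X Y 0 - q2 S (P 1) (P 2) * nn P X Y 2) *
        (co P 0 (eb i) * co P 1 (eb j) + co P 1 (eb i) * co P 0 (eb j)) := by
    have h1 := q2_exp hS P (eb i) (eb j)
    rw [q2_ebb] at h1
    rw [h1]
    simp only [cqm, cq, Fin.sum_univ_three, e1, e2, e3, e4, e5, e6]
    ring
  have hcc : ∀ k, |q2 S (P k) (P k) * (co P k (eb i) * co P k (eb j))| ≤ ε * (36 * T ^ 4) := by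
    intro k
    rw [abs_mul, abs_mul]
    refine mul_le_mul (hSP k) ?_ (by positivity) hε0
    calc _ ≤ 6 * (1 * T ^ 2) * (6 * (1 * T ^ 2)) :=
          mul_le_mul (h.co_le (eb_le i) k) (h.co_le (eb_le j) k) (abs_nonneg _) (by positivity)
      _ = _ := by ring
  have hbd : |nn P X Y 0 * (d3 (P 0) (P 1) (P 2) ^ 2 * S i j) -
      q2 S (P 1) (P 2) * cqm P X Y i j| ≤ 2 ^ 20 * (T ^ 16 * ε) := by
    rw [hmain]
    have h1 : |nn P X Y 0 * ∑ k, q2 S (P k) (P k) * (co P k (eb i) * co P k (eb j))| ≤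
        279936 * (T ^ 16 * ε) := by
      rw [abs_mul]
      have h2 : |∑ k, q2 S (P k) (P k) * (co P k (eb i) * co P k (eb j))| ≤
          3 * (ε * (36 * T ^ 4)) := by
        refine (Finset.abs_sum_le_sum_abs _ _).trans ?_
        refine (Finset.sum_le_sum (g := fun _ => ε * (36 * T ^ 4)) fun k _ => hcc k).trans
          (le_of_eq ?_)
        rw [Finset.sum_const, Finset.card_univ, Fintype.card_fin, nsmul_eq_mul]
        push_cast
        ring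
      calc _ ≤ 2592 * T ^ 12 * (3 * (ε * (36 * T ^ 4))) :=
            mul_le_mul (h.nn_le 0) h2 (abs_nonneg _) (by positivity)
        _ = _ := by ring
    have h3 := h.cq_le (eb_le i) (eb_le j) 1
    have h4 := h.cq_le (eb_le i) (eb_le j) 2
    rw [e3, e4] at h3
    rw [e5, e6] at h4
    have h5 : |(q2 S (P 2) (P 0) * nn P X Y 0 - q2 S (P 1) (P 2) * nn P X Y 1) *
        (co P 2 (eb i) * co P 0 (eb j) + co P 0 (eb i) * co P 2 (eb j))| ≤
        373248 * (T ^ 16 * ε) := by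
      rw [abs_mul]
      calc _ ≤ 5184 * (T ^ 12 * ε) * (72 * T ^ 4) :=
            mul_le_mul k1' h3 (abs_nonneg _) (by positivity)
        _ = _ := by ring
    have h6 : |(q2 S (P 0) (P 1) * nn P X Y 0 - q2 S (P 1) (P 2) * nn P X Y 2) *
        (co P 0 (eb i) * co P 1 (eb j) + co P 1 (eb i) * co P 0 (eb j))| ≤
        373248 * (T ^ 16 * ε) := by
      rw [abs_mul]
      calc _ ≤ 5184 * (T ^ 12 * ε) * (72 * T ^ 4) :=
            mul_le_mul k2' h4 (abs_nonneg _) (by positivity)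
        _ = _ := by ring
    have h7 : 0 ≤ T ^ 16 * ε := by positivity
    refine (abs_add_le _ _).trans ((add_le_add (abs_add_le _ _) le_rfl).trans ?_)
    linarith
  have e : S i j - tau P X Y * q2 S (P 1) (P 2) * cqm P X Y i j = tau P X Y *
      (nn P X Y 0 * (d3 (P 0) (P 1) (P 2) ^ 2 * S i j) - q2 S (P 1) (P 2) * cqm P X Y i j) := by
    unfold tau
    field_simp
  rw [e, abs_mul]
  calc _ ≤ T ^ 6 * (2 ^ 20 * (T ^ 16 * ε)) := mul_le_mul hτ hbd (abs_nonneg _) (by positivity)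
    _ = _ := by ring

end Five

end Pool.CUB46
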