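import Pool.Agent.H46.D2.Hei0
import Pool.Agent.H21.G2.Cop
import Pool.Agent.H42.D2.Span

/-!
# Five copies: the polynomial of a record is quadratic

`whole_box`: if the second derivative of the polynomial of the record in the direction of the sample is
small at the position of the sample, and the position is full given the record and the direction, then
the second derivative is small on the whole box. `t2_law`: if moreover the directions have no
hyperplane given the record, then the polynomial of the record is nearly quadratic.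
-/

set_option autoImplicit false

namespace Pool.CUB46

open Finset Real MvPolynomial
open Pool.Agent.H49.Ent Pool.Agent.H32.Dense Pool.STK Pool.D2A Pool.D2Con
open Pool.BFL (Pb)
open Pool.D2G30 (Pb_nn ell nd lgC one_le_lgC ell_bd ell_interp read_polyD)
open Pool.V02G
open Pool.GEN (totalDegree_pdσ)

/-! ### The second derivative in a direction, as a polynomial -/

/-- The second derivatives, in the standard coordinates. -/
noncomputable def h3 (F : MvPolynomial (Fin 3) ℝ) (b : Fin 3 → ℝ) (i j : Fin 3) : ℝ :=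
  eval b (pderiv i (pderiv j F))

theorem h3_eq (F : MvPolynomial (Fin 3) ℝ) (b : Fin 3 → ℝ) :
    hh (Equiv.refl (Fin 3)) F b = h3 F b := rfl

/-- The second derivative in the direction `X`. -/
noncomputable def Dq (F : MvPolynomial (Fin 3) ℝ) (X : Fin 3 → ℝ) : MvPolynomial (Fin 3) ℝ :=
  ∑ i, ∑ j, C (X i * X j) * pderiv i (pderiv j F)

theorem eval_Dq (F : MvPolynomial (Fin 3) ℝ) (X b : Fin 3 → ℝ) :
    eval b (Dq F X) = q2 (h3 F b) X X := by
  unfold Dq q2 h3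
  rw [map_sum]
  refine Finset.sum_congr rfl fun i _ => ?_
  rw [map_sum]
  refine Finset.sum_congr rfl fun j _ => ?_
  rw [map_mul, eval_C]
  ring

theorem deg_Dq {F : MvPolynomial (Fin 3) ℝ} {K : ℕ} (h : F.totalDegree ≤ K) (X : Fin 3 → ℝ) :
    (Dq F X).totalDegree ≤ K := by
  unfold Dq
  refine totalDegree_finsetSum_le fun i _ => totalDegree_finsetSum_le fun j _ => ?_
  refine (totalDegree_mul _ _).trans ?_
  rw [totalDegree_C, zero_add]
  exact totalDegree_pdσ (totalDegree_pdσ h j) i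

/-- A polynomial which is small at the nodes is small on the box. -/
theorem node_box {K d : ℕ} (hK : 1 ≤ K) {P : MvPolynomial (Fin d) ℝ} (hP : P.totalDegree ≤ K)
    {M : ℝ} (hM : ∀ β : Fin d → Fin (K + 1), |eval (nd K β) P| ≤ M) {b : Fin d → ℝ}
    (hb : ∀ i, |b i| ≤ 1) : |eval b P| ≤ (K + 1) ^ d * lgC K ^ d * M := by
  rw [ell_interp hK P hP b]
  refine (Finset.abs_sum_le_sum_abs _ _).trans ?_
  refine (Finset.sum_le_sum (g := fun _ => lgC K ^ d * M) fun β _ => ?_).trans (le_of_eq ?_)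
  · rw [abs_mul]
    exact mul_le_mul (ell_bd β (fun i => (abs_le.1 (hb i)).1)
      (fun i => ((abs_le.1 (hb i)).2).trans (by norm_num))) (hM β) (abs_nonneg _)
      (pow_nonneg (zero_le_one.trans (one_le_lgC K)) d)
  · rw [Finset.sum_const, Finset.card_univ, Fintype.card_fun, Fintype.card_fin, Fintype.card_fin,
      nsmul_eq_mul]
    push_cast
    ring

/-- The number of digits of the constants. -/
noncomputable def uK (K : ℕ) : ℕ :=
  ⌈Real.logb 2 (((K : ℝ) + 1) ^ 3 * (1 + (K + 1) ^ 3 * lgC K ^ 3) + 2)⌉₊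

theorem uK_le (K : ℕ) : ((K : ℝ) + 1) ^ 3 * (1 + (K + 1) ^ 3 * lgC K ^ 3) + 2 ≤ 2 ^ uK K := by
  have hC := one_le_lgC K
  have hx : 0 < ((K : ℝ) + 1) ^ 3 * (1 + (K + 1) ^ 3 * lgC K ^ 3) + 2 := by positivity
  have h1 := Nat.le_ceil (Real.logb 2 (((K : ℝ) + 1) ^ 3 * (1 + (K + 1) ^ 3 * lgC K ^ 3) + 2))
  calc ((K : ℝ) + 1) ^ 3 * (1 + (K + 1) ^ 3 * lgC K ^ 3) + 2 =
        2 ^ Real.logb 2 (((K : ℝ) + 1) ^ 3 * (1 + (K + 1) ^ 3 * lgC K ^ 3) + 2) :=
          (Real.rpow_logb (by norm_num) (by norm_num) hx).symm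
    _ ≤ 2 ^ ((uK K : ℕ) : ℝ) := Real.rpow_le_rpow_of_exponent_le (by norm_num) h1
    _ = 2 ^ uK K := by rw [Real.rpow_natCast]

section law

variable {Ω ζ ε : Type} [Fintype Ω] {q : Ω → ℝ}

/-- The position of the sample in the box. -/
noncomputable def ps (k : ℕ) (xi : Ω → Fin 3 → ℕ) (ω : Ω) : Fin 3 → ℝ :=
  fun i => (xi ω i : ℝ) / 2 ^ k

/-- **The second derivative is small on the whole box.** -/
theorem whole_box (hq : IsLaw q) (Z : Ω → ζ) (E : Ω → ε) (X : ε → Fin 3 → ℝ)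
    (Ph : ζ → MvPolynomial (Fin 3) ℝ) {K k v : ℕ} (hK : 1 ≤ K)
    (hdeg : ∀ ω, 0 < q ω → (Ph (Z ω)).totalDegree ≤ K) (xi : Ω → Fin 3 → ℕ)
    (hxi : ∀ ω, 0 < q ω → ∀ i, xi ω i < 2 ^ k) {e₀ η d₁ r : ℝ} (hη : 0 < η)
    (hfull : 3 * (k * Real.log 2) - e₀ ≤ CH q xi (fun ω => (Z ω, E ω)))
    (hsm : Pb q (fun ω => η < |q2 (h3 (Ph (Z ω)) (ps k xi ω)) (X (E ω)) (X (E ω))|) ≤ d₁)
    (huv : uK K ≤ v) (hvk : v ≤ uK K + k) (hr : 0 < r)
    (hrv : r ≤ ((((v : ℝ) - uK K) / (K * 3)) - 1) * Real.log 2 - Real.log (3 * K)) :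
    Pb q (fun ω => ∃ b : Fin 3 → ℝ, (∀ i, |b i| ≤ 1) ∧
      (K + 1) ^ 3 * lgC K ^ 3 * (2 ^ v * η) < |q2 (h3 (Ph (Z ω)) b) (X (E ω)) (X (E ω))|) ≤
      d₁ + (e₀ + Real.log 2) / r := by
  classical
  have h0 := hq.nonneg
  obtain ⟨G, hG⟩ : ∃ G : Ω → (Fin 3 → Fin (K + 1)) → ℝ, G = fun ω β =>
      eval (nd K β) (Dq (Ph (Z ω)) (X (E ω))) / η := ⟨_, rfl⟩
  obtain ⟨Ev, hEv⟩ : ∃ Ev : Ω → Prop, Ev = fun ω =>
      |q2 (h3 (Ph (Z ω)) (ps k xi ω)) (X (E ω)) (X (E ω))| ≤ η := ⟨_, rfl⟩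
  have hcell : CH q (fun ω β => ⌊G ω β⌋) (fun ω => (Z ω, E ω)) ≤ 0 := by
    refine le_of_eq (CH_eq_zero h0 ?_)
    intro ω ω' _ _ h
    simp only [Prod.mk.injEq] at h
    rw [hG]
    funext β
    dsimp only
    rw [h.1, h.2]
  have hrel : ∀ ω, 0 < q ω → Ev ω →
      |∑ β, ell K β (fun i => (xi ω i : ℝ) / 2 ^ k) * G ω β| ≤ 1 := by
    intro ω hω hE
    rw [hEv] at hE
    have h1 := ell_interp hK (Dq (Ph (Z ω)) (X (E ω))) (deg_Dq (hdeg ω hω) _)
      (fun i => (xi ω i : ℝ) / 2 ^ k)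
    have h2 : ∑ β, ell K β (fun i => (xi ω i : ℝ) / 2 ^ k) * G ω β =
        eval (fun i => (xi ω i : ℝ) / 2 ^ k) (Dq (Ph (Z ω)) (X (E ω))) / η := by
      rw [h1, Finset.sum_div, hG]
      exact Finset.sum_congr rfl fun β _ => by rw [mul_div_assoc]
    rw [h2, eval_Dq, abs_div, abs_of_pos hη, div_le_one hη]
    exact hE
  have key := read_polyD hq (fun ω => (Z ω, E ω)) (K := K) (d := 3) (k := k) (u := uK K) (v := v)
    hK (by norm_num) xi G Ev (lam := 1) (e := e₀) (e' := 0) zero_le_one hxi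
    (by push_cast; exact hfull) hcell hrel (uK_le K) huv hvk
  have hP := Pb_nn h0 (fun ω => Ev ω ∧ ∃ β, 2 ^ v ≤ |G ω β|)
  have h1 : Pb q (fun ω => Ev ω ∧ ∃ β, 2 ^ v ≤ |G ω β|) ≤ (e₀ + Real.log 2) / r := by
    rw [le_div_iff₀ hr]
    have h2 : Pb q (fun ω => Ev ω ∧ ∃ β, 2 ^ v ≤ |G ω β|) * r ≤
        Pb q (fun ω => Ev ω ∧ ∃ β, 2 ^ v ≤ |G ω β|) *
          ((((v : ℝ) - uK K) / (K * (3 : ℕ)) - 1) * Real.log 2 - Real.log ((3 : ℕ) * K)) :=
      mul_le_mul_of_nonneg_left (by push_cast; exact hrv) hP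
    linarith
  have h2 := Pb_or' h0 (fun ω => η < |q2 (h3 (Ph (Z ω)) (ps k xi ω)) (X (E ω)) (X (E ω))|)
    (fun ω => Ev ω ∧ ∃ β, 2 ^ v ≤ |G ω β|)
  have h3' : Pb q (fun ω => ∃ b : Fin 3 → ℝ, (∀ i, |b i| ≤ 1) ∧
      (K + 1) ^ 3 * lgC K ^ 3 * (2 ^ v * η) < |q2 (h3 (Ph (Z ω)) b) (X (E ω)) (X (E ω))|) ≤
      Pb q (fun ω => (η < |q2 (h3 (Ph (Z ω)) (ps k xi ω)) (X (E ω)) (X (E ω))|) ∨
        (Ev ω ∧ ∃ β, 2 ^ v ≤ |G ω β|)) := by
    refine Pb_mono' h0 fun ω hω hb => ?_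
    obtain ⟨b, hb1, hb2⟩ := hb
    rcases lt_or_ge η (|q2 (h3 (Ph (Z ω)) (ps k xi ω)) (X (E ω)) (X (E ω))|) with h | h
    · exact Or.inl h
    · refine Or.inr ⟨by rw [hEv]; exact h, ?_⟩
      by_contra hcon
      push Not at hcon
      have h4 := node_box hK (deg_Dq (hdeg ω hω) (X (E ω))) (M := 2 ^ v * η) (fun β => by
        have h5 := hcon β
        rw [hG] at h5
        dsimp only at h5
        rw [abs_div, abs_of_pos hη, div_lt_iff₀ hη] at h5
        exact h5.le) hb1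
      rw [eval_Dq] at h4
      linarith
  linarith

end law

/-! ### Nearly quadratic polynomials -/

/-- **The polynomial is nearly quadratic** on the box. -/
def Flat (F : MvPolynomial (Fin 3) ℝ) (ε : ℝ) : Prop :=
  ∀ x b : Fin 3 → ℝ, (∀ i, |x i| ≤ 1) → (∀ i, |b i| ≤ 1) →
    (∀ i j, |h3 F b i j - h3 F x i j| ≤ ε) ∧
    (∀ j, |eval b (pderiv j F) - (eval x (pderiv j F) + ∑ i, h3 F x i j * (b i - x i))| ≤ ε) ∧
    |eval b F - (eval x F + ∑ j, eval x (pderiv j F) * (b j - x j) +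
      q2 (h3 F x) (fun i => b i - x i) (fun i => b i - x i) / 2)| ≤ ε

/-- **Five directions.** -/
theorem flat_of (D : ℕ) : ∃ C : ℝ, 1 ≤ C ∧ ∀ {P : Fin 3 → Fin 3 → ℝ} {X Y : Fin 3 → ℝ} {T ε : ℝ}
    {F : MvPolynomial (Fin 3) ℝ}, Five P X Y T → F.totalDegree ≤ D →
    (∀ b : Fin 3 → ℝ, (∀ o, |b o| ≤ 1) → (∀ i, |q2 (h3 F b) (P i) (P i)| ≤ ε) ∧
      |q2 (h3 F b) X X| ≤ ε ∧ |q2 (h3 F b) Y Y| ≤ ε) → Flat F (C * T ^ 320 * ε) := by
  obtain ⟨C, hC, h⟩ := flat_five D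
  refine ⟨19 * C, by linarith, ?_⟩
  intro P X Y T ε F h5 hF hq x b hx hb
  have hb' := h (Equiv.refl (Fin 3)) h5 hF hq x b hx hb
  have hx' := h (Equiv.refl (Fin 3)) h5 hF hq x x hx hx
  obtain ⟨A, hA⟩ : ∃ A, A = C * T ^ 320 * ε := ⟨_, rfl⟩
  obtain ⟨sg, hsg⟩ : ∃ sg, sg = sg0 (Equiv.refl (Fin 3)) P X Y F x := ⟨_, rfl⟩
  rw [← hA, ← hsg] at hb' hx'
  have hA0 : 0 ≤ A := (abs_nonneg _).trans hb'.1
  have e0 : 19 * C * T ^ 320 * ε = 19 * A := by rw [hA]; ring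
  rw [e0]
  have k1 : ∀ i j, |h3 F x i j - sg * cqm P X Y i j| ≤ A := fun i j => hx'.2.2.2 i j
  have k2 : ∀ i j, |h3 F b i j - sg * cqm P X Y i j| ≤ A := fun i j => hb'.2.2.2 i j
  have hd : ∀ i, |b i - x i| ≤ 2 := fun i => by
    refine (abs_sub _ _).trans ?_
    linarith [hb i, hx i]
  refine ⟨fun i j => ?_, fun j => ?_, ?_⟩
  · have e : h3 F b i j - h3 F x i j = (h3 F b i j - sg * cqm P X Y i j) -
        (h3 F x i j - sg * cqm P X Y i j) := by ring
    rw [e]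
    refine (abs_sub _ _).trans ?_
    linarith [k1 i j, k2 i j]
  · have k3 := hb'.2.2.1 j
    have k4 : |∑ i, (h3 F x i j - sg * cqm P X Y i j) * (b i - x i)| ≤ 6 * A := by
      refine (Finset.abs_sum_le_sum_abs _ _).trans ?_
      refine (Finset.sum_le_sum (g := fun _ => A * 2) fun i _ => ?_).trans (le_of_eq ?_)
      · rw [abs_mul]
        exact mul_le_mul (k1 i j) (hd i) (abs_nonneg _) hA0
      · rw [Finset.sum_const, Finset.card_univ, Fintype.card_fin, nsmul_eq_mul]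
        push_cast
        ring
    have e : eval b (pderiv j F) - (eval x (pderiv j F) + ∑ i, h3 F x i j * (b i - x i)) =
        (eval b (pderiv j F) - (eval x (pderiv j F) +
          sg * ∑ i, cqm P X Y i j * (b i - x i))) -
        ∑ i, (h3 F x i j - sg * cqm P X Y i j) * (b i - x i) := by
      simp only [Fin.sum_univ_three]
      ring
    rw [e]
    refine (abs_sub _ _).trans ?_
    have k5 : |eval b (pderiv j F) - (eval x (pderiv j F) +
          sg * ∑ i, cqm P X Y i j * (b i - x i))| ≤ A := k3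
    linarith
  · have k3 : |eval b F - (eval x F + ∑ j, eval x (pderiv j F) * (b j - x j) +
        sg / 2 * q2 (cqm P X Y) (fun i => b i - x i) (fun i => b i - x i))| ≤ A := hb'.1
    have k4 : |q2 (fun i j => h3 F x i j - sg * cqm P X Y i j) (fun i => b i - x i)
        (fun i => b i - x i)| ≤ 36 * A := by
      unfold q2
      refine (Finset.abs_sum_le_sum_abs _ _).trans ?_
      refine (Finset.sum_le_sum (g := fun _ => 12 * A) fun i _ =>
        (Finset.abs_sum_le_sum_abs _ _).trans ?_).trans (le_of_eq ?_)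
      · refine (Finset.sum_le_sum (g := fun _ => A * (2 * 2)) fun j _ => ?_).trans (le_of_eq ?_)
        · rw [abs_mul, abs_mul]
          exact mul_le_mul (k1 i j) (mul_le_mul (hd i) (hd j) (abs_nonneg _) (by norm_num))
            (by positivity) hA0
        · rw [Finset.sum_const, Finset.card_univ, Fintype.card_fin, nsmul_eq_mul]
          push_cast
          ring
      · rw [Finset.sum_const, Finset.card_univ, Fintype.card_fin, nsmul_eq_mul]
        push_cast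
        ring
    have e : eval b F - (eval x F + ∑ j, eval x (pderiv j F) * (b j - x j) +
        q2 (h3 F x) (fun i => b i - x i) (fun i => b i - x i) / 2) =
        (eval b F - (eval x F + ∑ j, eval x (pderiv j F) * (b j - x j) +
          sg / 2 * q2 (cqm P X Y) (fun i => b i - x i) (fun i => b i - x i))) -
        q2 (fun i j => h3 F x i j - sg * cqm P X Y i j) (fun i => b i - x i)
          (fun i => b i - x i) / 2 := by
      simp only [q2, Fin.sum_univ_three]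
      ring
    rw [e]
    refine (abs_sub _ _).trans ?_
    rw [abs_div, abs_two]
    linarith

section law

variable {Ω ζ ε : Type} [Fintype Ω] {q : Ω → ℝ}

/-- **The polynomial of the record is nearly quadratic.** -/
theorem flat_law (D : ℕ) : ∃ C : ℝ, 1 ≤ C ∧ ∀ {Ω ζ ε : Type} [Fintype Ω] {q : Ω → ℝ}
    (_ : IsLaw q) (Z : Ω → ζ) (E : Ω → ε) (X : ε → Fin 3 → ℝ) (Ph : ζ → MvPolynomial (Fin 3) ℝ)
    {T M η₀ c δ : ℝ}, 1 ≤ T → (∀ ω, 0 < q ω → (Ph (Z ω)).totalDegree ≤ D) →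
    (∀ ω, 0 < q ω → ∀ i, |X (E ω) i| ≤ T) → 0 < η₀ → 1 ≤ T * η₀ ^ 3 → 0 ≤ c →
    NoHyp q (fun ω => X (E ω)) Z η₀ c →
    Pb q (fun ω => ∃ b : Fin 3 → ℝ, (∀ i, |b i| ≤ 1) ∧
      M < |q2 (h3 (Ph (Z ω)) b) (X (E ω)) (X (E ω))|) ≤ δ →
    Pb q (fun ω => ¬ Flat (Ph (Z ω)) (C * T ^ 320 * M)) ≤ 5 * δ + 375 * c := by
  obtain ⟨C, hC, h⟩ := flat_of D
  refine ⟨C, hC, ?_⟩
  intro Ω ζ ε _ q hq Z E X Ph T M η₀ c δ hT hdeg hX hη hTη hc hNo hM
  classical
  have hL := CL_isLaw hq Z 5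
  have h0 := hL.nonneg
  obtain ⟨Bd, hBd⟩ : ∃ Bd : Ω → Prop, Bd = fun ω => ∃ b : Fin 3 → ℝ, (∀ i, |b i| ≤ 1) ∧
      M < |q2 (h3 (Ph (Z ω)) b) (X (E ω)) (X (E ω))| := ⟨_, rfl⟩
  rw [← hBd] at hM
  obtain ⟨Dt, hDt⟩ : ∃ Dt : {js : Fin 3 → Fin 5 // Function.Injective js} →
      (Ω × Ω) × (Fin 5 → Ω × Ω) → Prop, Dt = fun js w =>
      |(Matrix.of (fun i => X (E (Pool.V02G.co (js.1 i) w)))).det| < η₀ ^ 3 := ⟨_, rfl⟩
  have h1 : Pb q (fun ω => ¬ Flat (Ph (Z ω)) (C * T ^ 320 * M)) =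
      Pb (CL q Z 5) (fun w => ¬ Flat (Ph (Z w.1.1)) (C * T ^ 320 * M)) :=
    (Pb_mg (CL_fst hq Z 5) (fun ω => ¬ Flat (Ph (Z ω)) (C * T ^ 320 * M))).symm
  have h2 : Pb (CL q Z 5) (fun w => ¬ Flat (Ph (Z w.1.1)) (C * T ^ 320 * M)) ≤
      Pb (CL q Z 5) (fun w => (∃ r, Bd (Pool.V02G.co r w)) ∨ ∃ js, Dt js w) := by
    refine Pb_mono' h0 fun w hw hF => ?_
    by_contra hcon
    push Not at hcon
    obtain ⟨hB, hD⟩ := hcon
    refine hF ?_
    obtain ⟨hw1, hw2⟩ := CL_pos hq hw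
    obtain ⟨V, hV⟩ : ∃ V : Fin 5 → Fin 3 → ℝ, V = fun r => X (E (Pool.V02G.co r w)) := ⟨_, rfl⟩
    have hVT : ∀ r i, |V r i| ≤ T := fun r i => by
      rw [hV]
      exact hX _ (hw2 r).1 i
    have hd : ∀ r s t : Fin 5, r ≠ s → r ≠ t → s ≠ t → 1 ≤ T * |d3 (V r) (V s) (V t)| := by
      intro r s t h1 h2 h3
      have h4 := hD ⟨![r, s, t], by
        intro a b hab
        fin_cases a <;> fin_cases b <;> simp_all⟩
      rw [hDt] at h4
      simp only [not_lt] at h4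
      have e : (Matrix.of (fun i => X (E (Pool.V02G.co ((![r, s, t] : Fin 3 → Fin 5) i) w)))).det =
          d3 (V r) (V s) (V t) := by
        rw [Matrix.det_fin_three, hV]
        unfold d3
        simp
        ring
      rw [e] at h4
      exact hTη.trans (mul_le_mul_of_nonneg_left h4 (zero_le_one.trans hT))
    have hqV : ∀ (r : Fin 5) (b : Fin 3 → ℝ), (∀ i, |b i| ≤ 1) →
        |q2 (h3 (Ph (Z w.1.1)) b) (V r) (V r)| ≤ M := by
      intro r b hb
      have h4 := hB r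
      rw [hBd] at h4
      simp only [not_exists, not_and, not_lt] at h4
      have h5 := h4 b hb
      rw [(hw2 r).2] at h5
      rw [hV]
      exact h5
    have hF5 : Five ![V 0, V 1, V 2] (V 3) (V 4) T := by
      refine ⟨hT, fun i j => ?_, fun j => hVT 3 j, fun j => hVT 4 j, ?_, fun i => ?_, fun i => ?_,
        fun i => ?_⟩
      · fin_cases i
        · exact hVT 0 j
        · exact hVT 1 j
        · exact hVT 2 j
      · exact hd 0 1 2 (by decide) (by decide) (by decide)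
      · fin_cases i
        · exact hd 3 1 2 (by decide) (by decide) (by decide)
        · exact hd 3 2 0 (by decide) (by decide) (by decide)
        · exact hd 3 0 1 (by decide) (by decide) (by decide)
      · fin_cases i
        · exact hd 4 1 2 (by decide) (by decide) (by decide)
        · exact hd 4 2 0 (by decide) (by decide) (by decide)
        · exact hd 4 0 1 (by decide) (by decide) (by decide)
      · fin_cases i
        · exact hd 0 3 4 (by decide) (by decide) (by decide)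
        · exact hd 1 3 4 (by decide) (by decide) (by decide)
        · exact hd 2 3 4 (by decide) (by decide) (by decide)
    refine h hF5 (hdeg _ hw1) fun b hb => ⟨fun i => ?_, hqV 3 b hb, hqV 4 b hb⟩
    fin_cases i
    · exact hqV 0 b hb
    · exact hqV 1 b hb
    · exact hqV 2 b hb
  have h3 : Pb (CL q Z 5) (fun w => ∃ r, Bd (Pool.V02G.co r w)) ≤ 5 * δ := by
    refine (Pb_ex' h0 fun (r : Fin 5) w => Bd (Pool.V02G.co r w)).trans ?_
    refine (Finset.sum_le_sum (g := fun _ => δ) fun r _ => ?_).trans (le_of_eq ?_)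
    · rw [Pb_mg (CL_co hq Z r) Bd]
      exact hM
    · rw [Finset.sum_const, Finset.card_univ, Fintype.card_fin, nsmul_eq_mul]
      push_cast
      ring
  have h4 : Pb (CL q Z 5) (fun w => ∃ js, Dt js w) ≤ 375 * c := by
    refine (Pb_ex' h0 Dt).trans ?_
    refine (Finset.sum_le_sum (g := fun _ => 3 * c) fun js _ => ?_).trans ?_
    · have h5 := span_PL (X := fun ω => X (E ω)) (z := Z) hq hNo hη Z (fun _ : Fin 5 => true) true
        js.1 js.2 (fun _ => rfl)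
      rw [Pool.V1E.Pb_law] at h5
      rw [hDt]
      exact_mod_cast h5
    · rw [Finset.sum_const, Finset.card_univ, nsmul_eq_mul]
      have h6 : (Fintype.card {js : Fin 3 → Fin 5 // Function.Injective js} : ℝ) ≤ 125 := by
        have h7 := Fintype.card_subtype_le (fun js : Fin 3 → Fin 5 => Function.Injective js)
        rw [Fintype.card_fun, Fintype.card_fin, Fintype.card_fin] at h7
        exact_mod_cast h7
      nlinarith
  have h5 := Pb_or' h0 (fun w => ∃ r, Bd (Pool.V02G.co r w)) (fun w => ∃ js, Dt js w)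
  rw [h1]
  linarith

end law

/-- **T2**, one law: the position is full given the record and the direction, the second derivative
of the polynomial of the record in the direction is small at the position, the directions have no
hyperplane given the record. Then the second derivative in the direction of the sample is small on the
whole box, and the polynomial of the record is nearly quadratic. -/
theorem t2_law {D : ℕ} (hD : 1 ≤ D) : ∃ C : ℝ, 1 ≤ C ∧ ∀ {Ω ζ ε : Type} [Fintype Ω] {q : Ω → ℝ}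
    (_ : IsLaw q) (Z : Ω → ζ) (E : Ω → ε) (X : ε → Fin 3 → ℝ) (Ph : ζ → MvPolynomial (Fin 3) ℝ)
    {k v : ℕ} (xi : Ω → Fin 3 → ℕ) {T η η₀ c e₀ d₁ r : ℝ}, 1 ≤ T →
    (∀ ω, 0 < q ω → (Ph (Z ω)).totalDegree ≤ D) → (∀ ω, 0 < q ω → ∀ i, |X (E ω) i| ≤ T) →
    (∀ ω, 0 < q ω → ∀ i, xi ω i < 2 ^ k) → 0 < η₀ → 1 ≤ T * η₀ ^ 3 → 0 ≤ c →
    NoHyp q (fun ω => X (E ω)) Z η₀ c → 0 < η →
    3 * (k * Real.log 2) - e₀ ≤ CH q xi (fun ω => (Z ω, E ω)) →
    Pb q (fun ω => η < |q2 (h3 (Ph (Z ω)) (ps k xi ω)) (X (E ω)) (X (E ω))|) ≤ d₁ →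
    uK D ≤ v → v ≤ uK D + k → 0 < r →
    r ≤ ((((v : ℝ) - uK D) / (D * 3)) - 1) * Real.log 2 - Real.log (3 * D) →
    Pb q (fun ω => ∃ b : Fin 3 → ℝ, (∀ i, |b i| ≤ 1) ∧
      C * (2 ^ v * η) < |q2 (h3 (Ph (Z ω)) b) (X (E ω)) (X (E ω))|) ≤
      d₁ + (e₀ + Real.log 2) / r ∧
    Pb q (fun ω => ¬ Flat (Ph (Z ω)) (C * T ^ 320 * (2 ^ v * η))) ≤
      5 * (d₁ + (e₀ + Real.log 2) / r) + 375 * c := by
  obtain ⟨C₁, hC₁, h⟩ := flat_law D
  obtain ⟨C₂, hC₂⟩ : ∃ C₂ : ℝ, C₂ = ((D : ℝ) + 1) ^ 3 * lgC D ^ 3 := ⟨_, rfl⟩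
  have hC₂1 : 1 ≤ C₂ := by
    rw [hC₂]
    have h1 : (0 : ℝ) ≤ D := Nat.cast_nonneg _
    exact one_le_mul_of_one_le_of_one_le (one_le_pow₀ (by linarith))
      (one_le_pow₀ (one_le_lgC D))
  refine ⟨C₁ * C₂, one_le_mul_of_one_le_of_one_le hC₁ hC₂1, ?_⟩
  intro Ω ζ ε _ q hq Z E X Ph k v xi T η η₀ c e₀ d₁ r hT hdeg hX hxi hη₀ hTη hc hNo hη hfull hsm
    huv hvk hr hrv
  have h1 := whole_box hq Z E X Ph hD hdeg xi hxi hη hfull hsm huv hvk hr hrv
  rw [← hC₂] at h1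
  have h2 := h hq Z E X Ph hT hdeg hX hη₀ hTη hc hNo h1
  have hp : (0 : ℝ) ≤ 2 ^ v * η := by positivity
  refine ⟨le_trans (Pb_mono' hq.nonneg fun ω _ hb => ?_) h1, ?_⟩
  · obtain ⟨b, hb1, hb2⟩ := hb
    refine ⟨b, hb1, lt_of_le_of_lt ?_ hb2⟩
    exact mul_le_mul_of_nonneg_right (le_mul_of_one_le_left (by linarith) hC₁) hp
  · have e : C₁ * T ^ 320 * (C₂ * (2 ^ v * η)) = C₁ * C₂ * T ^ 320 * (2 ^ v * η) := by ring
    rw [e] at h2
    exact h2

end Pool.CUB46
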