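import Pool.Agent.H90.D2.Lcl

/-!
# Separated lines through the exact point

`cl_ev`: an event on which the labels of any two samples of one line and window are close is small.
`sep_cover`: in every fibre, every element has `N` others such that the values are separated, or is
near one of `N` elements. `sep_cls`: through most points there are `N + 1` lines whose velocities in
the direction of the coordinate `c 0` are separated; `tri_cls`: `N = 2`.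
-/

set_option autoImplicit false

namespace Pool.SEP46

open Finset Real MvPolynomial
open Pool.Agent.H49.Ent Pool.Agent.H32.Dense Pool.STK Pool.KA Pool.KSAT Pool.K2S Pool.PB Pool.S6C
open Pool.GEN Pool.CHT Pool.CHX Pool.D2F
open Pool.LBT (ThrOf)
open Pool.KM7 (P2)
open Pool.JVE (pe_sum)

variable {m : ℕ}

/-! ### Small events -/

/-- **Events on which the labels are constant along the lines are small.** -/
theorem cl_ev {θ : ℝ} {S : PCl m} {P : List (Fin m) × Fin m → ℝ → ℝ → ℝ}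
    (hP : ThrOf (chsys m θ) S P) (c : ℕ → Fin m) (i : ℕ) (hc : Set.InjOn c (Set.Iio (i + 1)))
    (a : ℚ) (e h : ℝ) (ha0 : 0 ≤ a) (ha : a ≤ 1) (he : e < θ * a) (hh : 0 < h)
    (h1 : bet P c i a a + h ≤ 1) :
    ∃ δ : ℝ, 0 < δ ∧ Bas S (fun J F A => ∀ (n a₀ e₀ e' k s V p : ℕ) (g : ℕ → ℕ)
      (ψ : PtT F → ℕ → Option (Fin m) → ℝ) (ψH : LnT F → ℕ → Option (Fin m) → ℝ)
      (μ : PtT F → ℕ → ℝ) (κ : PtT F → ℕ → ℕ → ℝ), i < n → a₀ ≤ J → a₀ ≤ ⌊(a : ℝ) * J⌋₊ →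
      e₀ + e' + 2 * k + s + 2 * (i + 1) + 4 ≤ ⌊e * J⌋₊ →
      s + e' + k + 3 * (i + 1) + 6 ≤ V → (∀ j ≤ i, e₀ + g j + V ≤ J) →
      (∀ l < i, k + 1 ≤ g l) → p ≤ g i + s → p ≤ J →
      ⌊(bet P c i a a + h) * J⌋₊ + a₀ ≤ p + ⌊(a : ℝ) * J⌋₊ → ∀ B : F.Ω → Prop, Sub B A →
      FrOK F c n a₀ k e₀ g B ψ ψH → (∀ ω, B ω → ∀ j ≤ i, |μ (ptr F J ω) j| ≤ 2 ^ e') →
      (∀ ω, B ω → ∀ j ≤ i, ∀ l ≤ i, |κ (ptr F J ω) j l| ≤ 2 ^ e') →
      (∀ ω ω', B ω → B ω' → slam F a₀ ω = slam F a₀ ω' → Cl F c g a₀ i k s ψ μ κ ω ω') →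
      Pe F.p B ≤ Real.exp (-(δ * J)) * Pe F.p A) := by
  classical
  obtain ⟨δ, hδ, hB⟩ := lab_cls hP c i hc a e h ha0 ha he hh h1
  refine ⟨δ, hδ, Bas.mono 0 hB ?_⟩
  intro J _ F A hA n a₀ e₀ e' k s V p g ψ ψH μ κ k1 k2 k3 k4 k5 k6 k7 k8 k9 k10 B hBA hfr hμ hκ hcl
  rcases (Pe_nonneg F.isLaw B).eq_or_lt with h0 | h0
  · rw [← h0]
    exact mul_nonneg (Real.exp_pos _).le (Pe_nonneg F.isLaw A)
  have hq1 : ∀ ω, 0 ≤ F.p ω := F.isLaw.nonneg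
  obtain ⟨q, hq⟩ : ∃ q : F.Ω → ℝ, q = fun ω => if B ω then F.p ω / Pe F.p B else 0 := ⟨_, rfl⟩
  have hqlaw : IsLaw q := by
    refine ⟨fun ω => ?_, ?_⟩
    · rw [hq]
      show 0 ≤ (if B ω then F.p ω / Pe F.p B else 0)
      split_ifs
      exacts [div_nonneg (hq1 ω) h0.le, le_rfl]
    · have e1 : ∑ ω, q ω = (∑ ω, if B ω then F.p ω else 0) / Pe F.p B := by
        rw [Finset.sum_div]
        refine Finset.sum_congr rfl fun ω _ => ?_
        rw [hq]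
        show (if B ω then F.p ω / Pe F.p B else 0) = (if B ω then F.p ω else 0) / Pe F.p B
        split_ifs
        exacts [rfl, (zero_div _).symm]
      rw [e1, ← pe_sum, div_self h0.ne']
  have hqB : ∀ ω, 0 < q ω → B ω := by
    intro ω hω
    by_contra hcon
    rw [hq] at hω
    simp only [if_neg hcon] at hω
    exact lt_irrefl _ hω
  have hM : 0 ≤ Pe F.p A / Pe F.p B := div_nonneg (Pe_nonneg F.isLaw A) h0.le
  have hqM : ∀ ω, q ω * Pe F.p A ≤ Pe F.p A / Pe F.p B * F.p ω := by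
    intro ω
    rw [hq]
    show (if B ω then F.p ω / Pe F.p B else 0) * Pe F.p A ≤ _
    split_ifs
    · refine le_of_eq ?_
      field_simp
    · rw [zero_mul]
      exact mul_nonneg hM (hq1 ω)
  have h2 := hA n a₀ e₀ e' k s V p g ψ ψH μ κ k1 k2 k3 k4 k5 k6 k7 k8 k9 k10 B hBA hfr hμ hκ q
    (Pe F.p A / Pe F.p B) hqlaw hM hqB hqM
  have hP2 := Pool.KM7.P2_isLaw hqlaw (slam F a₀)
  have h3 : Pe (P2 q (slam F a₀)) (fun x => Cl F c g a₀ i k s ψ μ κ x.1 x.2) = 1 := by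
    rw [pe_sum, ← hP2.sum_one]
    refine Finset.sum_congr rfl fun x _ => ?_
    rcases (hP2.nonneg x).eq_or_lt with h4 | h4
    · rw [← h4]
      simp
    · obtain ⟨x1, x2, x3⟩ := (Pool.KM7.P2_pos hqlaw x).mp h4
      rw [if_pos (hcl _ _ (hqB _ x1) (hqB _ x2) x3)]
  rw [h3] at h2
  have h4 : Pe F.p B * 1 ≤ Pe F.p B * (Pe F.p A / Pe F.p B * Real.exp (-(δ * J))) :=
    mul_le_mul_of_nonneg_left h2 h0.le
  rw [mul_one] at h4
  refine h4.trans (le_of_eq ?_)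
  field_simp

/-! ### Fibres -/

open Classical in
/-- **A cover of the fibres**: every element has `N` others with separated values, or is near one
of `N` elements of its fibre. -/
theorem sep_cover {Ω Y : Type} [Fintype Ω] [Nonempty Ω] (pt : Ω → Y) (v : Ω → ℝ) (B : Ω → Prop)
    {σ : ℝ} (hσ : 0 < σ) (N : ℕ) :
    ∃ f : ℕ → Y → Ω, ∀ ω, B ω →
      (∃ ν : Fin N → Ω, (∀ i, B (ν i) ∧ pt (ν i) = pt ω) ∧ (∀ i, σ ≤ |v ω - v (ν i)|) ∧
        ∀ i j, i ≠ j → σ ≤ |v (ν i) - v (ν j)|) ∨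
      ∃ i < N, B (f i (pt ω)) ∧ |v ω - v (f i (pt ω))| < σ := by
  obtain ⟨Sp, hSp⟩ : ∃ Sp : Ω → Prop, Sp = fun ω => ∃ ν : Fin N → Ω,
      (∀ i, B (ν i) ∧ pt (ν i) = pt ω) ∧ (∀ i, σ ≤ |v ω - v (ν i)|) ∧
        ∀ i j, i ≠ j → σ ≤ |v (ν i) - v (ν j)| := ⟨_, rfl⟩
  have key : ∀ y : Y, ∃ T : Finset Ω, T.card ≤ N ∧ (∀ τ ∈ T, B τ) ∧
      ∀ ω, B ω → ¬ Sp ω → pt ω = y → ∃ τ ∈ T, |v ω - v τ| < σ := by
    intro y
    obtain ⟨X, hX⟩ : ∃ X : Finset Ω, X = Finset.univ.filter fun ω => B ω ∧ ¬ Sp ω ∧ pt ω = y :=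
      ⟨_, rfl⟩
    obtain ⟨T, hT, hmax⟩ := (X.powerset.filter fun T => ∀ τ ∈ T, ∀ τ' ∈ T, τ ≠ τ' →
      σ ≤ |v τ - v τ'|).exists_max_image Finset.card ⟨∅, by simp⟩
    rw [Finset.mem_filter, Finset.mem_powerset] at hT
    have hXm : ∀ τ ∈ T, B τ ∧ ¬ Sp τ ∧ pt τ = y := by
      intro τ hτ
      have h1 := hT.1 hτ
      rw [hX, Finset.mem_filter] at h1
      exact h1.2
    refine ⟨T, ?_, fun τ hτ => (hXm τ hτ).1, ?_⟩
    · by_contra hcon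
      push Not at hcon
      obtain ⟨τ₀, hτ₀⟩ : T.Nonempty := Finset.card_pos.1 (by omega)
      have h1 : N ≤ (T.erase τ₀).card := by
        rw [Finset.card_erase_of_mem hτ₀]
        omega
      obtain ⟨T', hT', hc⟩ := Finset.exists_subset_card_eq h1
      refine (hXm τ₀ hτ₀).2.1 ?_
      rw [hSp]
      have hm : ∀ i : Fin N, (((T'.equivFinOfCardEq hc).symm i : T') : Ω) ∈ T ∧
          (((T'.equivFinOfCardEq hc).symm i : T') : Ω) ≠ τ₀ := by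
        intro i
        have h2 := hT' ((T'.equivFinOfCardEq hc).symm i).2
        rw [Finset.mem_erase] at h2
        exact ⟨h2.2, h2.1⟩
      refine ⟨fun i => (((T'.equivFinOfCardEq hc).symm i : T') : Ω), fun i => ?_, fun i => ?_,
        fun i j hij => ?_⟩
      · have h2 := hXm _ (hm i).1
        exact ⟨h2.1, by rw [h2.2.2, (hXm τ₀ hτ₀).2.2]⟩
      · exact hT.2 τ₀ hτ₀ _ (hm i).1 (hm i).2.symm
      · refine hT.2 _ (hm i).1 _ (hm j).1 fun h => hij ?_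
        exact (T'.equivFinOfCardEq hc).symm.injective (Subtype.ext h)
    · intro ω hω hs hy
      by_contra hcon
      push Not at hcon
      have hωT : ω ∉ T := by
        intro hmem
        have h1 := hcon ω hmem
        rw [sub_self, abs_zero] at h1
        linarith
      have h1 := hmax (insert ω T) (by
        rw [Finset.mem_filter, Finset.mem_powerset]
        refine ⟨?_, ?_⟩
        · intro τ hτ
          rw [Finset.mem_insert] at hτ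
          rcases hτ with rfl | hτ
          · rw [hX, Finset.mem_filter]
            exact ⟨Finset.mem_univ _, hω, hs, hy⟩
          · exact hT.1 hτ
        · intro τ hτ τ' hτ' hne
          rw [Finset.mem_insert] at hτ hτ'
          rcases hτ with rfl | hτ <;> rcases hτ' with rfl | hτ'
          · exact absurd rfl hne
          · exact hcon τ' hτ'
          · rw [abs_sub_comm]
            exact hcon τ hτ
          · exact hT.2 τ hτ τ' hτ' hne)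
      rw [Finset.card_insert_of_notMem hωT] at h1
      omega
  choose T hT1 hT2 hT3 using key
  refine ⟨fun i y => (T y).toList.getD i (Classical.arbitrary Ω), fun ω hω => ?_⟩
  by_cases hs : Sp ω
  · left
    rw [hSp] at hs
    exact hs
  · right
    obtain ⟨τ, hτ, h1⟩ := hT3 (pt ω) ω hω hs rfl
    have h2 : τ ∈ (T (pt ω)).toList := Finset.mem_toList.2 hτ
    obtain ⟨i, hi, h3⟩ := List.getElem_of_mem h2
    have h4 : i < N := by
      rw [Finset.length_toList] at hi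
      exact hi.trans_le (hT1 _)
    refine ⟨i, h4, ?_⟩
    have h5 : (T (pt ω)).toList.getD i (Classical.arbitrary Ω) = τ := by
      rw [List.getD_eq_getElem _ _ hi, h3]
    show B ((T (pt ω)).toList.getD i (Classical.arbitrary Ω)) ∧
      |v ω - v ((T (pt ω)).toList.getD i (Classical.arbitrary Ω))| < σ
    rw [h5]
    exact ⟨hT2 _ τ hτ, h1⟩

/-- One of `N` events which cover `A` is large. -/
theorem Pe_cover {Ω : Type} [Fintype Ω] {p : Ω → ℝ} (hp : IsLaw p) {A : Ω → Prop} (N : ℕ)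
    {Bi : ℕ → Ω → Prop} {x : ℝ} (h : ∀ ω, A ω → ∃ i < N, Bi i ω) (hx : ∀ i < N, Pe p (Bi i) ≤ x) :
    Pe p A ≤ N * x := by
  classical
  have h1 : Pe p A ≤ ∑ i ∈ range N, Pe p (Bi i) := by
    have e1 : ∑ i ∈ range N, Pe p (Bi i) = ∑ ω, ∑ i ∈ range N, if Bi i ω then p ω else 0 := by
      rw [Finset.sum_comm]
      exact Finset.sum_congr rfl fun i _ => pe_sum p (Bi i)
    rw [e1, pe_sum]
    refine Finset.sum_le_sum fun ω _ => ?_
    have h0 := hp.nonneg ω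
    have h2 : ∀ i ∈ range N, (0 : ℝ) ≤ if Bi i ω then p ω else 0 := fun i _ => by
      split_ifs
      exacts [h0, le_rfl]
    by_cases hA : A ω
    · obtain ⟨i, hi, hB⟩ := h ω hA
      rw [if_pos hA]
      have h3 := Finset.single_le_sum h2 (Finset.mem_range.2 hi)
      rw [if_pos hB] at h3
      exact h3
    · rw [if_neg hA]
      exact Finset.sum_nonneg h2
  refine h1.trans ((Finset.sum_le_sum fun i hi => hx i (Finset.mem_range.1 hi)).trans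
    (le_of_eq ?_))
  rw [Finset.sum_const, Finset.card_range, nsmul_eq_mul]

/-! ### The class theorem -/

/-- **`N + 1` separated lines through the exact point.** -/
theorem sep_cls {θ : ℝ} {S : PCl m} {P : List (Fin m) × Fin m → ℝ → ℝ → ℝ}
    (hP : ThrOf (chsys m θ) S P) (c : ℕ → Fin m) (N : ℕ) (a : ℚ) (e h : ℝ) (ha0 : 0 ≤ a)
    (ha : a ≤ 1) (he : e < θ * a) (hh : 0 < h) (h1 : bet P c 0 a a + h ≤ 1) :
    ∃ δ : ℝ, 0 < δ ∧ Bas S (fun J F A => ∀ (n a₀ e₀ k s V p : ℕ) (g : ℕ → ℕ)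
      (ψ : PtT F → ℕ → Option (Fin m) → ℝ) (ψH : LnT F → ℕ → Option (Fin m) → ℝ),
      0 < n → a₀ ≤ J → a₀ ≤ ⌊(a : ℝ) * J⌋₊ → e₀ + 3 * k + s + 6 ≤ ⌊e * J⌋₊ →
      s + 2 * k + 9 ≤ V → e₀ + g 0 + V ≤ J → p ≤ g 0 + s → p ≤ J →
      ⌊(bet P c 0 a a + h) * J⌋₊ + a₀ ≤ p + ⌊(a : ℝ) * J⌋₊ → ∀ B : F.Ω → Prop, Sub B A →
      FrOK F c n a₀ k e₀ g B ψ ψH → Real.exp (-(δ * J)) * Pe F.p A ≤ Pe F.p B →
      ∃ B' : F.Ω → Prop, Sub B' B ∧ Pe F.p B ≤ 2 * Pe F.p B' ∧ ∀ ω, B' ω →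
        ∃ ν : Fin N → F.Ω, (∀ i, B (ν i) ∧ ptr F J (ν i) = ptr F J ω) ∧
          (∀ i, 1 / 2 ^ (s + 2 * k + 9) ≤ |Xn F c g a₀ ψ ω 1 - Xn F c g a₀ ψ (ν i) 1|) ∧
          ∀ i j, i ≠ j →
            1 / 2 ^ (s + 2 * k + 9) ≤ |Xn F c g a₀ ψ (ν i) 1 - Xn F c g a₀ ψ (ν j) 1|) := by
  classical
  have hc0 : Set.InjOn c (Set.Iio (0 + 1)) := by
    intro x hx y hy _
    simp only [zero_add, Set.mem_Iio, Nat.lt_one_iff] at hx hy
    rw [hx, hy]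
  obtain ⟨δ, hδ, hB⟩ := cl_ev hP c 0 hc0 a e h ha0 ha he hh h1
  have hpos := Pool.VIS24.pos_thr hP c 0 a a e h ha0 le_rfl ha he hh h1
  obtain ⟨J₀, hJ₀⟩ := exists_nat_ge (Real.log (2 * N + 1) / (δ / 2))
  refine ⟨δ / 2, by linarith, Bas.mono (J₀ + 1) (hB.and hpos) ?_⟩
  intro J hJ F A hA n a₀ e₀ k s V p g ψ ψH k1 k2 k3 k4 k5 k6 k8 k9 k10 B hBA hfr hBe
  obtain ⟨hA, hA0⟩ := hA
  have hB0 : 0 < Pe F.p B := (mul_pos (Real.exp_pos _) hA0).trans_le hBe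
  have hne : Nonempty F.Ω := by
    by_contra hcon
    rw [not_nonempty_iff] at hcon
    rw [pe_sum, Finset.univ_eq_empty, Finset.sum_empty] at hB0
    exact lt_irrefl _ hB0
  obtain ⟨σ, hσe⟩ : ∃ σ : ℝ, σ = 1 / 2 ^ (s + 2 * k + 9) := ⟨_, rfl⟩
  have hσ : 0 < σ := by rw [hσe]; positivity
  obtain ⟨v, hv⟩ : ∃ v : F.Ω → ℝ, v = fun ω => Xn F c g a₀ ψ ω 1 := ⟨_, rfl⟩
  obtain ⟨f, hf⟩ := sep_cover (ptr F J) v B hσ N
  obtain ⟨B', hB'⟩ : ∃ B' : F.Ω → Prop, B' = fun ω => B ω ∧ ∃ ν : Fin N → F.Ω,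
      (∀ i, B (ν i) ∧ ptr F J (ν i) = ptr F J ω) ∧ (∀ i, σ ≤ |v ω - v (ν i)|) ∧
        ∀ i j, i ≠ j → σ ≤ |v (ν i) - v (ν j)| := ⟨_, rfl⟩
  obtain ⟨Bi, hBi⟩ : ∃ Bi : ℕ → F.Ω → Prop, Bi = fun i ω => B ω ∧ B (f i (ptr F J ω)) ∧
      |v ω - v (f i (ptr F J ω))| < σ := ⟨_, rfl⟩
  have hBiB : ∀ i, Sub (Bi i) B := fun i ω hω => by
    rw [hBi] at hω
    exact hω.1
  have hsm : ∀ i < N, Pe F.p (Bi i) ≤ Real.exp (-(δ * J)) * Pe F.p A := by
    intro i _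
    have hfr' : FrOK F c n a₀ k e₀ g (Bi i) ψ ψH := ⟨fun ω hω => hfr.cls ω (hBiB i ω hω),
      hfr.dep, hfr.depH, fun ω hω => hfr.nat ω (hBiB i ω hω),
      fun ω hω => hfr.lip ω (hBiB i ω hω)⟩
    refine hA n a₀ e₀ k k s V p g ψ ψH (fun y _ => v (f i y)) (fun _ _ _ => 0) k1 k2 k3
      (by omega) (by omega) (fun j hj => ?_) (fun l hl => absurd hl (Nat.not_lt_zero l)) k8 k9
      k10 (Bi i) (fun ω hω => hBA ω (hBiB i ω hω)) hfr' (fun ω hω j _ => ?_)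
      (fun ω _ j _ l _ => ?_) (fun ω ω' hω hω' hs => ?_)
    · have : j = 0 := by omega
      subst this
      exact k6
    · rw [hBi] at hω
      rw [hv]
      exact Xn_le hfr hω.2.1 k1
    · rw [abs_zero]
      positivity
    · rw [hBi] at hω hω'
      obtain ⟨w1, w2, w3⟩ := hω
      obtain ⟨w1', w2', w3'⟩ := hω'
      have hsam : v ω' = v ω := by
        rw [hv]
        show eta c g a₀ (ψ (ptr F J ω')) ((1 / 2 ^ a₀ : ℝ) • bd F ω') 1 =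
          eta c g a₀ (ψ (ptr F J ω)) ((1 / 2 ^ a₀ : ℝ) • bd F ω) 1
        rw [hfr.cls ω w1, hfr.cls ω' w1', hs, (slam_eq hs).1]
      refine cl_of (ε := 2 * σ) (by linarith) (tu_le k2 hs) (fun j hj => ?_) (fun _ _ _ _ => rfl)
        (fun j _ => ?_) ?_ (fun j _ l _ => ?_) ?_ ?_
      · exact Xn_le hfr w1 (by omega)
      · have e1 : v (f i (ptr F J ω')) - v (f i (ptr F J ω)) - tu F a₀ ω ω' *
            ∑ l ∈ range (0 + 1), (0 : ℝ) * Xn F c g a₀ ψ ω l =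
            (v ω - v (f i (ptr F J ω))) - (v ω' - v (f i (ptr F J ω'))) := by
          rw [Finset.sum_eq_zero (fun l _ => zero_mul _), mul_zero, hsam]
          ring
        show |v (f i (ptr F J ω')) - v (f i (ptr F J ω)) - tu F a₀ ω ω' *
            ∑ l ∈ range (0 + 1), (0 : ℝ) * Xn F c g a₀ ψ ω l| ≤ 2 * σ
        rw [e1]
        refine (abs_sub _ _).trans ?_
        linarith
      · have e1 : Xn F c g a₀ ψ ω (0 + 1) - ln 0 (fun _ => v (f i (ptr F J ω')))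
            (Xn F c g a₀ ψ ω) = v ω' - v (f i (ptr F J ω')) := by
          rw [hsam]
          unfold ln
          rw [zero_add, Finset.sum_range_one, Xn_zero, mul_one, hv]
        rw [e1]
        linarith
      · show |(0 : ℝ) - 0| ≤ 2 * σ
        rw [sub_self, abs_zero]
        linarith
      · have e1 : bl 0 (fun _ _ => (0 : ℝ)) (Xn F c g a₀ ψ ω) (Xn F c g a₀ ψ ω) = 0 := by
          unfold bl
          exact Finset.sum_eq_zero fun j _ => Finset.sum_eq_zero fun l _ => zero_mul _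
        rw [e1, abs_zero]
        linarith
      · rw [hσe]
        have e2 : (2 : ℝ) ^ (2 * (0 + 1) + 2 * k + 6 + s) * 2 = 2 ^ (s + 2 * k + 9) := by
          rw [← pow_succ]
          congr 1
          omega
        have e3 : 2 * (1 / (2 : ℝ) ^ (s + 2 * k + 9)) * 2 ^ (2 * (0 + 1) + 2 * k + 6 + s) =
            (2 ^ (2 * (0 + 1) + 2 * k + 6 + s) * 2) / 2 ^ (s + 2 * k + 9) := by ring
        rw [e3, e2, div_self (by positivity)]
  refine ⟨B', fun ω hω => by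
    rw [hB'] at hω
    exact hω.1, ?_, fun ω hω => ?_⟩
  · have h2 : Pe F.p B ≤ Pe F.p B' + Pe F.p (fun ω => ∃ i < N, Bi i ω) := by
      refine Pe_or F.isLaw fun ω hω => ?_
      rcases hf ω hω with h3 | ⟨i, hi, h3, h4⟩
      · left
        rw [hB']
        exact ⟨hω, h3⟩
      · right
        refine ⟨i, hi, ?_⟩
        rw [hBi]
        exact ⟨hω, h3, h4⟩
    have h3 : Pe F.p (fun ω => ∃ i < N, Bi i ω) ≤ N * (Real.exp (-(δ * J)) * Pe F.p A) :=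
      Pe_cover F.isLaw N (fun _ h => h) hsm
    have hJ0 : (J₀ : ℝ) ≤ J := by exact_mod_cast (by omega : J₀ ≤ J)
    have h5 : Real.log (2 * N + 1) ≤ δ / 2 * J := by
      have h6 := hJ₀.trans hJ0
      rw [div_le_iff₀ (by linarith)] at h6
      linarith
    have hN0 : (0 : ℝ) ≤ N := Nat.cast_nonneg N
    have h6 : (2 * N + 1 : ℝ) ≤ Real.exp (δ / 2 * J) := by
      rw [← Real.exp_log (by linarith : (0 : ℝ) < 2 * N + 1)]
      exact Real.exp_le_exp.2 h5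
    have h7 : (2 * N : ℝ) * (Real.exp (-(δ * J)) * Pe F.p A) ≤ Pe F.p B := by
      refine le_trans ?_ hBe
      have h8 : Real.exp (-(δ / 2 * J)) = Real.exp (δ / 2 * J) * Real.exp (-(δ * J)) := by
        rw [← Real.exp_add]
        congr 1
        ring
      rw [h8, ← mul_assoc]
      refine mul_le_mul_of_nonneg_right ?_ hA0.le
      exact mul_le_mul_of_nonneg_right (by linarith) (Real.exp_pos _).le
    linarith
  · rw [hB'] at hω
    obtain ⟨-, ν, n1, n2, n3⟩ := hω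
    rw [hσe, hv] at n2 n3
    exact ⟨ν, n1, n2, n3⟩

/-- **Three separated lines through the exact point.** -/
theorem tri_cls {θ : ℝ} {S : PCl m} {P : List (Fin m) × Fin m → ℝ → ℝ → ℝ}
    (hP : ThrOf (chsys m θ) S P) (c : ℕ → Fin m) (a : ℚ) (e h : ℝ) (ha0 : 0 ≤ a)
    (ha : a ≤ 1) (he : e < θ * a) (hh : 0 < h) (h1 : bet P c 0 a a + h ≤ 1) :
    ∃ δ : ℝ, 0 < δ ∧ Bas S (fun J F A => ∀ (n a₀ e₀ k s V p : ℕ) (g : ℕ → ℕ)
      (ψ : PtT F → ℕ → Option (Fin m) → ℝ) (ψH : LnT F → ℕ → Option (Fin m) → ℝ),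
      0 < n → a₀ ≤ J → a₀ ≤ ⌊(a : ℝ) * J⌋₊ → e₀ + 3 * k + s + 6 ≤ ⌊e * J⌋₊ →
      s + 2 * k + 9 ≤ V → e₀ + g 0 + V ≤ J → p ≤ g 0 + s → p ≤ J →
      ⌊(bet P c 0 a a + h) * J⌋₊ + a₀ ≤ p + ⌊(a : ℝ) * J⌋₊ → ∀ B : F.Ω → Prop, Sub B A →
      FrOK F c n a₀ k e₀ g B ψ ψH → Real.exp (-(δ * J)) * Pe F.p A ≤ Pe F.p B →
      ∃ B' : F.Ω → Prop, Sub B' B ∧ Pe F.p B ≤ 2 * Pe F.p B' ∧ ∀ ω, B' ω →
        ∃ ν₁ ν₂ : F.Ω, B ν₁ ∧ B ν₂ ∧ ptr F J ν₁ = ptr F J ω ∧ ptr F J ν₂ = ptr F J ω ∧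
          1 / 2 ^ (s + 2 * k + 9) ≤ |Xn F c g a₀ ψ ω 1 - Xn F c g a₀ ψ ν₁ 1| ∧
          1 / 2 ^ (s + 2 * k + 9) ≤ |Xn F c g a₀ ψ ω 1 - Xn F c g a₀ ψ ν₂ 1| ∧
          1 / 2 ^ (s + 2 * k + 9) ≤ |Xn F c g a₀ ψ ν₁ 1 - Xn F c g a₀ ψ ν₂ 1|) := by
  obtain ⟨δ, hδ, hB⟩ := sep_cls hP c 2 a e h ha0 ha he hh h1
  refine ⟨δ, hδ, Bas.mono 0 hB ?_⟩
  intro J _ F A hA n a₀ e₀ k s V p g ψ ψH k1 k2 k3 k4 k5 k6 k8 k9 k10 B hBA hfr hBe
  obtain ⟨B', h2, h3, h4⟩ := hA n a₀ e₀ k s V p g ψ ψH k1 k2 k3 k4 k5 k6 k8 k9 k10 B hBA hfr hBe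
  refine ⟨B', h2, h3, fun ω hω => ?_⟩
  obtain ⟨ν, n1, n2, n3⟩ := h4 ω hω
  exact ⟨ν 0, ν 1, (n1 0).1, (n1 1).1, (n1 0).2, (n1 1).2, n2 0, n2 1, n3 0 1 (by simp)⟩

end Pool.SEP46
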