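import Mathlib.Tactic

/-!
# A symmetric cubic form and an antisymmetric form on a conic

`t3`, `q2`, `l1`: the values of a cubic form, of a bilinear form and of a covector on `ℝ³`.
`cub_om`: if `T (X, X, ·) = G X * (3 Ω (X, ·) - ρ Q (X, ·))` at five points `X` of the conic `Q`, no
three of them collinear, with `T` symmetric, `Ω` antisymmetric, `Q` symmetric and `G` not small,
then `Ω` is small. `cub_zero`: if `T (X, X, ·) = 0` at four points, no three of them collinear, then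
`T` is small.
-/

set_option autoImplicit false

namespace Pool.CUB46

open Finset

/-! ### Algebra -/

/-- The equation of a further point, in the coordinates of three points of the conic. -/
def F1 (a b c g1 g2 g3 o12 o13 ρ t x1 x2 x3 : ℝ) : ℝ :=
  3 * (o12 * x2 * (3 * x1 * g1 + g3 * x3) + o13 * x3 * (3 * x1 * g1 + g2 * x2)) +
    x2 * x3 * (2 * t + ρ * (a * g1 + b * g2 + c * g3))

/-- **The equation of a further point**, expanded. -/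
theorem f1_eq (a b c g1 g2 g3 o12 o13 ρ t x1 x2 x3 T111 T112 T113 T122 T133 d1 : ℝ) :
    (x1 ^ 2 * T111 + 2 * x1 * x2 * T112 + 2 * x1 * x3 * T113 + x2 ^ 2 * T122 + x3 ^ 2 * T133 +
      2 * x2 * x3 * t) - (g1 * x1 + g2 * x2 + g3 * x3) *
        (3 * (-(x2 * o12) - x3 * o13) - ρ * (d1 * x1 + c * x2 + b * x3)) =
      F1 a b c g1 g2 g3 o12 o13 ρ t x1 x2 x3 + x1 ^ 2 * T111 +
        2 * x1 * x2 * (T112 - g1 * (3 * o12 - ρ * c)) +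
        2 * x1 * x3 * (T113 - g1 * (3 * o13 - ρ * b)) +
        x2 ^ 2 * (T122 - g2 * (-(3 * o12) - ρ * c)) +
        x3 ^ 2 * (T133 - g3 * (-(3 * o13) - ρ * b)) -
        ρ * g1 * (a * x2 * x3 + b * x1 * x3 + c * x1 * x2) +
        ρ * (g1 * x1 + g2 * x2 + g3 * x3) * (d1 * x1) := by
  unfold F1
  ring

/-- **Two further points.** -/
theorem f1_two (a b c g1 g2 g3 o12 o13 ρ t x1 x2 x3 y1 y2 y3 : ℝ) :
    F1 a b c g1 g2 g3 o12 o13 ρ t x1 x2 x3 * (y2 * y3) -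
      F1 a b c g1 g2 g3 o12 o13 ρ t y1 y2 y3 * (x2 * x3) =
      9 * g1 * (o13 * (x3 * y3 * (x1 * y2 - x2 * y1)) - o12 * (x2 * y2 * (x3 * y1 - x1 * y3))) := by
  unfold F1
  ring

/-- **The antisymmetric form is small.** -/
theorem om_small {A B C o12 o13 o23 e1 e2 e3 : ℝ} (h1 : o13 * C - o12 * B = e1)
    (h2 : -(o12 * A) - o23 * C = e2) (h3 : o13 * A - o23 * B = e3) :
    2 * (A * B) * o12 = C * e3 - A * e1 - B * e2 ∧ 2 * (A * C) * o13 = C * e3 + A * e1 - B * e2 ∧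
      2 * (B * C) * o23 = A * e1 - B * e2 - C * e3 := by
  subst h1 h2 h3
  refine ⟨by ring, by ring, by ring⟩

/-! ### Forms -/

/-- The value of a cubic form. -/
noncomputable def t3 (T : Fin 3 → Fin 3 → Fin 3 → ℝ) (X Y Z : Fin 3 → ℝ) : ℝ :=
  ∑ i, ∑ j, ∑ k, T i j k * (X i * Y j * Z k)

/-- The value of a bilinear form. -/
noncomputable def q2 (Q : Fin 3 → Fin 3 → ℝ) (X Y : Fin 3 → ℝ) : ℝ :=
  ∑ i, ∑ j, Q i j * (X i * Y j)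

/-- The value of a covector. -/
noncomputable def l1 (G X : Fin 3 → ℝ) : ℝ := ∑ i, G i * X i

/-- The determinant. -/
def d3 (X Y Z : Fin 3 → ℝ) : ℝ :=
  X 0 * (Y 1 * Z 2 - Y 2 * Z 1) - X 1 * (Y 0 * Z 2 - Y 2 * Z 0) + X 2 * (Y 0 * Z 1 - Y 1 * Z 0)

/-- The standard basis. -/
def eb (i : Fin 3) : Fin 3 → ℝ := fun j => if j = i then 1 else 0

theorem t3_swap {T : Fin 3 → Fin 3 → Fin 3 → ℝ} (h1 : ∀ i j k, T i j k = T j i k)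
    (X Y Z : Fin 3 → ℝ) : t3 T X Y Z = t3 T Y X Z := by
  unfold t3
  rw [Finset.sum_comm]
  refine Finset.sum_congr rfl fun i _ => Finset.sum_congr rfl fun j _ =>
    Finset.sum_congr rfl fun k _ => ?_
  rw [h1 j i k]
  ring

theorem t3_swap' {T : Fin 3 → Fin 3 → Fin 3 → ℝ} (h2 : ∀ i j k, T i j k = T i k j)
    (X Y Z : Fin 3 → ℝ) : t3 T X Y Z = t3 T X Z Y := by
  unfold t3
  refine Finset.sum_congr rfl fun i _ => ?_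
  rw [Finset.sum_comm]
  refine Finset.sum_congr rfl fun j _ => Finset.sum_congr rfl fun k _ => ?_
  rw [h2 i k j]
  ring

theorem t3_lin (T : Fin 3 → Fin 3 → Fin 3 → ℝ) (x1 x2 x3 : ℝ) (X1 X2 X3 Y Z : Fin 3 → ℝ) :
    t3 T (fun i => x1 * X1 i + x2 * X2 i + x3 * X3 i) Y Z =
      x1 * t3 T X1 Y Z + x2 * t3 T X2 Y Z + x3 * t3 T X3 Y Z := by
  unfold t3
  simp only [Finset.mul_sum, ← Finset.sum_add_distrib]
  refine Finset.sum_congr rfl fun i _ => Finset.sum_congr rfl fun j _ =>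
    Finset.sum_congr rfl fun k _ => ?_
  ring

theorem q2_lin (Q : Fin 3 → Fin 3 → ℝ) (x1 x2 x3 : ℝ) (X1 X2 X3 Y : Fin 3 → ℝ) :
    q2 Q (fun i => x1 * X1 i + x2 * X2 i + x3 * X3 i) Y =
      x1 * q2 Q X1 Y + x2 * q2 Q X2 Y + x3 * q2 Q X3 Y := by
  unfold q2
  simp only [Finset.mul_sum, ← Finset.sum_add_distrib]
  refine Finset.sum_congr rfl fun i _ => Finset.sum_congr rfl fun j _ => ?_
  ring

theorem l1_lin (G : Fin 3 → ℝ) (x1 x2 x3 : ℝ) (X1 X2 X3 : Fin 3 → ℝ) :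
    l1 G (fun i => x1 * X1 i + x2 * X2 i + x3 * X3 i) =
      x1 * l1 G X1 + x2 * l1 G X2 + x3 * l1 G X3 := by
  unfold l1
  simp only [Finset.mul_sum, ← Finset.sum_add_distrib]
  refine Finset.sum_congr rfl fun i _ => ?_
  ring

/-- A vector in the standard basis, in the last place. -/
theorem t3_eb (T : Fin 3 → Fin 3 → Fin 3 → ℝ) (X Y Z : Fin 3 → ℝ) :
    t3 T X Y Z = ∑ k, Z k * t3 T X Y (eb k) := by
  unfold t3 eb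
  simp only [Fin.sum_univ_three]
  simp
  ring

theorem q2_eb (Q : Fin 3 → Fin 3 → ℝ) (X Y : Fin 3 → ℝ) :
    q2 Q X Y = ∑ k, Y k * q2 Q X (eb k) := by
  unfold q2 eb
  simp only [Fin.sum_univ_three]
  simp
  ring

theorem q2_symm {Q : Fin 3 → Fin 3 → ℝ} (h : ∀ i j, Q i j = Q j i) (X Y : Fin 3 → ℝ) :
    q2 Q X Y = q2 Q Y X := by
  unfold q2
  rw [Finset.sum_comm]
  refine Finset.sum_congr rfl fun i _ => Finset.sum_congr rfl fun j _ => ?_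
  rw [h j i]
  ring

theorem q2_anti {Q : Fin 3 → Fin 3 → ℝ} (h : ∀ i j, Q i j = -Q j i) (X Y : Fin 3 → ℝ) :
    q2 Q X Y = -q2 Q Y X := by
  unfold q2
  rw [Finset.sum_comm, ← Finset.sum_neg_distrib]
  refine Finset.sum_congr rfl fun i _ => ?_
  rw [← Finset.sum_neg_distrib]
  refine Finset.sum_congr rfl fun j _ => ?_
  rw [h j i]
  ring

/-- **Cramer's rule.** -/
theorem cramer (X Y Z W : Fin 3 → ℝ) (i : Fin 3) :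
    d3 X Y Z * W i = d3 W Y Z * X i + d3 X W Z * Y i + d3 X Y W * Z i := by
  unfold d3
  fin_cases i <;> simp <;> ring

/-! ### Expansions -/

theorem t3_quad {T : Fin 3 → Fin 3 → Fin 3 → ℝ} (h1 : ∀ i j k, T i j k = T j i k)
    (x1 x2 x3 : ℝ) (X1 X2 X3 Y : Fin 3 → ℝ) :
    t3 T (fun i => x1 * X1 i + x2 * X2 i + x3 * X3 i)
        (fun i => x1 * X1 i + x2 * X2 i + x3 * X3 i) Y =
      x1 ^ 2 * t3 T X1 X1 Y + x2 ^ 2 * t3 T X2 X2 Y + x3 ^ 2 * t3 T X3 X3 Y +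
        2 * x1 * x2 * t3 T X1 X2 Y + 2 * x1 * x3 * t3 T X1 X3 Y + 2 * x2 * x3 * t3 T X2 X3 Y := by
  rw [t3_lin, t3_swap h1 X1, t3_swap h1 X2, t3_swap h1 X3, t3_lin, t3_lin, t3_lin,
    t3_swap h1 X2 X1, t3_swap h1 X3 X1, t3_swap h1 X3 X2]
  ring

theorem q2_quad {Q : Fin 3 → Fin 3 → ℝ} (h : ∀ i j, Q i j = Q j i) (x1 x2 x3 : ℝ)
    (X1 X2 X3 : Fin 3 → ℝ) :
    q2 Q (fun i => x1 * X1 i + x2 * X2 i + x3 * X3 i)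
        (fun i => x1 * X1 i + x2 * X2 i + x3 * X3 i) =
      x1 ^ 2 * q2 Q X1 X1 + x2 ^ 2 * q2 Q X2 X2 + x3 ^ 2 * q2 Q X3 X3 +
        2 * x1 * x2 * q2 Q X1 X2 + 2 * x1 * x3 * q2 Q X1 X3 + 2 * x2 * x3 * q2 Q X2 X3 := by
  rw [q2_lin, q2_symm h X1, q2_symm h X2, q2_symm h X3, q2_lin, q2_lin, q2_lin,
    q2_symm h X2 X1, q2_symm h X3 X1, q2_symm h X3 X2]
  ring

theorem t3_sc (T : Fin 3 → Fin 3 → Fin 3 → ℝ) (D : ℝ) (W Y : Fin 3 → ℝ) :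
    t3 T (fun i => D * W i) (fun i => D * W i) Y = D ^ 2 * t3 T W W Y := by
  unfold t3
  simp only [Finset.mul_sum]
  refine Finset.sum_congr rfl fun i _ => Finset.sum_congr rfl fun j _ =>
    Finset.sum_congr rfl fun k _ => ?_
  ring

theorem t3_sc3 (T : Fin 3 → Fin 3 → Fin 3 → ℝ) (D : ℝ) (U V W : Fin 3 → ℝ) :
    t3 T (fun i => D * U i) (fun i => D * V i) (fun i => D * W i) = D ^ 3 * t3 T U V W := by
  unfold t3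
  simp only [Finset.mul_sum]
  refine Finset.sum_congr rfl fun i _ => Finset.sum_congr rfl fun j _ =>
    Finset.sum_congr rfl fun k _ => ?_
  ring

theorem q2_sc (Q : Fin 3 → Fin 3 → ℝ) (D : ℝ) (W Y : Fin 3 → ℝ) :
    q2 Q (fun i => D * W i) Y = D * q2 Q W Y := by
  unfold q2
  simp only [Finset.mul_sum]
  refine Finset.sum_congr rfl fun i _ => Finset.sum_congr rfl fun j _ => ?_
  ring

theorem q2_sc2 (Q : Fin 3 → Fin 3 → ℝ) (D : ℝ) (W Y : Fin 3 → ℝ) :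
    q2 Q (fun i => D * W i) (fun i => D * Y i) = D ^ 2 * q2 Q W Y := by
  unfold q2
  simp only [Finset.mul_sum]
  refine Finset.sum_congr rfl fun i _ => Finset.sum_congr rfl fun j _ => ?_
  ring

theorem l1_sc (G : Fin 3 → ℝ) (D : ℝ) (W : Fin 3 → ℝ) :
    l1 G (fun i => D * W i) = D * l1 G W := by
  unfold l1
  simp only [Finset.mul_sum]
  refine Finset.sum_congr rfl fun i _ => ?_
  ring

/-- Cramer's rule for the whole vector. -/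
theorem cramer' (X Y Z W : Fin 3 → ℝ) :
    (fun i => d3 W Y Z * X i + d3 X W Z * Y i + d3 X Y W * Z i) = fun i => d3 X Y Z * W i :=
  funext fun i => (cramer X Y Z W i).symm

/-! ### Bounds -/

theorem mul3_le {x y z a b c : ℝ} (hx : |x| ≤ a) (hy : |y| ≤ b) (hz : |z| ≤ c) :
    |x * (y * z)| ≤ a * (b * c) := by
  have ha := (abs_nonneg x).trans hx
  have hb := (abs_nonneg y).trans hy
  rw [abs_mul, abs_mul]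
  exact mul_le_mul hx (mul_le_mul hy hz (abs_nonneg _) hb)
    (mul_nonneg (abs_nonneg _) (abs_nonneg _)) ha

theorem d3_le {X Y Z : Fin 3 → ℝ} {a b c : ℝ} (hX : ∀ i, |X i| ≤ a) (hY : ∀ i, |Y i| ≤ b)
    (hZ : ∀ i, |Z i| ≤ c) : |d3 X Y Z| ≤ 6 * (a * (b * c)) := by
  have h1 := fun i j k => mul3_le (hX i) (hY j) (hZ k)
  have e1 : d3 X Y Z = X 0 * (Y 1 * Z 2) - X 0 * (Y 2 * Z 1) - X 1 * (Y 0 * Z 2) +
      X 1 * (Y 2 * Z 0) + X 2 * (Y 0 * Z 1) - X 2 * (Y 1 * Z 0) := by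
    unfold d3
    ring
  rw [e1, abs_le]
  have a1 := abs_le.1 (h1 0 1 2)
  have a2 := abs_le.1 (h1 0 2 1)
  have a3 := abs_le.1 (h1 1 0 2)
  have a4 := abs_le.1 (h1 1 2 0)
  have a5 := abs_le.1 (h1 2 0 1)
  have a6 := abs_le.1 (h1 2 1 0)
  constructor <;> linarith [a1.1, a1.2, a2.1, a2.2, a3.1, a3.2, a4.1, a4.2, a5.1, a5.2, a6.1, a6.2]

theorem l1_le {G X : Fin 3 → ℝ} {a b : ℝ} (hG : ∀ i, |G i| ≤ a) (hX : ∀ i, |X i| ≤ b) :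
    |l1 G X| ≤ 3 * (a * b) := by
  have ha : 0 ≤ a := (abs_nonneg _).trans (hG 0)
  have h1 : ∀ i, |G i * X i| ≤ a * b := fun i => by
    rw [abs_mul]
    exact mul_le_mul (hG i) (hX i) (abs_nonneg _) ha
  unfold l1
  refine (Finset.abs_sum_le_sum_abs _ _).trans ((Finset.sum_le_sum fun i _ => h1 i).trans
    (le_of_eq ?_))
  simp

/-- The data at one point of the conic. -/
structure Cpt (T : Fin 3 → Fin 3 → Fin 3 → ℝ) (Q Om : Fin 3 → Fin 3 → ℝ) (G : Fin 3 → ℝ)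
    (ρ K ε : ℝ) (X : Fin 3 → ℝ) : Prop where
  /-- the point is bounded -/
  bd : ∀ i, |X i| ≤ K
  /-- it lies on the conic -/
  nul : |q2 Q X X| ≤ ε
  /-- the equation -/
  eq : ∀ i, |l1 G X * (3 * q2 Om X (eb i) - ρ * q2 Q X (eb i)) - t3 T X X (eb i)| ≤ ε

theorem Cpt.eqY {T : Fin 3 → Fin 3 → Fin 3 → ℝ} {Q Om : Fin 3 → Fin 3 → ℝ} {G : Fin 3 → ℝ}
    {ρ K ε : ℝ} {X Y : Fin 3 → ℝ} (h : Cpt T Q Om G ρ K ε X) (hY : ∀ i, |Y i| ≤ K) :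
    |l1 G X * (3 * q2 Om X Y - ρ * q2 Q X Y) - t3 T X X Y| ≤ 3 * K * ε := by
  have hK : 0 ≤ K := (abs_nonneg _).trans (hY 0)
  have e1 : l1 G X * (3 * q2 Om X Y - ρ * q2 Q X Y) - t3 T X X Y =
      ∑ k, Y k * (l1 G X * (3 * q2 Om X (eb k) - ρ * q2 Q X (eb k)) - t3 T X X (eb k)) := by
    rw [q2_eb Om X Y, q2_eb Q X Y, t3_eb T X X Y]
    simp only [Fin.sum_univ_three]
    ring
  have h1 : ∀ k, |Y k * (l1 G X * (3 * q2 Om X (eb k) - ρ * q2 Q X (eb k)) -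
      t3 T X X (eb k))| ≤ K * ε := fun k => by
    rw [abs_mul]
    exact mul_le_mul (hY k) (h.eq k) (abs_nonneg _) hK
  rw [e1]
  refine (Finset.abs_sum_le_sum_abs _ _).trans ((Finset.sum_le_sum fun k _ => h1 k).trans
    (le_of_eq ?_))
  simp
  ring

/-! ### Three points of the conic as a basis -/

section

variable {T : Fin 3 → Fin 3 → Fin 3 → ℝ} {Q Om : Fin 3 → Fin 3 → ℝ} {G : Fin 3 → ℝ}
  {ρ K ε : ℝ} {Y1 Y2 Y3 : Fin 3 → ℝ}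

/-- **The equation of a further point is small.** -/
theorem f1_bd (hT1 : ∀ i j k, T i j k = T j i k) (hT2 : ∀ i j k, T i j k = T i k j)
    (hQ : ∀ i j, Q i j = Q j i) (hO : ∀ i j, Om i j = -Om j i) (hK : 1 ≤ K)
    (hG : ∀ i, |G i| ≤ K) (hρ : |ρ| ≤ K) (hε : 0 ≤ ε) (h1 : Cpt T Q Om G ρ K ε Y1)
    (h2 : Cpt T Q Om G ρ K ε Y2) (h3 : Cpt T Q Om G ρ K ε Y3) {W : Fin 3 → ℝ}
    (hW : Cpt T Q Om G ρ K ε W) :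
    |F1 (q2 Q Y2 Y3) (q2 Q Y1 Y3) (q2 Q Y1 Y2) (l1 G Y1) (l1 G Y2) (l1 G Y3) (q2 Om Y1 Y2)
      (q2 Om Y1 Y3) ρ (t3 T Y2 Y3 Y1) (d3 W Y2 Y3) (d3 Y1 W Y3) (d3 Y1 Y2 W)| ≤
      1296 * K ^ 9 * ε := by
  obtain ⟨x1, hx1⟩ : ∃ x1, x1 = d3 W Y2 Y3 := ⟨_, rfl⟩
  obtain ⟨x2, hx2⟩ : ∃ x2, x2 = d3 Y1 W Y3 := ⟨_, rfl⟩
  obtain ⟨x3, hx3⟩ : ∃ x3, x3 = d3 Y1 Y2 W := ⟨_, rfl⟩
  obtain ⟨D, hD⟩ : ∃ D, D = d3 Y1 Y2 Y3 := ⟨_, rfl⟩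
  have hv : (fun i => x1 * Y1 i + x2 * Y2 i + x3 * Y3 i) = fun i => D * W i := by
    rw [hx1, hx2, hx3, hD]
    exact cramer' Y1 Y2 Y3 W
  rw [← hx1, ← hx2, ← hx3]
  have hK3 : 6 * (K * (K * K)) = 6 * K ^ 3 := by ring
  have bD : |D| ≤ 6 * K ^ 3 := by
    rw [hD, ← hK3]
    exact d3_le h1.bd h2.bd h3.bd
  have b1 : |x1| ≤ 6 * K ^ 3 := by
    rw [hx1, ← hK3]
    exact d3_le hW.bd h2.bd h3.bd
  have b2 : |x2| ≤ 6 * K ^ 3 := by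
    rw [hx2, ← hK3]
    exact d3_le h1.bd hW.bd h3.bd
  have b3 : |x3| ≤ 6 * K ^ 3 := by
    rw [hx3, ← hK3]
    exact d3_le h1.bd h2.bd hW.bd
  have oo : ∀ X : Fin 3 → ℝ, q2 Om X X = 0 := fun X => by
    have := q2_anti hO X X
    linarith
  -- the equations
  have q1 := h1.eqY h1.bd
  have q2' := h1.eqY h2.bd
  have q3 := h1.eqY h3.bd
  have q4 := h2.eqY h1.bd
  have q5 := h3.eqY h1.bd
  have q6 := hW.eqY h1.bd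
  rw [oo Y1] at q1
  rw [q2_anti hO Y2 Y1, q2_symm hQ Y2 Y1] at q4
  rw [q2_anti hO Y3 Y1, q2_symm hQ Y3 Y1] at q5
  -- the quadratic form
  have eQ : D ^ 2 * q2 Q W W = x1 ^ 2 * q2 Q Y1 Y1 + x2 ^ 2 * q2 Q Y2 Y2 + x3 ^ 2 * q2 Q Y3 Y3 +
      2 * x1 * x2 * q2 Q Y1 Y2 + 2 * x1 * x3 * q2 Q Y1 Y3 + 2 * x2 * x3 * q2 Q Y2 Y3 := by
    rw [← q2_quad hQ, hv, q2_sc2]
  have eT : D ^ 2 * t3 T W W Y1 = x1 ^ 2 * t3 T Y1 Y1 Y1 + x2 ^ 2 * t3 T Y2 Y2 Y1 +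
      x3 ^ 2 * t3 T Y3 Y3 Y1 + 2 * x1 * x2 * t3 T Y1 Y2 Y1 + 2 * x1 * x3 * t3 T Y1 Y3 Y1 +
      2 * x2 * x3 * t3 T Y2 Y3 Y1 := by
    rw [← t3_quad hT1, hv, t3_sc]
  have eG : D * l1 G W = x1 * l1 G Y1 + x2 * l1 G Y2 + x3 * l1 G Y3 := by
    rw [← l1_lin, hv, l1_sc]
  have eO : D * q2 Om W Y1 = x2 * -q2 Om Y1 Y2 + x3 * -q2 Om Y1 Y3 := by
    rw [← q2_sc, ← hv, q2_lin, oo Y1, q2_anti hO Y2 Y1, q2_anti hO Y3 Y1]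
    ring
  have eq1 : D * q2 Q W Y1 = x1 * q2 Q Y1 Y1 + x2 * q2 Q Y1 Y2 + x3 * q2 Q Y1 Y3 := by
    rw [← q2_sc, ← hv, q2_lin, q2_symm hQ Y2 Y1, q2_symm hQ Y3 Y1]
  rw [t3_swap' hT2 Y1 Y2 Y1, t3_swap' hT2 Y1 Y3 Y1] at eT
  have key : F1 (q2 Q Y2 Y3) (q2 Q Y1 Y3) (q2 Q Y1 Y2) (l1 G Y1) (l1 G Y2) (l1 G Y3)
      (q2 Om Y1 Y2) (q2 Om Y1 Y3) ρ (t3 T Y2 Y3 Y1) x1 x2 x3 =
      -(D * D * (l1 G W * (3 * q2 Om W Y1 - ρ * q2 Q W Y1) - t3 T W W Y1)) +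
      x1 * x1 * (l1 G Y1 * (3 * 0 - ρ * q2 Q Y1 Y1) - t3 T Y1 Y1 Y1) +
      x1 * x1 * (l1 G Y1 * ρ * q2 Q Y1 Y1) +
      2 * (x1 * x2 * (l1 G Y1 * (3 * q2 Om Y1 Y2 - ρ * q2 Q Y1 Y2) - t3 T Y1 Y1 Y2)) +
      2 * (x1 * x3 * (l1 G Y1 * (3 * q2 Om Y1 Y3 - ρ * q2 Q Y1 Y3) - t3 T Y1 Y1 Y3)) +
      x2 * x2 * (l1 G Y2 * (3 * -q2 Om Y1 Y2 - ρ * q2 Q Y1 Y2) - t3 T Y2 Y2 Y1) +
      x3 * x3 * (l1 G Y3 * (3 * -q2 Om Y1 Y3 - ρ * q2 Q Y1 Y3) - t3 T Y3 Y3 Y1) +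
      (D * D * (l1 G Y1 * ρ * q2 Q W W) - x1 * x1 * (l1 G Y1 * ρ * q2 Q Y1 Y1) -
        x2 * x2 * (l1 G Y1 * ρ * q2 Q Y2 Y2) - x3 * x3 * (l1 G Y1 * ρ * q2 Q Y3 Y3)) / 2 -
      D * x1 * (l1 G W * ρ * q2 Q Y1 Y1) := by
    unfold F1
    linear_combination (-1) * eT + (-(l1 G Y1 * ρ) / 2) * eQ +
      (3 * (D * q2 Om W Y1) - ρ * (D * q2 Q W Y1) + ρ * x1 * q2 Q Y1 Y1) * eG +
      3 * (x1 * l1 G Y1 + x2 * l1 G Y2 + x3 * l1 G Y3) * eO -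
      ρ * (x1 * l1 G Y1 + x2 * l1 G Y2 + x3 * l1 G Y3) * eq1
  have hK0 : 0 ≤ K := zero_le_one.trans hK
  have hK1 : 0 ≤ 6 * K ^ 3 := by positivity
  have c79 : 6 * K ^ 3 * (6 * K ^ 3) * (3 * K * ε) ≤ 108 * K ^ 9 * ε := by
    have e1 : 6 * K ^ 3 * (6 * K ^ 3) * (3 * K * ε) = 108 * K ^ 7 * ε := by ring
    rw [e1]
    exact mul_le_mul_of_nonneg_right (mul_le_mul_of_nonneg_left
      (pow_le_pow_right₀ hK (by norm_num)) (by norm_num)) hε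
  have c99 : 6 * K ^ 3 * (6 * K ^ 3) * (3 * K ^ 3 * ε) = 108 * K ^ 9 * ε := by ring
  have tR : ∀ x y r : ℝ, |x| ≤ 6 * K ^ 3 → |y| ≤ 6 * K ^ 3 → |r| ≤ 3 * K * ε →
      |x * y * r| ≤ 108 * K ^ 9 * ε := fun x y r hx hy hr => by
    rw [abs_mul, abs_mul]
    exact (mul_le_mul (mul_le_mul hx hy (abs_nonneg _) hK1) hr (abs_nonneg _)
      (mul_nonneg hK1 hK1)).trans c79
  have tS : ∀ x y l q : ℝ, |x| ≤ 6 * K ^ 3 → |y| ≤ 6 * K ^ 3 → |l| ≤ 3 * (K * K) → |q| ≤ ε →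
      |x * y * (l * ρ * q)| ≤ 108 * K ^ 9 * ε := fun x y l q hx hy hl hq => by
    have h4 : |l * ρ * q| ≤ 3 * K ^ 3 * ε := by
      rw [abs_mul, abs_mul]
      refine (mul_le_mul (mul_le_mul hl hρ (abs_nonneg _) (by positivity)) hq (abs_nonneg _)
        (by positivity)).trans (le_of_eq ?_)
      ring
    rw [abs_mul, abs_mul x y, ← c99]
    exact mul_le_mul (mul_le_mul hx hy (abs_nonneg _) hK1) h4 (abs_nonneg _)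
      (mul_nonneg hK1 hK1)
  have g1 := l1_le hG h1.bd
  have gW := l1_le hG hW.bd
  have t1 := abs_le.1 (tR D D _ bD bD q6)
  have t2 := abs_le.1 (tR x1 x1 _ b1 b1 q1)
  have t3' := abs_le.1 (tS x1 x1 _ _ b1 b1 g1 h1.nul)
  have t4 := abs_le.1 (tR x1 x2 _ b1 b2 q2')
  have t5 := abs_le.1 (tR x1 x3 _ b1 b3 q3)
  have t6 := abs_le.1 (tR x2 x2 _ b2 b2 q4)
  have t7 := abs_le.1 (tR x3 x3 _ b3 b3 q5)
  have t8 := abs_le.1 (tS D D _ _ bD bD g1 hW.nul)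
  have t9 := abs_le.1 (tS x2 x2 _ _ b2 b2 g1 h2.nul)
  have t10 := abs_le.1 (tS x3 x3 _ _ b3 b3 g1 h3.nul)
  have t11 := abs_le.1 (tS D x1 _ _ bD b1 gW h1.nul)
  rw [key, abs_le]
  obtain ⟨M, hM⟩ : ∃ M, M = K ^ 9 * ε := ⟨_, rfl⟩
  have e108 : 108 * K ^ 9 * ε = 108 * M := by rw [hM]; ring
  have e1296 : 1296 * K ^ 9 * ε = 1296 * M := by rw [hM]; ring
  rw [e108] at t1 t2 t3' t4 t5 t6 t7 t8 t9 t10 t11
  rw [e1296]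
  constructor
  · linarith only [t1.1, t1.2, t2.1, t2.2, t3'.1, t3'.2, t4.1, t4.2, t5.1, t5.2, t6.1, t6.2,
      t7.1, t7.2, t8.1, t8.2, t9.1, t9.2, t10.1, t10.2, t11.1, t11.2]
  · linarith only [t1.1, t1.2, t2.1, t2.2, t3'.1, t3'.2, t4.1, t4.2, t5.1, t5.2, t6.1, t6.2,
      t7.1, t7.2, t8.1, t8.2, t9.1, t9.2, t10.1, t10.2, t11.1, t11.2]

/-- **Two further points**: the equation with one pivot. -/
theorem piv (hT1 : ∀ i j k, T i j k = T j i k) (hT2 : ∀ i j k, T i j k = T i k j)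
    (hQ : ∀ i j, Q i j = Q j i) (hO : ∀ i j, Om i j = -Om j i) (hK : 1 ≤ K)
    (hG : ∀ i, |G i| ≤ K) (hρ : |ρ| ≤ K) (hε : 0 ≤ ε) (h1 : Cpt T Q Om G ρ K ε Y1)
    (h2 : Cpt T Q Om G ρ K ε Y2) (h3 : Cpt T Q Om G ρ K ε Y3) {P R : Fin 3 → ℝ}
    (hP : Cpt T Q Om G ρ K ε P) (hR : Cpt T Q Om G ρ K ε R) {x1 x2 x3 y1 y2 y3 : ℝ}
    (ex1 : x1 = d3 P Y2 Y3) (ex2 : x2 = d3 Y1 P Y3) (ex3 : x3 = d3 Y1 Y2 P)
    (ey1 : y1 = d3 R Y2 Y3) (ey2 : y2 = d3 Y1 R Y3) (ey3 : y3 = d3 Y1 Y2 R) :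
    |l1 G Y1| * |q2 Om Y1 Y3 * (x3 * y3 * (x1 * y2 - x2 * y1)) -
      q2 Om Y1 Y2 * (x2 * y2 * (x3 * y1 - x1 * y3))| ≤ 10368 * K ^ 15 * ε := by
  have f1 := f1_bd hT1 hT2 hQ hO hK hG hρ hε h1 h2 h3 hP
  have f2 := f1_bd hT1 hT2 hQ hO hK hG hρ hε h1 h2 h3 hR
  rw [← ex1, ← ex2, ← ex3] at f1
  rw [← ey1, ← ey2, ← ey3] at f2
  have hK0 : 0 ≤ K := zero_le_one.trans hK
  have hK1 : 0 ≤ 6 * K ^ 3 := by positivity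
  have hK3 : 6 * (K * (K * K)) = 6 * K ^ 3 := by ring
  have b2 : |x2| ≤ 6 * K ^ 3 := by
    rw [ex2, ← hK3]
    exact d3_le h1.bd hP.bd h3.bd
  have b3 : |x3| ≤ 6 * K ^ 3 := by
    rw [ex3, ← hK3]
    exact d3_le h1.bd h2.bd hP.bd
  have c2 : |y2| ≤ 6 * K ^ 3 := by
    rw [ey2, ← hK3]
    exact d3_le h1.bd hR.bd h3.bd
  have c3 : |y3| ≤ 6 * K ^ 3 := by
    rw [ey3, ← hK3]
    exact d3_le h1.bd h2.bd hR.bd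
  have key := f1_two (q2 Q Y2 Y3) (q2 Q Y1 Y3) (q2 Q Y1 Y2) (l1 G Y1) (l1 G Y2) (l1 G Y3)
    (q2 Om Y1 Y2) (q2 Om Y1 Y3) ρ (t3 T Y2 Y3 Y1) x1 x2 x3 y1 y2 y3
  have s1 : ∀ f x y : ℝ, |f| ≤ 1296 * K ^ 9 * ε → |x| ≤ 6 * K ^ 3 → |y| ≤ 6 * K ^ 3 →
      |f * (x * y)| ≤ 46656 * K ^ 15 * ε := fun f x y hf hx hy => by
    refine (mul3_le hf hx hy).trans (le_of_eq ?_)
    ring
  have s2 := abs_le.1 (s1 _ _ _ f1 c2 c3)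
  have s3 := abs_le.1 (s1 _ _ _ f2 b2 b3)
  have s4 : |9 * l1 G Y1 * (q2 Om Y1 Y3 * (x3 * y3 * (x1 * y2 - x2 * y1)) -
      q2 Om Y1 Y2 * (x2 * y2 * (x3 * y1 - x1 * y3)))| ≤ 93312 * K ^ 15 * ε := by
    rw [← key, abs_le]
    constructor <;> linarith [s2.1, s2.2, s3.1, s3.2]
  rw [abs_mul, abs_mul, abs_of_pos (by norm_num : (0 : ℝ) < 9)] at s4
  nlinarith [s4]

/-- The last step. -/
theorem om_fin {A B o e1 e2 e3 M E δ μ : ℝ} (h : 2 * (A * B) * o = e1 + e2 + e3)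
    (hμ : 0 ≤ μ) (hA : μ ≤ |A|) (hB : μ ≤ |B|) (hδ : 0 ≤ δ) (h1 : δ * |e1| ≤ M * E)
    (h2 : δ * |e2| ≤ M * E) (h3 : δ * |e3| ≤ M * E) : δ * μ ^ 2 * |o| ≤ 3 / 2 * (M * E) := by
  have a1 : 2 * (|A| * |B|) * |o| ≤ |e1| + |e2| + |e3| := by
    have e : 2 * (|A| * |B|) * |o| = |2 * (A * B) * o| := by
      rw [abs_mul, abs_mul, abs_mul, abs_of_pos (by norm_num : (0 : ℝ) < 2)]
    rw [e, h]
    exact (abs_add_le _ _).trans (add_le_add (abs_add_le _ _) le_rfl)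
  have a2 : μ ^ 2 ≤ |A| * |B| := by
    rw [pow_two]
    exact mul_le_mul hA hB hμ (abs_nonneg _)
  have a3 : μ ^ 2 * |o| ≤ |A| * |B| * |o| := mul_le_mul_of_nonneg_right a2 (abs_nonneg _)
  have a4 : 2 * (μ ^ 2 * |o|) ≤ |e1| + |e2| + |e3| := by linarith
  have a5 := mul_le_mul_of_nonneg_left a4 hδ
  linarith

/-- **The antisymmetric form on the basis is small.** -/
theorem core (hT1 : ∀ i j k, T i j k = T j i k) (hT2 : ∀ i j k, T i j k = T i k j)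
    (hQ : ∀ i j, Q i j = Q j i) (hO : ∀ i j, Om i j = -Om j i) (hK : 1 ≤ K)
    (hG : ∀ i, |G i| ≤ K) (hρ : |ρ| ≤ K) (hε : 0 ≤ ε) (h1 : Cpt T Q Om G ρ K ε Y1)
    (h2 : Cpt T Q Om G ρ K ε Y2) (h3 : Cpt T Q Om G ρ K ε Y3) {P R : Fin 3 → ℝ}
    (hP : Cpt T Q Om G ρ K ε P) (hR : Cpt T Q Om G ρ K ε R) {ν δ : ℝ} (hν : 0 ≤ ν) (hδ : 0 ≤ δ)
    (g1 : δ ≤ |l1 G Y1|) (g2 : δ ≤ |l1 G Y2|) (g3 : δ ≤ |l1 G Y3|) (d0 : ν ≤ |d3 Y1 Y2 Y3|)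
    (dx1 : ν ≤ |d3 P Y2 Y3|) (dx2 : ν ≤ |d3 Y1 P Y3|) (dx3 : ν ≤ |d3 Y1 Y2 P|)
    (dy1 : ν ≤ |d3 R Y2 Y3|) (dy2 : ν ≤ |d3 Y1 R Y3|) (dy3 : ν ≤ |d3 Y1 Y2 R|)
    (dz1 : ν ≤ |d3 P R Y1|) (dz2 : ν ≤ |d3 P R Y2|) (dz3 : ν ≤ |d3 P R Y3|) :
    δ * ν ^ 8 * |q2 Om Y1 Y2| ≤ 40310784 * K ^ 27 * ε ∧
      δ * ν ^ 8 * |q2 Om Y1 Y3| ≤ 40310784 * K ^ 27 * ε ∧
      δ * ν ^ 8 * |q2 Om Y2 Y3| ≤ 40310784 * K ^ 27 * ε := by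
  obtain ⟨x1, hx1⟩ : ∃ x1, x1 = d3 P Y2 Y3 := ⟨_, rfl⟩
  obtain ⟨x2, hx2⟩ : ∃ x2, x2 = d3 Y1 P Y3 := ⟨_, rfl⟩
  obtain ⟨x3, hx3⟩ : ∃ x3, x3 = d3 Y1 Y2 P := ⟨_, rfl⟩
  obtain ⟨y1, hy1⟩ : ∃ y1, y1 = d3 R Y2 Y3 := ⟨_, rfl⟩
  obtain ⟨y2, hy2⟩ : ∃ y2, y2 = d3 Y1 R Y3 := ⟨_, rfl⟩
  obtain ⟨y3, hy3⟩ : ∃ y3, y3 = d3 Y1 Y2 R := ⟨_, rfl⟩
  have p1 := piv hT1 hT2 hQ hO hK hG hρ hε h1 h2 h3 hP hR hx1 hx2 hx3 hy1 hy2 hy3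
  have p2 := piv hT1 hT2 hQ hO hK hG hρ hε h2 h3 h1 hP hR (x1 := x2) (x2 := x3) (x3 := x1)
    (y1 := y2) (y2 := y3) (y3 := y1) (by rw [hx2]; unfold d3; ring)
    (by rw [hx3]; unfold d3; ring) (by rw [hx1]; unfold d3; ring) (by rw [hy2]; unfold d3; ring)
    (by rw [hy3]; unfold d3; ring) (by rw [hy1]; unfold d3; ring)
  have p3 := piv hT1 hT2 hQ hO hK hG hρ hε h3 h1 h2 hP hR (x1 := x3) (x2 := x1) (x3 := x2)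
    (y1 := y3) (y2 := y1) (y3 := y2) (by rw [hx3]; unfold d3; ring)
    (by rw [hx1]; unfold d3; ring) (by rw [hx2]; unfold d3; ring) (by rw [hy3]; unfold d3; ring)
    (by rw [hy1]; unfold d3; ring) (by rw [hy2]; unfold d3; ring)
  have w1 : x2 * y3 - x3 * y2 = d3 Y1 Y2 Y3 * d3 P R Y1 := by
    rw [hx2, hx3, hy2, hy3]
    unfold d3
    ring
  have w2 : x3 * y1 - x1 * y3 = d3 Y1 Y2 Y3 * d3 P R Y2 := by
    rw [hx3, hx1, hy3, hy1]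
    unfold d3
    ring
  have w3 : x1 * y2 - x2 * y1 = d3 Y1 Y2 Y3 * d3 P R Y3 := by
    rw [hx1, hx2, hy1, hy2]
    unfold d3
    ring
  have hK0 : 0 ≤ K := zero_le_one.trans hK
  have hK1 : 0 ≤ 6 * K ^ 3 := by positivity
  have hK3 : 6 * (K * (K * K)) = 6 * K ^ 3 := by ring
  have bd : ∀ X Y Z : Fin 3 → ℝ, (∀ i, |X i| ≤ K) → (∀ i, |Y i| ≤ K) → (∀ i, |Z i| ≤ K) →
      |d3 X Y Z| ≤ 6 * K ^ 3 := fun X Y Z hX hY hZ => by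
    rw [← hK3]
    exact d3_le hX hY hZ
  rw [← hx1] at dx1
  rw [← hx2] at dx2
  rw [← hx3] at dx3
  rw [← hy1] at dy1
  rw [← hy2] at dy2
  rw [← hy3] at dy3
  have bx1 : |x1| ≤ 6 * K ^ 3 := hx1 ▸ bd _ _ _ hP.bd h2.bd h3.bd
  have bx2 : |x2| ≤ 6 * K ^ 3 := hx2 ▸ bd _ _ _ h1.bd hP.bd h3.bd
  have bx3 : |x3| ≤ 6 * K ^ 3 := hx3 ▸ bd _ _ _ h1.bd h2.bd hP.bd
  have by1 : |y1| ≤ 6 * K ^ 3 := hy1 ▸ bd _ _ _ hR.bd h2.bd h3.bd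
  have by2 : |y2| ≤ 6 * K ^ 3 := hy2 ▸ bd _ _ _ h1.bd hR.bd h3.bd
  have by3 : |y3| ≤ 6 * K ^ 3 := hy3 ▸ bd _ _ _ h1.bd h2.bd hR.bd
  obtain ⟨A, hA⟩ : ∃ A, A = x1 * y1 * (x2 * y3 - x3 * y2) := ⟨_, rfl⟩
  obtain ⟨B, hB⟩ : ∃ B, B = x2 * y2 * (x3 * y1 - x1 * y3) := ⟨_, rfl⟩
  obtain ⟨C, hC⟩ : ∃ C, C = x3 * y3 * (x1 * y2 - x2 * y1) := ⟨_, rfl⟩
  rw [← hC, ← hB] at p1
  rw [← hA, ← hC] at p2
  rw [← hB, ← hA] at p3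
  have lo : ∀ x y w d z : ℝ, w = d * z → ν ≤ |x| → ν ≤ |y| → ν ≤ |d| → ν ≤ |z| →
      ν ^ 4 ≤ |x * y * w| := fun x y w d z hw hx hy hd hz => by
    rw [hw, abs_mul, abs_mul, abs_mul]
    have e : ν ^ 4 = ν * ν * (ν * ν) := by ring
    rw [e]
    exact mul_le_mul (mul_le_mul hx hy hν (abs_nonneg _)) (mul_le_mul hd hz hν (abs_nonneg _))
      (mul_nonneg hν hν) (mul_nonneg (abs_nonneg _) (abs_nonneg _))
  have up : ∀ x y w d z : ℝ, w = d * z → |x| ≤ 6 * K ^ 3 → |y| ≤ 6 * K ^ 3 → |d| ≤ 6 * K ^ 3 →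
      |z| ≤ 6 * K ^ 3 → |x * y * w| ≤ 2592 * K ^ 12 := fun x y w d z hw hx hy hd hz => by
    rw [hw, abs_mul, abs_mul, abs_mul]
    refine (mul_le_mul (mul_le_mul hx hy (abs_nonneg _) hK1) (mul_le_mul hd hz (abs_nonneg _)
      hK1) (mul_nonneg (abs_nonneg _) (abs_nonneg _)) (mul_nonneg hK1 hK1)).trans ?_
    have e : 6 * K ^ 3 * (6 * K ^ 3) * (6 * K ^ 3 * (6 * K ^ 3)) = 1296 * K ^ 12 := by ring
    rw [e]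
    have : 0 ≤ K ^ 12 := by positivity
    linarith
  have b0 := bd _ _ _ h1.bd h2.bd h3.bd
  have lA : ν ^ 4 ≤ |A| := hA ▸ lo _ _ _ _ _ w1 dx1 dy1 d0 dz1
  have lB : ν ^ 4 ≤ |B| := hB ▸ lo _ _ _ _ _ w2 dx2 dy2 d0 dz2
  have lC : ν ^ 4 ≤ |C| := hC ▸ lo _ _ _ _ _ w3 dx3 dy3 d0 dz3
  have uA : |A| ≤ 2592 * K ^ 12 := hA ▸ up _ _ _ _ _ w1 bx1 by1 b0 (bd _ _ _ hP.bd hR.bd h1.bd)
  have uB : |B| ≤ 2592 * K ^ 12 := hB ▸ up _ _ _ _ _ w2 bx2 by2 b0 (bd _ _ _ hP.bd hR.bd h2.bd)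
  have uC : |C| ≤ 2592 * K ^ 12 := hC ▸ up _ _ _ _ _ w3 bx3 by3 b0 (bd _ _ _ hP.bd hR.bd h3.bd)
  rw [q2_anti hO Y2 Y1] at p2
  rw [q2_anti hO Y3 Y2, q2_anti hO Y3 Y1] at p3
  obtain ⟨e1, he1⟩ : ∃ e1, q2 Om Y1 Y3 * C - q2 Om Y1 Y2 * B = e1 := ⟨_, rfl⟩
  obtain ⟨e2, he2⟩ : ∃ e2, -(q2 Om Y1 Y2 * A) - q2 Om Y2 Y3 * C = e2 := ⟨_, rfl⟩
  obtain ⟨e3, he3⟩ : ∃ e3, q2 Om Y1 Y3 * A - q2 Om Y2 Y3 * B = e3 := ⟨_, rfl⟩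
  rw [he1] at p1
  rw [neg_mul, he2] at p2
  have he3' : -q2 Om Y2 Y3 * B - -q2 Om Y1 Y3 * A = e3 := by rw [← he3]; ring
  rw [he3'] at p3
  obtain ⟨o1, o2, o3⟩ := om_small he1 he2 he3
  have bE : ∀ g e : ℝ, δ ≤ |g| → |g| * |e| ≤ 10368 * K ^ 15 * ε →
      δ * |e| ≤ 10368 * K ^ 15 * ε := fun g e h h' =>
    (mul_le_mul_of_nonneg_right h (abs_nonneg _)).trans h'
  have q1 := bE _ _ g1 p1
  have q2' := bE _ _ g2 p2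
  have q3 := bE _ _ g3 p3
  have bM : ∀ x e : ℝ, |x| ≤ 2592 * K ^ 12 → δ * |e| ≤ 10368 * K ^ 15 * ε →
      δ * |x * e| ≤ 2592 * K ^ 12 * (10368 * K ^ 15 * ε) := fun x e hx he => by
    have e0 : δ * |x * e| = |x| * (δ * |e|) := by rw [abs_mul]; ring
    rw [e0]
    exact mul_le_mul hx he (mul_nonneg hδ (abs_nonneg _)) (by positivity)
  have bM' : ∀ x e : ℝ, |x| ≤ 2592 * K ^ 12 → δ * |e| ≤ 10368 * K ^ 15 * ε →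
      δ * |-(x * e)| ≤ 2592 * K ^ 12 * (10368 * K ^ 15 * ε) := fun x e hx he => by
    rw [abs_neg]
    exact bM x e hx he
  have hν4 : 0 ≤ ν ^ 4 := by positivity
  have ev : (ν ^ 4) ^ 2 = ν ^ 8 := by ring
  have eK : 3 / 2 * (2592 * K ^ 12 * (10368 * K ^ 15 * ε)) = 40310784 * K ^ 27 * ε := by ring
  refine ⟨?_, ?_, ?_⟩
  · have := om_fin (o := q2 Om Y1 Y2) (A := A) (B := B) (e1 := C * e3) (e2 := -(A * e1))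
      (e3 := -(B * e2)) (by rw [o1]; ring) hν4 lA lB hδ (bM _ _ uC q3) (bM' _ _ uA q1)
      (bM' _ _ uB q2')
    rwa [ev, eK] at this
  · have := om_fin (o := q2 Om Y1 Y3) (A := A) (B := C) (e1 := C * e3) (e2 := A * e1)
      (e3 := -(B * e2)) (by rw [o2]; ring) hν4 lA lC hδ (bM _ _ uC q3) (bM _ _ uA q1)
      (bM' _ _ uB q2')
    rwa [ev, eK] at this
  · have := om_fin (o := q2 Om Y2 Y3) (A := B) (B := C) (e1 := A * e1) (e2 := -(B * e2))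
      (e3 := -(C * e3)) (by rw [o3]; ring) hν4 lB lC hδ (bM _ _ uA q1) (bM' _ _ uB q2')
      (bM' _ _ uC q3)
    rwa [ev, eK] at this

end

/-! ### Five points of the conic -/

theorem five {p : Fin 5 → Prop} (h : ∀ r s t, r ≠ s → r ≠ t → s ≠ t → p r ∨ p s ∨ p t) :
    ∃ a b c d e : Fin 5, (p a ∧ p b ∧ p c) ∧ (a ≠ b ∧ a ≠ c ∧ b ≠ c) ∧
      (a ≠ d ∧ b ≠ d ∧ c ≠ d) ∧ (a ≠ e ∧ b ≠ e ∧ c ≠ e) ∧ d ≠ e := by
  classical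
  have h1 : 3 ≤ (Finset.univ.filter p).card := by
    by_contra hcon
    push Not at hcon
    have h2 : (Finset.univ.filter p).card + (Finset.univ.filter fun x => ¬ p x).card = 5 := by
      rw [Finset.card_filter_add_card_filter_not]
      simp
    obtain ⟨T, hT, hc⟩ := Finset.exists_subset_card_eq
      (show 3 ≤ (Finset.univ.filter fun x => ¬ p x).card by omega)
    obtain ⟨r, s, t, h3, h4, h5, h6⟩ := Finset.card_eq_three.1 hc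
    have hm : ∀ x ∈ T, ¬ p x := fun x hx => (Finset.mem_filter.1 (hT hx)).2
    rw [h6] at hm
    rcases h r s t h3 h4 h5 with h7 | h7 | h7
    · exact hm r (by simp) h7
    · exact hm s (by simp) h7
    · exact hm t (by simp) h7
  obtain ⟨T, hT, hc⟩ := Finset.exists_subset_card_eq h1
  obtain ⟨a, b, c, h3, h4, h5, h6⟩ := Finset.card_eq_three.1 hc
  have hc2 : Tᶜ.card = 2 := by
    rw [Finset.card_compl, hc]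
    simp
  obtain ⟨d, e, h7, h8⟩ := Finset.card_eq_two.1 hc2
  have hm : ∀ x ∈ T, p x := fun x hx => (Finset.mem_filter.1 (hT hx)).2
  have hd : d ∉ T := Finset.mem_compl.1 (by rw [h8]; simp)
  have he : e ∉ T := Finset.mem_compl.1 (by rw [h8]; simp)
  rw [h6] at hm hd he
  simp only [Finset.mem_insert, Finset.mem_singleton, not_or] at hd he
  exact ⟨a, b, c, d, e, ⟨hm a (by simp), hm b (by simp), hm c (by simp)⟩, ⟨h3, h4, h5⟩,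
    ⟨Ne.symm hd.1, Ne.symm hd.2.1, Ne.symm hd.2.2⟩, ⟨Ne.symm he.1, Ne.symm he.2.1,
    Ne.symm he.2.2⟩, h7⟩

theorem eb_le (i j : Fin 3) : |eb i j| ≤ 1 := by
  unfold eb
  split_ifs <;> simp

theorem l1_ebb (G : Fin 3 → ℝ) (i : Fin 3) : l1 G (eb i) = G i := by
  unfold l1 eb
  simp

theorem q2_ebb (Q : Fin 3 → Fin 3 → ℝ) (i j : Fin 3) : q2 Q (eb i) (eb j) = Q i j := by
  unfold q2 eb
  fin_cases i <;> fin_cases j <;> simp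

theorem t3_ebb (T : Fin 3 → Fin 3 → Fin 3 → ℝ) (i j k : Fin 3) :
    t3 T (eb i) (eb j) (eb k) = T i j k := by
  unfold t3 eb
  fin_cases i <;> fin_cases j <;> fin_cases k <;> simp

theorem q2_aq {Q : Fin 3 → Fin 3 → ℝ} (h : ∀ i j, Q i j = -Q j i) (x1 x2 x3 y1 y2 y3 : ℝ)
    (X1 X2 X3 : Fin 3 → ℝ) :
    q2 Q (fun i => x1 * X1 i + x2 * X2 i + x3 * X3 i)
        (fun i => y1 * X1 i + y2 * X2 i + y3 * X3 i) =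
      (x1 * y2 - x2 * y1) * q2 Q X1 X2 + (x1 * y3 - x3 * y1) * q2 Q X1 X3 +
        (x2 * y3 - x3 * y2) * q2 Q X2 X3 := by
  have oo : ∀ X : Fin 3 → ℝ, q2 Q X X = 0 := fun X => by
    have := q2_anti h X X
    linarith
  rw [q2_lin, q2_anti h X1, q2_anti h X2, q2_anti h X3, q2_lin, q2_lin, q2_lin,
    oo X1, oo X2, oo X3, q2_anti h X2 X1, q2_anti h X3 X1, q2_anti h X3 X2]
  ring

/-- **The antisymmetric form is small.** -/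
theorem cub_om {T : Fin 3 → Fin 3 → Fin 3 → ℝ} {Q Om : Fin 3 → Fin 3 → ℝ} {G : Fin 3 → ℝ}
    {ρ K ε : ℝ} (hT1 : ∀ i j k, T i j k = T j i k) (hT2 : ∀ i j k, T i j k = T i k j)
    (hQ : ∀ i j, Q i j = Q j i) (hO : ∀ i j, Om i j = -Om j i) (hK : 1 ≤ K)
    (hG : ∀ i, |G i| ≤ K) (hρ : |ρ| ≤ K) (hε : 0 ≤ ε) {ν g₀ : ℝ} (hν : 0 < ν) (hg0 : 0 < g₀)
    (X : Fin 5 → Fin 3 → ℝ) (hX : ∀ r, Cpt T Q Om G ρ K ε (X r))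
    (hd : ∀ r s t, r ≠ s → r ≠ t → s ≠ t → ν ≤ |d3 (X r) (X s) (X t)|) {i₀ : Fin 3}
    (hg : g₀ ≤ |G i₀|) (i j : Fin 3) : g₀ * ν ^ 11 * |Om i j| ≤ 2 ^ 38 * K ^ 33 * ε := by
  have hK0 : 0 < K := zero_lt_one.trans_le hK
  obtain ⟨δ, hδe⟩ : ∃ δ, δ = ν * g₀ / (18 * K ^ 2) := ⟨_, rfl⟩
  have hδ : 0 < δ := by rw [hδe]; positivity
  have hm : ∀ (i : Fin 3) (Y Z : Fin 3 → ℝ), (∀ i, |Y i| ≤ K) → (∀ i, |Z i| ≤ K) →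
      |d3 (eb i) Y Z| ≤ 6 * K ^ 2 ∧ |d3 Y (eb i) Z| ≤ 6 * K ^ 2 ∧
        |d3 Y Z (eb i)| ≤ 6 * K ^ 2 := fun i Y Z hY hZ => by
    refine ⟨(d3_le (eb_le i) hY hZ).trans (le_of_eq (by ring)),
      (d3_le hY (eb_le i) hZ).trans (le_of_eq (by ring)),
      (d3_le hY hZ (eb_le i)).trans (le_of_eq (by ring))⟩
  obtain ⟨a, b, c, d, e, ⟨pa, pb, pc⟩, ⟨ab, ac, bc⟩, ⟨ad, bd, cd⟩, ⟨ae, be, ce⟩, de⟩ :=
    five (p := fun r => δ ≤ |l1 G (X r)|) (by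
      intro r s t hrs hrt hst
      by_contra hcon
      push Not at hcon
      obtain ⟨h1, h2, h3⟩ := hcon
      have e1 : d3 (X r) (X s) (X t) * G i₀ = d3 (eb i₀) (X s) (X t) * l1 G (X r) +
          d3 (X r) (eb i₀) (X t) * l1 G (X s) + d3 (X r) (X s) (eb i₀) * l1 G (X t) := by
        rw [← l1_lin, cramer', l1_sc, l1_ebb]
      have m1 := (hm i₀ _ _ (hX s).bd (hX t).bd).1
      have m2 := (hm i₀ _ _ (hX r).bd (hX t).bd).2.1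
      have m3 := (hm i₀ _ _ (hX r).bd (hX s).bd).2.2
      have e2 : ν * g₀ ≤ |d3 (X r) (X s) (X t)| * |G i₀| :=
        mul_le_mul (hd r s t hrs hrt hst) hg hg0.le (abs_nonneg _)
      rw [← abs_mul, e1] at e2
      have n1 : |d3 (eb i₀) (X s) (X t) * l1 G (X r)| ≤ 6 * K ^ 2 * |l1 G (X r)| := by
        rw [abs_mul]
        exact mul_le_mul_of_nonneg_right m1 (abs_nonneg _)
      have n2 : |d3 (X r) (eb i₀) (X t) * l1 G (X s)| ≤ 6 * K ^ 2 * |l1 G (X s)| := by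
        rw [abs_mul]
        exact mul_le_mul_of_nonneg_right m2 (abs_nonneg _)
      have n3 : |d3 (X r) (X s) (eb i₀) * l1 G (X t)| ≤ 6 * K ^ 2 * |l1 G (X t)| := by
        rw [abs_mul]
        exact mul_le_mul_of_nonneg_right m3 (abs_nonneg _)
      have n4 := (abs_add_le (d3 (eb i₀) (X s) (X t) * l1 G (X r) +
        d3 (X r) (eb i₀) (X t) * l1 G (X s)) (d3 (X r) (X s) (eb i₀) * l1 G (X t))).trans
        (add_le_add (abs_add_le _ _) le_rfl)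
      have hK2 : 0 < 6 * K ^ 2 := by positivity
      have n5 : 6 * K ^ 2 * (|l1 G (X r)| + |l1 G (X s)| + |l1 G (X t)|) <
          6 * K ^ 2 * (3 * δ) := mul_lt_mul_of_pos_left (by linarith) hK2
      have n6 : 6 * K ^ 2 * (3 * δ) = ν * g₀ := by
        rw [hδe]
        field_simp
        ring
      linarith)
  have hh := core hT1 hT2 hQ hO hK hG hρ hε (hX a) (hX b) (hX c) (hX d) (hX e) hν.le hδ.le pa pb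
    pc (hd a b c ab ac bc) (hd d b c bd.symm cd.symm bc) (hd a d c ad ac cd.symm)
    (hd a b d ab ad bd) (hd e b c be.symm ce.symm bc) (hd a e c ae ac ce.symm)
    (hd a b e ab ae be) (hd d e a de ad.symm ae.symm) (hd d e b de bd.symm be.symm)
    (hd d e c de cd.symm ce.symm)
  obtain ⟨o1, o2, o3⟩ := hh
  have m1 := fun i => (hm i _ _ (hX b).bd (hX c).bd).1
  have m2 := fun i => (hm i _ _ (hX a).bd (hX c).bd).2.1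
  have m3 := fun i => (hm i _ _ (hX a).bd (hX b).bd).2.2
  have e1 : d3 (X a) (X b) (X c) ^ 2 * Om i j =
      (d3 (eb i) (X b) (X c) * d3 (X a) (eb j) (X c) - d3 (X a) (eb i) (X c) *
        d3 (eb j) (X b) (X c)) * q2 Om (X a) (X b) +
      (d3 (eb i) (X b) (X c) * d3 (X a) (X b) (eb j) - d3 (X a) (X b) (eb i) *
        d3 (eb j) (X b) (X c)) * q2 Om (X a) (X c) +
      (d3 (X a) (eb i) (X c) * d3 (X a) (X b) (eb j) - d3 (X a) (X b) (eb i) *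
        d3 (X a) (eb j) (X c)) * q2 Om (X b) (X c) := by
    rw [← q2_aq hO, cramer', cramer', q2_sc2, q2_ebb]
  have hK4 : 0 ≤ 6 * K ^ 2 := by positivity
  have mm : ∀ x y z w o : ℝ, |x| ≤ 6 * K ^ 2 → |y| ≤ 6 * K ^ 2 → |z| ≤ 6 * K ^ 2 →
      |w| ≤ 6 * K ^ 2 → |(x * y - z * w) * o| ≤ 72 * K ^ 4 * |o| := fun x y z w o hx hy hz hw => by
    rw [abs_mul]
    refine mul_le_mul_of_nonneg_right ?_ (abs_nonneg _)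
    refine (abs_sub _ _).trans ?_
    rw [abs_mul, abs_mul]
    have r1 := mul_le_mul hx hy (abs_nonneg _) hK4
    have r2 := mul_le_mul hz hw (abs_nonneg _) hK4
    have r3 : 6 * K ^ 2 * (6 * K ^ 2) = 36 * K ^ 4 := by ring
    rw [r3] at r1 r2
    linarith
  have e2 : d3 (X a) (X b) (X c) ^ 2 * |Om i j| ≤ 72 * K ^ 4 *
      (|q2 Om (X a) (X b)| + |q2 Om (X a) (X c)| + |q2 Om (X b) (X c)|) := by
    have e3 : d3 (X a) (X b) (X c) ^ 2 * |Om i j| = |d3 (X a) (X b) (X c) ^ 2 * Om i j| := by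
      rw [abs_mul, abs_of_nonneg (sq_nonneg (d3 (X a) (X b) (X c)))]
    rw [e3, e1]
    refine (abs_add_le _ _).trans ((add_le_add (abs_add_le _ _) le_rfl).trans ?_)
    have r1 := mm _ _ _ _ (q2 Om (X a) (X b)) (m1 i) (m2 j) (m2 i) (m1 j)
    have r2 := mm _ _ _ _ (q2 Om (X a) (X c)) (m1 i) (m3 j) (m3 i) (m1 j)
    have r3 := mm _ _ _ _ (q2 Om (X b) (X c)) (m2 i) (m3 j) (m3 i) (m2 j)
    linarith
  have e3 : ν ^ 2 ≤ d3 (X a) (X b) (X c) ^ 2 := by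
    rw [← sq_abs (d3 (X a) (X b) (X c))]
    exact pow_le_pow_left₀ hν.le (hd a b c ab ac bc) 2
  have e4 : ν ^ 2 * |Om i j| ≤ 72 * K ^ 4 *
      (|q2 Om (X a) (X b)| + |q2 Om (X a) (X c)| + |q2 Om (X b) (X c)|) :=
    (mul_le_mul_of_nonneg_right e3 (abs_nonneg _)).trans e2
  have hδν : 0 ≤ δ * ν ^ 8 := by positivity
  have e5 := mul_le_mul_of_nonneg_left e4 hδν
  have e6 : δ * ν ^ 8 * (72 * K ^ 4 * (|q2 Om (X a) (X b)| + |q2 Om (X a) (X c)| +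
      |q2 Om (X b) (X c)|)) ≤ 8707129344 * K ^ 31 * ε := by
    have r1 : δ * ν ^ 8 * (72 * K ^ 4 * (|q2 Om (X a) (X b)| + |q2 Om (X a) (X c)| +
        |q2 Om (X b) (X c)|)) = 72 * K ^ 4 * (δ * ν ^ 8 * |q2 Om (X a) (X b)| +
        δ * ν ^ 8 * |q2 Om (X a) (X c)| + δ * ν ^ 8 * |q2 Om (X b) (X c)|) := by ring
    rw [r1]
    refine (mul_le_mul_of_nonneg_left (add_le_add (add_le_add o1 o2) o3)
      (by positivity)).trans (le_of_eq ?_)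
    ring
  have e7 : g₀ * ν ^ 11 * |Om i j| = 18 * K ^ 2 * (δ * ν ^ 8 * (ν ^ 2 * |Om i j|)) := by
    rw [hδe]
    field_simp
  rw [e7]
  refine (mul_le_mul_of_nonneg_left (e5.trans e6) (by positivity)).trans ?_
  have e8 : 18 * K ^ 2 * (8707129344 * K ^ 31 * ε) = 156728328192 * (K ^ 33 * ε) := by ring
  have e9 : 0 ≤ K ^ 33 * ε := by positivity
  rw [e8, mul_assoc (2 ^ 38 : ℝ)]
  refine mul_le_mul_of_nonneg_right ?_ e9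
  norm_num

/-! ### Four points and a cubic form -/

theorem t3_lin2 {T : Fin 3 → Fin 3 → Fin 3 → ℝ} (h1 : ∀ i j k, T i j k = T j i k)
    (x1 x2 x3 : ℝ) (X1 X2 X3 Y Z : Fin 3 → ℝ) :
    t3 T Y (fun i => x1 * X1 i + x2 * X2 i + x3 * X3 i) Z =
      x1 * t3 T Y X1 Z + x2 * t3 T Y X2 Z + x3 * t3 T Y X3 Z := by
  rw [t3_swap h1, t3_lin, t3_swap h1 X1, t3_swap h1 X2, t3_swap h1 X3]

theorem t3_lin3 {T : Fin 3 → Fin 3 → Fin 3 → ℝ} (h1 : ∀ i j k, T i j k = T j i k)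
    (h2 : ∀ i j k, T i j k = T i k j) (x1 x2 x3 : ℝ) (X1 X2 X3 Y Z : Fin 3 → ℝ) :
    t3 T Y Z (fun i => x1 * X1 i + x2 * X2 i + x3 * X3 i) =
      x1 * t3 T Y Z X1 + x2 * t3 T Y Z X2 + x3 * t3 T Y Z X3 := by
  rw [t3_swap' h2, t3_lin2 h1, t3_swap' h2 Y X1, t3_swap' h2 Y X2, t3_swap' h2 Y X3]

/-- **A cubic form which vanishes at four points in general position.** -/
theorem cub_zero {T : Fin 3 → Fin 3 → Fin 3 → ℝ} {K ε ν : ℝ} (hT1 : ∀ i j k, T i j k = T j i k)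
    (hT2 : ∀ i j k, T i j k = T i k j) (hK : 1 ≤ K) (hε : 0 ≤ ε) (hν : 0 < ν)
    (X : Fin 4 → Fin 3 → ℝ) (hX : ∀ r i, |X r i| ≤ K)
    (hd : ∀ r s t, r ≠ s → r ≠ t → s ≠ t → ν ≤ |d3 (X r) (X s) (X t)|)
    (hT : ∀ r i, |t3 T (X r) (X r) (eb i)| ≤ ε) (i j k : Fin 3) :
    ν ^ 5 * |T i j k| ≤ 2519424 * K ^ 13 * ε := by
  have hK0 : 0 ≤ K := zero_le_one.trans hK
  have hK1 : 0 ≤ 6 * K ^ 3 := by positivity
  have hK3 : 6 * (K * (K * K)) = 6 * K ^ 3 := by ring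
  have bd : ∀ X Y Z : Fin 3 → ℝ, (∀ i, |X i| ≤ K) → (∀ i, |Y i| ≤ K) → (∀ i, |Z i| ≤ K) →
      |d3 X Y Z| ≤ 6 * K ^ 3 := fun X Y Z hX hY hZ => by
    rw [← hK3]
    exact d3_le hX hY hZ
  have hTY : ∀ r (Y : Fin 3 → ℝ), (∀ i, |Y i| ≤ K) → |t3 T (X r) (X r) Y| ≤ 3 * K * ε := by
    intro r Y hY
    have h1 : ∀ k, |Y k * t3 T (X r) (X r) (eb k)| ≤ K * ε := fun k => by
      rw [abs_mul]
      exact mul_le_mul (hY k) (hT r k) (abs_nonneg _) hK0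
    rw [t3_eb]
    refine (Finset.abs_sum_le_sum_abs _ _).trans ((Finset.sum_le_sum fun k _ => h1 k).trans
      (le_of_eq ?_))
    simp
    ring
  obtain ⟨Y1, hY1⟩ : ∃ Y, Y = X 0 := ⟨_, rfl⟩
  obtain ⟨Y2, hY2⟩ : ∃ Y, Y = X 1 := ⟨_, rfl⟩
  obtain ⟨Y3, hY3⟩ : ∃ Y, Y = X 2 := ⟨_, rfl⟩
  obtain ⟨W, hW⟩ : ∃ Y, Y = X 3 := ⟨_, rfl⟩
  have B1 : ∀ i, |Y1 i| ≤ K := hY1 ▸ hX 0
  have B2 : ∀ i, |Y2 i| ≤ K := hY2 ▸ hX 1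
  have B3 : ∀ i, |Y3 i| ≤ K := hY3 ▸ hX 2
  have BW : ∀ i, |W i| ≤ K := hW ▸ hX 3
  have T1 : ∀ Y : Fin 3 → ℝ, (∀ i, |Y i| ≤ K) → |t3 T Y1 Y1 Y| ≤ 3 * K * ε := by
    rw [hY1]
    exact hTY 0
  have T2 : ∀ Y : Fin 3 → ℝ, (∀ i, |Y i| ≤ K) → |t3 T Y2 Y2 Y| ≤ 3 * K * ε := by
    rw [hY2]
    exact hTY 1
  have T3 : ∀ Y : Fin 3 → ℝ, (∀ i, |Y i| ≤ K) → |t3 T Y3 Y3 Y| ≤ 3 * K * ε := by
    rw [hY3]
    exact hTY 2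
  have TW : ∀ Y : Fin 3 → ℝ, (∀ i, |Y i| ≤ K) → |t3 T W W Y| ≤ 3 * K * ε := by
    rw [hW]
    exact hTY 3
  have D0 : ν ≤ |d3 Y1 Y2 Y3| := by
    rw [hY1, hY2, hY3]
    exact hd 0 1 2 (by decide) (by decide) (by decide)
  have D2 : ν ≤ |d3 Y1 W Y3| := by
    rw [hY1, hW, hY3]
    exact hd 0 3 2 (by decide) (by decide) (by decide)
  have D3 : ν ≤ |d3 Y1 Y2 W| := by
    rw [hY1, hW, hY2]
    exact hd 0 1 3 (by decide) (by decide) (by decide)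
  obtain ⟨x1, hx1⟩ : ∃ x1, x1 = d3 W Y2 Y3 := ⟨_, rfl⟩
  obtain ⟨x2, hx2⟩ : ∃ x2, x2 = d3 Y1 W Y3 := ⟨_, rfl⟩
  obtain ⟨x3, hx3⟩ : ∃ x3, x3 = d3 Y1 Y2 W := ⟨_, rfl⟩
  obtain ⟨D, hD⟩ : ∃ D, D = d3 Y1 Y2 Y3 := ⟨_, rfl⟩
  have b1 : |x1| ≤ 6 * K ^ 3 := hx1 ▸ bd _ _ _ BW B2 B3
  have b2 : |x2| ≤ 6 * K ^ 3 := hx2 ▸ bd _ _ _ B1 BW B3
  have b3 : |x3| ≤ 6 * K ^ 3 := hx3 ▸ bd _ _ _ B1 B2 BW
  have bD : |D| ≤ 6 * K ^ 3 := hD ▸ bd _ _ _ B1 B2 B3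
  rw [← hD] at D0
  rw [← hx2] at D2
  rw [← hx3] at D3
  have hv : (fun i => x1 * Y1 i + x2 * Y2 i + x3 * Y3 i) = fun i => D * W i := by
    rw [hx1, hx2, hx3, hD]
    exact cramer' Y1 Y2 Y3 W
  have eT : D ^ 2 * t3 T W W Y1 = x1 ^ 2 * t3 T Y1 Y1 Y1 + x2 ^ 2 * t3 T Y2 Y2 Y1 +
      x3 ^ 2 * t3 T Y3 Y3 Y1 + 2 * x1 * x2 * t3 T Y1 Y1 Y2 + 2 * x1 * x3 * t3 T Y1 Y1 Y3 +
      2 * x2 * x3 * t3 T Y2 Y3 Y1 := by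
    rw [← t3_swap' hT2 Y1 Y2 Y1, ← t3_swap' hT2 Y1 Y3 Y1, ← t3_quad hT1, hv, t3_sc]
  have tR : ∀ x y r : ℝ, |x| ≤ 6 * K ^ 3 → |y| ≤ 6 * K ^ 3 → |r| ≤ 3 * K * ε →
      |x * y * r| ≤ 108 * K ^ 7 * ε := fun x y r hx hy hr => by
    rw [abs_mul, abs_mul]
    refine (mul_le_mul (mul_le_mul hx hy (abs_nonneg _) hK1) hr (abs_nonneg _)
      (mul_nonneg hK1 hK1)).trans (le_of_eq ?_)
    ring
  have s1 := abs_le.1 (tR D D _ bD bD (TW Y1 B1))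
  have s2 := abs_le.1 (tR x1 x1 _ b1 b1 (T1 Y1 B1))
  have s3 := abs_le.1 (tR x2 x2 _ b2 b2 (T2 Y1 B1))
  have s4 := abs_le.1 (tR x3 x3 _ b3 b3 (T3 Y1 B1))
  have s5 := abs_le.1 (tR x1 x2 _ b1 b2 (T1 Y2 B2))
  have s6 := abs_le.1 (tR x1 x3 _ b1 b3 (T1 Y3 B3))
  obtain ⟨t, ht⟩ : ∃ t, t = t3 T Y2 Y3 Y1 := ⟨_, rfl⟩
  rw [← ht] at eT
  have s7 : |x2 * x3 * t| ≤ 432 * K ^ 7 * ε := by
    rw [abs_le]
    constructor <;> linarith [s1.1, s1.2, s2.1, s2.2, s3.1, s3.2, s4.1, s4.2, s5.1, s5.2, s6.1,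
      s6.2]
  obtain ⟨M, hM⟩ : ∃ M, M = 432 * K ^ 7 * ε := ⟨_, rfl⟩
  have hM0 : 0 ≤ M := by rw [hM]; positivity
  have s8 : ν ^ 2 * |t| ≤ M := by
    rw [hM]
    refine le_trans ?_ s7
    rw [abs_mul, abs_mul, pow_two]
    exact mul_le_mul_of_nonneg_right (mul_le_mul D2 D3 hν.le (abs_nonneg _)) (abs_nonneg _)
  have hν2 : ν ^ 2 ≤ 36 * K ^ 6 := by
    have h1 := pow_le_pow_left₀ hν.le (D0.trans bD) 2
    refine h1.trans (le_of_eq ?_)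
    ring
  have s9 : ∀ r : ℝ, |r| ≤ 3 * K * ε → ν ^ 2 * |r| ≤ M := fun r hr => by
    refine (mul_le_mul hν2 hr (abs_nonneg _) (by positivity)).trans ?_
    rw [hM]
    have e1 : 36 * K ^ 6 * (3 * K * ε) = 108 * (K ^ 7 * ε) := by ring
    have e2 : 0 ≤ K ^ 7 * ε := by positivity
    rw [e1]
    linarith
  -- the values on the basis
  have v11 : ∀ Y : Fin 3 → ℝ, (∀ i, |Y i| ≤ K) → ν ^ 2 * |t3 T Y1 Y1 Y| ≤ M ∧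
      ν ^ 2 * |t3 T Y1 Y Y1| ≤ M ∧ ν ^ 2 * |t3 T Y Y1 Y1| ≤ M := fun Y hY => by
    refine ⟨s9 _ (T1 Y hY), ?_, ?_⟩
    · rw [t3_swap' hT2]
      exact s9 _ (T1 Y hY)
    · rw [t3_swap hT1, t3_swap' hT2]
      exact s9 _ (T1 Y hY)
  have v22 : ∀ Y : Fin 3 → ℝ, (∀ i, |Y i| ≤ K) → ν ^ 2 * |t3 T Y2 Y2 Y| ≤ M ∧
      ν ^ 2 * |t3 T Y2 Y Y2| ≤ M ∧ ν ^ 2 * |t3 T Y Y2 Y2| ≤ M := fun Y hY => by
    refine ⟨s9 _ (T2 Y hY), ?_, ?_⟩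
    · rw [t3_swap' hT2]
      exact s9 _ (T2 Y hY)
    · rw [t3_swap hT1, t3_swap' hT2]
      exact s9 _ (T2 Y hY)
  have v33 : ∀ Y : Fin 3 → ℝ, (∀ i, |Y i| ≤ K) → ν ^ 2 * |t3 T Y3 Y3 Y| ≤ M ∧
      ν ^ 2 * |t3 T Y3 Y Y3| ≤ M ∧ ν ^ 2 * |t3 T Y Y3 Y3| ≤ M := fun Y hY => by
    refine ⟨s9 _ (T3 Y hY), ?_, ?_⟩
    · rw [t3_swap' hT2]
      exact s9 _ (T3 Y hY)
    · rw [t3_swap hT1, t3_swap' hT2]
      exact s9 _ (T3 Y hY)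
  have v231 : ν ^ 2 * |t3 T Y2 Y3 Y1| ≤ M := ht ▸ s8
  have v321 : ν ^ 2 * |t3 T Y3 Y2 Y1| ≤ M := by rw [t3_swap hT1]; exact v231
  have v213 : ν ^ 2 * |t3 T Y2 Y1 Y3| ≤ M := by rw [t3_swap' hT2]; exact v231
  have v123 : ν ^ 2 * |t3 T Y1 Y2 Y3| ≤ M := by rw [t3_swap hT1]; exact v213
  have v312 : ν ^ 2 * |t3 T Y3 Y1 Y2| ≤ M := by rw [t3_swap' hT2]; exact v321
  have v132 : ν ^ 2 * |t3 T Y1 Y3 Y2| ≤ M := by rw [t3_swap' hT2]; exact v123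
  -- the entries
  have hm : ∀ (i : Fin 3) (Y Z : Fin 3 → ℝ), (∀ i, |Y i| ≤ K) → (∀ i, |Z i| ≤ K) →
      |d3 (eb i) Y Z| ≤ 6 * K ^ 2 ∧ |d3 Y (eb i) Z| ≤ 6 * K ^ 2 ∧
        |d3 Y Z (eb i)| ≤ 6 * K ^ 2 := fun i Y Z hY hZ => by
    refine ⟨(d3_le (eb_le i) hY hZ).trans (le_of_eq (by ring)),
      (d3_le hY (eb_le i) hZ).trans (le_of_eq (by ring)),
      (d3_le hY hZ (eb_le i)).trans (le_of_eq (by ring))⟩
  have ex : ∀ i, ∃ m1 m2 m3 : ℝ, |m1| ≤ 6 * K ^ 2 ∧ |m2| ≤ 6 * K ^ 2 ∧ |m3| ≤ 6 * K ^ 2 ∧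
      (fun j => m1 * Y1 j + m2 * Y2 j + m3 * Y3 j) = fun j => D * eb i j := fun i =>
    ⟨d3 (eb i) Y2 Y3, d3 Y1 (eb i) Y3, d3 Y1 Y2 (eb i), (hm i _ _ B2 B3).1,
      (hm i _ _ B1 B3).2.1, (hm i _ _ B1 B2).2.2, by rw [hD]; exact cramer' Y1 Y2 Y3 (eb i)⟩
  obtain ⟨m1, m2, m3, hm1, hm2, hm3, em⟩ := ex i
  obtain ⟨n1, n2, n3, hn1, hn2, hn3, en⟩ := ex j
  obtain ⟨p1, p2, p3, hp1, hp2, hp3, ep⟩ := ex k
  have hK4 : 0 ≤ 6 * K ^ 2 := by positivity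
  have q1 : ∀ m r : ℝ, ∀ c : ℝ, 0 ≤ c → |m| ≤ 6 * K ^ 2 → ν ^ 2 * |r| ≤ c * M →
      ν ^ 2 * |m * r| ≤ 6 * K ^ 2 * c * M := fun m r c hc hm' hr => by
    have e1 : ν ^ 2 * |m * r| = |m| * (ν ^ 2 * |r|) := by rw [abs_mul]; ring
    rw [e1]
    refine (mul_le_mul hm' hr (by positivity) hK4).trans (le_of_eq ?_)
    ring
  have q3 : ∀ (a1 a2 a3 r1 r2 r3 c : ℝ), 0 ≤ c → |a1| ≤ 6 * K ^ 2 → |a2| ≤ 6 * K ^ 2 →
      |a3| ≤ 6 * K ^ 2 → ν ^ 2 * |r1| ≤ c * M → ν ^ 2 * |r2| ≤ c * M → ν ^ 2 * |r3| ≤ c * M →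
      ν ^ 2 * |a1 * r1 + a2 * r2 + a3 * r3| ≤ (18 * K ^ 2 * c) * M := by
    intro a1 a2 a3 r1 r2 r3 c hc h1 h2 h3 h4 h5 h6
    have k1 := q1 a1 r1 c hc h1 h4
    have k2 := q1 a2 r2 c hc h2 h5
    have k3 := q1 a3 r3 c hc h3 h6
    have k4 : |a1 * r1 + a2 * r2 + a3 * r3| ≤ |a1 * r1| + |a2 * r2| + |a3 * r3| :=
      (abs_add_le _ _).trans (add_le_add (abs_add_le _ _) le_rfl)
    have k5 := mul_le_mul_of_nonneg_left k4 (sq_nonneg ν)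
    have k6 : 18 * K ^ 2 * c * M = 6 * K ^ 2 * c * M + 6 * K ^ 2 * c * M + 6 * K ^ 2 * c * M := by
      ring
    rw [k6]
    linarith
  have w3 : ∀ U V : Fin 3 → ℝ, ν ^ 2 * |t3 T U V Y1| ≤ 1 * M → ν ^ 2 * |t3 T U V Y2| ≤ 1 * M →
      ν ^ 2 * |t3 T U V Y3| ≤ 1 * M →
      ν ^ 2 * |t3 T U V (fun j => D * eb k j)| ≤ (18 * K ^ 2 * 1) * M := fun U V h1 h2 h3 => by
    rw [← ep, t3_lin3 hT1 hT2]
    exact q3 _ _ _ _ _ _ 1 zero_le_one hp1 hp2 hp3 h1 h2 h3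
  have w2 : ∀ U W' : Fin 3 → ℝ, ∀ c : ℝ, 0 ≤ c → ν ^ 2 * |t3 T U Y1 W'| ≤ c * M →
      ν ^ 2 * |t3 T U Y2 W'| ≤ c * M → ν ^ 2 * |t3 T U Y3 W'| ≤ c * M →
      ν ^ 2 * |t3 T U (fun l => D * eb j l) W'| ≤ (18 * K ^ 2 * c) * M := by
    intro U W' c hc h1 h2 h3
    rw [← en, t3_lin2 hT1]
    exact q3 _ _ _ _ _ _ c hc hn1 hn2 hn3 h1 h2 h3
  have w1 : ∀ V W' : Fin 3 → ℝ, ∀ c : ℝ, 0 ≤ c → ν ^ 2 * |t3 T Y1 V W'| ≤ c * M →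
      ν ^ 2 * |t3 T Y2 V W'| ≤ c * M → ν ^ 2 * |t3 T Y3 V W'| ≤ c * M →
      ν ^ 2 * |t3 T (fun l => D * eb i l) V W'| ≤ (18 * K ^ 2 * c) * M := by
    intro V W' c hc h1 h2 h3
    rw [← em, t3_lin]
    exact q3 _ _ _ _ _ _ c hc hm1 hm2 hm3 h1 h2 h3
  have c1 : (0 : ℝ) ≤ 18 * K ^ 2 * 1 := by positivity
  have c2 : (0 : ℝ) ≤ 18 * K ^ 2 * (18 * K ^ 2 * 1) := by positivity
  have oM : ∀ r : ℝ, ν ^ 2 * |r| ≤ M → ν ^ 2 * |r| ≤ 1 * M := fun r h => by rwa [one_mul]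
  have z1 : ν ^ 2 * |t3 T (fun l => D * eb i l) (fun l => D * eb j l) (fun l => D * eb k l)| ≤
      (18 * K ^ 2 * (18 * K ^ 2 * (18 * K ^ 2 * 1))) * M := by
    refine w1 _ _ _ c2 ?_ ?_ ?_
    · refine w2 _ _ _ c1 ?_ ?_ ?_
      · exact w3 _ _ (oM _ (v11 Y1 B1).1) (oM _ (v11 Y2 B2).1) (oM _ (v11 Y3 B3).1)
      · exact w3 _ _ (oM _ (v11 Y2 B2).2.1) (oM _ (v22 Y1 B1).2.2) (oM _ v123)
      · exact w3 _ _ (oM _ (v11 Y3 B3).2.1) (oM _ v132) (oM _ (v33 Y1 B1).2.2)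
    · refine w2 _ _ _ c1 ?_ ?_ ?_
      · exact w3 _ _ (oM _ (v11 Y2 B2).2.2) (oM _ (v22 Y1 B1).2.1) (oM _ v213)
      · exact w3 _ _ (oM _ (v22 Y1 B1).1) (oM _ (v22 Y2 B2).1) (oM _ (v22 Y3 B3).1)
      · exact w3 _ _ (oM _ v231) (oM _ (v22 Y3 B3).2.1) (oM _ (v33 Y2 B2).2.2)
    · refine w2 _ _ _ c1 ?_ ?_ ?_
      · exact w3 _ _ (oM _ (v11 Y3 B3).2.2) (oM _ v312) (oM _ (v33 Y1 B1).2.1)
      · exact w3 _ _ (oM _ v321) (oM _ (v22 Y3 B3).2.2) (oM _ (v33 Y2 B2).2.1)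
      · exact w3 _ _ (oM _ (v33 Y1 B1).1) (oM _ (v33 Y2 B2).1) (oM _ (v33 Y3 B3).1)
  rw [t3_sc3, t3_ebb, abs_mul, abs_pow] at z1
  have z2 : ν ^ 3 ≤ |D| ^ 3 := pow_le_pow_left₀ hν.le D0 3
  have z3 : ν ^ 5 * |T i j k| ≤ ν ^ 2 * (|D| ^ 3 * |T i j k|) := by
    have e1 : ν ^ 5 * |T i j k| = ν ^ 2 * (ν ^ 3 * |T i j k|) := by ring
    rw [e1]
    exact mul_le_mul_of_nonneg_left (mul_le_mul_of_nonneg_right z2 (abs_nonneg _)) (sq_nonneg ν)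
  refine z3.trans (z1.trans (le_of_eq ?_))
  rw [hM]
  ring

end Pool.CUB46
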