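import Pool.Agent.H46.D2.Con3

/-!
# A multiple of a conic plus a symmetric product

`form_det`: if `σ Q - (Γ ⊗ M + M ⊗ Γ)` is small, with `Q` symmetric and not degenerate on `ℝ³` and
`Γ` not small, then `σ` and `M` are small.
-/

set_option autoImplicit false

namespace Pool.CUB46

open Finset

/-- The vectors of the kernel of `Γ`. -/
def kv (Γ : Fin 3 → ℝ) (i j : Fin 3) : Fin 3 → ℝ := fun k => Γ i * eb j k - Γ j * eb i k

/-- The forms on the kernel. -/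
theorem q2_kv (Q : Fin 3 → Fin 3 → ℝ) (Γ : Fin 3 → ℝ) (i j k : Fin 3) :
    q2 Q (kv Γ i j) (kv Γ i k) = Γ i * Γ i * Q j k - Γ i * Γ k * Q j i - Γ j * Γ i * Q i k +
      Γ j * Γ k * Q i i := by
  unfold q2 kv eb
  fin_cases i <;> fin_cases j <;> fin_cases k <;> simp [Fin.sum_univ_three] <;> ring

/-- The determinant is a combination of the values on the kernel. -/
theorem det_kv {Q : Fin 3 → Fin 3 → ℝ} (hQ : ∀ i j, Q i j = Q j i) (Γ : Fin 3 → ℝ) (i : Fin 3) :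
    Γ i ^ 4 * d3 (Q 0) (Q 1) (Q 2) =
      Q i i * (q2 Q (kv Γ i (i + 1)) (kv Γ i (i + 1)) * q2 Q (kv Γ i (i + 2)) (kv Γ i (i + 2)) -
        q2 Q (kv Γ i (i + 1)) (kv Γ i (i + 2)) ^ 2) -
      (Γ i * Q i (i + 1) - Γ (i + 1) * Q i i) *
        ((Γ i * Q i (i + 1) - Γ (i + 1) * Q i i) * q2 Q (kv Γ i (i + 2)) (kv Γ i (i + 2)) -
          q2 Q (kv Γ i (i + 1)) (kv Γ i (i + 2)) * (Γ i * Q i (i + 2) - Γ (i + 2) * Q i i)) +
      (Γ i * Q i (i + 2) - Γ (i + 2) * Q i i) *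
        ((Γ i * Q i (i + 1) - Γ (i + 1) * Q i i) * q2 Q (kv Γ i (i + 1)) (kv Γ i (i + 2)) -
          q2 Q (kv Γ i (i + 1)) (kv Γ i (i + 1)) * (Γ i * Q i (i + 2) - Γ (i + 2) * Q i i)) := by
  simp only [q2_kv]
  unfold d3
  fin_cases i
  · simp
    rw [hQ 1 0, hQ 2 0, hQ 2 1]
    ring
  · simp
    rw [hQ 1 0, hQ 2 0, hQ 2 1]
    ring
  · simp
    rw [hQ 1 0, hQ 2 0, hQ 2 1]
    ring

/-- **The multiple and the covector are determined.** -/
theorem form_det {Q : Fin 3 → Fin 3 → ℝ} {Γ M : Fin 3 → ℝ} {sg T ε : ℝ} (hT1 : 1 ≤ T)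
    (hQ : ∀ i j, Q i j = Q j i) (hQT : ∀ i j, |Q i j| ≤ T) (hΓT : ∀ i, |Γ i| ≤ T)
    (hdet : 1 ≤ T * |d3 (Q 0) (Q 1) (Q 2)|) {i : Fin 3} (hΓ : 1 ≤ T * |Γ i|)
    (h : ∀ j k, |sg * Q j k - (Γ j * M k + M j * Γ k)| ≤ ε) :
    |sg| ≤ 96 * T ^ 11 * ε ∧ ∀ j, |M j| ≤ 146 * T ^ 15 * ε := by
  have hT0 : 0 ≤ T := zero_le_one.trans hT1
  have hε0 : 0 ≤ ε := (abs_nonneg _).trans (h 0 0)
  have hq : ∀ j k, |q2 Q (kv Γ i j) (kv Γ i k)| ≤ 4 * T ^ 3 := by
    intro j k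
    rw [q2_kv]
    have h1 : ∀ a b c d, |Γ a * Γ b * Q c d| ≤ T ^ 3 := by
      intro a b c d
      rw [abs_mul, abs_mul]
      calc _ ≤ T * T * T := mul_le_mul (mul_le_mul (hΓT _) (hΓT _) (abs_nonneg _) hT0) (hQT _ _)
            (abs_nonneg _) (by positivity)
        _ = _ := by ring
    have h2 := h1 i i j k
    have h3 := h1 i k j i
    have h4 := h1 j i i k
    have h5 := h1 j k i i
    rw [abs_le] at h2 h3 h4 h5 ⊢
    constructor <;> linarith [h2.1, h2.2, h3.1, h3.2, h4.1, h4.2, h5.1, h5.2]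
  -- a value on the kernel which is not small
  have h1 : ∃ j k, 1 ≤ 24 * T ^ 9 * |q2 Q (kv Γ i j) (kv Γ i k)| := by
    by_contra hcon
    push Not at hcon
    obtain ⟨a, ha⟩ : ∃ a, a = q2 Q (kv Γ i (i + 1)) (kv Γ i (i + 1)) := ⟨_, rfl⟩
    obtain ⟨b, hb⟩ : ∃ b, b = q2 Q (kv Γ i (i + 1)) (kv Γ i (i + 2)) := ⟨_, rfl⟩
    obtain ⟨c, hc⟩ : ∃ c, c = q2 Q (kv Γ i (i + 2)) (kv Γ i (i + 2)) := ⟨_, rfl⟩
    obtain ⟨x, hx⟩ : ∃ x, x = Γ i * Q i (i + 1) - Γ (i + 1) * Q i i := ⟨_, rfl⟩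
    obtain ⟨y, hy⟩ : ∃ y, y = Γ i * Q i (i + 2) - Γ (i + 2) * Q i i := ⟨_, rfl⟩
    have hd := det_kv hQ Γ i
    rw [← ha, ← hb, ← hc, ← hx, ← hy] at hd
    have ka := hcon (i + 1) (i + 1)
    have kb := hcon (i + 1) (i + 2)
    have kc := hcon (i + 2) (i + 2)
    rw [← ha] at ka
    rw [← hb] at kb
    rw [← hc] at kc
    have ba := hq (i + 1) (i + 1)
    have bb := hq (i + 1) (i + 2)
    rw [← ha] at ba
    rw [← hb] at bb
    have hx2 : |x| ≤ 2 * T ^ 2 := by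
      rw [hx]
      refine (abs_sub _ _).trans ?_
      rw [abs_mul, abs_mul]
      have k1 : |Γ i| * |Q i (i + 1)| ≤ T * T := mul_le_mul (hΓT _) (hQT _ _) (abs_nonneg _) hT0
      have k2 : |Γ (i + 1)| * |Q i i| ≤ T * T := mul_le_mul (hΓT _) (hQT _ _) (abs_nonneg _) hT0
      nlinarith
    have hy2 : |y| ≤ 2 * T ^ 2 := by
      rw [hy]
      refine (abs_sub _ _).trans ?_
      rw [abs_mul, abs_mul]
      have k1 : |Γ i| * |Q i (i + 2)| ≤ T * T := mul_le_mul (hΓT _) (hQT _ _) (abs_nonneg _) hT0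
      have k2 : |Γ (i + 2)| * |Q i i| ≤ T * T := mul_le_mul (hΓT _) (hQT _ _) (abs_nonneg _) hT0
      nlinarith
    obtain ⟨η, hη⟩ : ∃ η : ℝ, η = max (max |a| |b|) |c| := ⟨_, rfl⟩
    have ea : |a| ≤ η := by rw [hη]; exact (le_max_left _ _).trans (le_max_left _ _)
    have eb' : |b| ≤ η := by rw [hη]; exact (le_max_right _ _).trans (le_max_left _ _)
    have ec : |c| ≤ η := by rw [hη]; exact le_max_right _ _
    have hη0 : 0 ≤ η := (abs_nonneg _).trans ea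
    have hηs : 24 * T ^ 9 * η < 1 := by
      have hp : 0 ≤ 24 * T ^ 9 := by positivity
      rw [hη]
      rcases le_total (max |a| |b|) |c| with k | k
      · rw [max_eq_right k]
        exact kc
      · rw [max_eq_left k]
        rcases le_total |a| |b| with k' | k'
        · rw [max_eq_right k']
          exact kb
        · rw [max_eq_left k']
          exact ka
    have e1 : |Q i i * (a * c - b ^ 2)| ≤ 8 * T ^ 4 * η := by
      rw [abs_mul]
      have k1 : |a * c - b ^ 2| ≤ 8 * T ^ 3 * η := by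
        refine (abs_sub _ _).trans ?_
        rw [abs_mul, sq, abs_mul]
        have k2 : |a| * |c| ≤ 4 * T ^ 3 * η := mul_le_mul ba ec (abs_nonneg _) (by positivity)
        have k3 : |b| * |b| ≤ 4 * T ^ 3 * η := mul_le_mul bb eb' (abs_nonneg _) (by positivity)
        linarith
      calc _ ≤ T * (8 * T ^ 3 * η) := mul_le_mul (hQT _ _) k1 (abs_nonneg _) hT0
        _ = _ := by ring
    have e2 : |x * (x * c - b * y)| ≤ 8 * T ^ 4 * η := by
      rw [abs_mul]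
      have k1 : |x * c - b * y| ≤ 4 * T ^ 2 * η := by
        refine (abs_sub _ _).trans ?_
        rw [abs_mul, abs_mul]
        have k2 : |x| * |c| ≤ 2 * T ^ 2 * η := mul_le_mul hx2 ec (abs_nonneg _) (by positivity)
        have k3 : |b| * |y| ≤ η * (2 * T ^ 2) := mul_le_mul eb' hy2 (abs_nonneg _) hη0
        linarith
      calc _ ≤ 2 * T ^ 2 * (4 * T ^ 2 * η) := mul_le_mul hx2 k1 (abs_nonneg _) (by positivity)
        _ = _ := by ring
    have e3 : |y * (x * b - a * y)| ≤ 8 * T ^ 4 * η := by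
      rw [abs_mul]
      have k1 : |x * b - a * y| ≤ 4 * T ^ 2 * η := by
        refine (abs_sub _ _).trans ?_
        rw [abs_mul, abs_mul]
        have k2 : |x| * |b| ≤ 2 * T ^ 2 * η := mul_le_mul hx2 eb' (abs_nonneg _) (by positivity)
        have k3 : |a| * |y| ≤ η * (2 * T ^ 2) := mul_le_mul ea hy2 (abs_nonneg _) hη0
        linarith
      calc _ ≤ 2 * T ^ 2 * (4 * T ^ 2 * η) := mul_le_mul hy2 k1 (abs_nonneg _) (by positivity)
        _ = _ := by ring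
    have e4 : |Γ i ^ 4 * d3 (Q 0) (Q 1) (Q 2)| ≤ 24 * T ^ 4 * η := by
      rw [hd]
      rw [abs_le] at e1 e2 e3 ⊢
      constructor <;> linarith [e1.1, e1.2, e2.1, e2.2, e3.1, e3.2]
    rw [abs_mul, abs_pow] at e4
    have e5 : (1 : ℝ) ≤ (T * |Γ i|) ^ 4 * (T * |d3 (Q 0) (Q 1) (Q 2)|) :=
      one_le_mul_of_one_le_of_one_le (one_le_pow₀ hΓ) hdet
    have e6 : (T * |Γ i|) ^ 4 * (T * |d3 (Q 0) (Q 1) (Q 2)|) ≤ T ^ 5 * (24 * T ^ 4 * η) := by
      calc _ = T ^ 5 * (|Γ i| ^ 4 * |d3 (Q 0) (Q 1) (Q 2)|) := by ring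
        _ ≤ _ := mul_le_mul_of_nonneg_left e4 (by positivity)
    have e7 : T ^ 5 * (24 * T ^ 4 * η) = 24 * T ^ 9 * η := by ring
    linarith
  obtain ⟨j, k, hjk⟩ := h1
  have hsg : |sg| ≤ 96 * T ^ 11 * ε := by
    have e1 : sg * q2 Q (kv Γ i j) (kv Γ i k) =
        q2 (fun j k => sg * Q j k - (Γ j * M k + M j * Γ k)) (kv Γ i j) (kv Γ i k) := by
      rw [q2_kv, q2_kv]
      ring
    have e2 : |q2 (fun j k => sg * Q j k - (Γ j * M k + M j * Γ k)) (kv Γ i j) (kv Γ i k)| ≤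
        4 * T ^ 2 * ε := by
      rw [q2_kv]
      have h1 : ∀ a b c d, |Γ a * Γ b * (sg * Q c d - (Γ c * M d + M c * Γ d))| ≤ T ^ 2 * ε := by
        intro a b c d
        rw [abs_mul, abs_mul]
        calc _ ≤ T * T * ε := mul_le_mul (mul_le_mul (hΓT _) (hΓT _) (abs_nonneg _) hT0) (h _ _)
              (abs_nonneg _) (by positivity)
          _ = _ := by ring
      have h2 := h1 i i j k
      have h3 := h1 i k j i
      have h4 := h1 j i i k
      have h5 := h1 j k i i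
      rw [abs_le] at h2 h3 h4 h5 ⊢
      constructor <;> linarith [h2.1, h2.2, h3.1, h3.2, h4.1, h4.2, h5.1, h5.2]
    rw [← e1, abs_mul] at e2
    calc |sg| ≤ 24 * T ^ 9 * |q2 Q (kv Γ i j) (kv Γ i k)| * |sg| :=
          le_mul_of_one_le_left (abs_nonneg _) hjk
      _ = 24 * T ^ 9 * (|sg| * |q2 Q (kv Γ i j) (kv Γ i k)|) := by ring
      _ ≤ 24 * T ^ 9 * (4 * T ^ 2 * ε) := mul_le_mul_of_nonneg_left e2 (by positivity)
      _ = _ := by ring
  refine ⟨hsg, ?_⟩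
  have hsQ : ∀ j k, |sg * Q j k| ≤ 96 * (T ^ 12 * ε) := by
    intro j k
    rw [abs_mul]
    calc _ ≤ 96 * T ^ 11 * ε * T := mul_le_mul hsg (hQT _ _) (abs_nonneg _) (by positivity)
      _ = _ := by ring
  have hT12 : ε ≤ T ^ 12 * ε := le_mul_of_one_le_left hε0 (one_le_pow₀ hT1)
  have hMi : |M i| ≤ 49 * (T ^ 13 * ε) := by
    have e1 : 2 * (Γ i * M i) = sg * Q i i - (sg * Q i i - (Γ i * M i + M i * Γ i)) := by ring
    have e2 : |2 * (Γ i * M i)| ≤ 97 * (T ^ 12 * ε) := by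
      rw [e1]
      refine (abs_sub _ _).trans ?_
      linarith [hsQ i i, h i i]
    rw [abs_mul, abs_two, abs_mul] at e2
    have e3 : |M i| ≤ T * |Γ i| * |M i| := le_mul_of_one_le_left (abs_nonneg _) hΓ
    have e4 : T * |Γ i| * |M i| ≤ T * (97 / 2 * (T ^ 12 * ε)) := by
      rw [mul_assoc]
      exact mul_le_mul_of_nonneg_left (by linarith) hT0
    have e5 : T * (97 / 2 * (T ^ 12 * ε)) = 97 / 2 * (T ^ 13 * ε) := by ring
    have e6 : 0 ≤ T ^ 13 * ε := by positivity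
    linarith
  intro j
  have e1 : M j * Γ i = sg * Q j i - (sg * Q j i - (Γ j * M i + M j * Γ i)) - Γ j * M i := by ring
  have e2 : |Γ j * M i| ≤ 49 * (T ^ 14 * ε) := by
    rw [abs_mul]
    calc _ ≤ T * (49 * (T ^ 13 * ε)) := mul_le_mul (hΓT _) hMi (abs_nonneg _) hT0
      _ = _ := by ring
  have e3 : T ^ 12 * ε ≤ T ^ 14 * ε :=
    mul_le_mul_of_nonneg_right (pow_le_pow_right₀ hT1 (by norm_num)) hε0
  have e4 : |M j * Γ i| ≤ 146 * (T ^ 14 * ε) := by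
    rw [e1]
    have k1 := hsQ j i
    have k2 := h j i
    rw [abs_le] at k1 k2 e2 ⊢
    constructor <;> linarith [k1.1, k1.2, k2.1, k2.2, e2.1, e2.2]
  rw [abs_mul] at e4
  calc |M j| ≤ T * |Γ i| * |M j| := le_mul_of_one_le_left (abs_nonneg _) hΓ
    _ = T * (|M j| * |Γ i|) := by ring
    _ ≤ T * (146 * (T ^ 14 * ε)) := mul_le_mul_of_nonneg_left e4 hT0
    _ = _ := by ring

end Pool.CUB46
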