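import Pool.Agent.H46.D2.Con3
import Pool.Agent.H64.F5.Lip

/-!
# Polynomials which are almost affine along five horizontal directions

`vf m B j`: the horizontal derivatives of the contact structure `du = (m + p B) dp` on `ℝ³ × ℝ`.
`con_flat`: if the second derivatives of a polynomial along the horizontal lifts of five directions,
no three of them in a plane, are small on the unit box, then the second horizontal derivatives are
`σ Q₀ + c Ω` with constants `σ` and `c`. `hei_five`: the polynomial is near a model.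
-/

set_option autoImplicit false

namespace Pool.CUB46

open Finset MvPolynomial
open Pool.D2R (dd hs der_one mv_seg)
open Pool.GEN (totalDegree_pdσ)

/-! ### The unit box -/

/-- **The derivatives of a polynomial which is bounded on the unit box.** -/
theorem mk_box (K : ℕ) : ∃ C : ℝ, 1 ≤ C ∧ ∀ {m : ℕ} {R : MvPolynomial (Option (Fin m)) ℝ} {S : ℝ},
    R.totalDegree ≤ K → (∀ b : Option (Fin m) → ℝ, (∀ o, |b o| ≤ 1) → |eval b R| ≤ S) →
    ∀ b : Option (Fin m) → ℝ, (∀ o, |b o| ≤ 1) → ∀ o, |eval b (pderiv o R)| ≤ C * S := by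
  classical
  obtain ⟨C, hC, h⟩ := der_one K
  refine ⟨C, hC, ?_⟩
  intro m R S hR hS b hb o
  obtain ⟨W, hW⟩ : ∃ W : Option (Fin m) → ℝ, W = fun o' => if o' = o then 1 else 0 := ⟨_, rfl⟩
  obtain ⟨x, hx⟩ : ∃ x : Option (Fin m) → ℝ, x = fun o' => if o' = o then 0 else b o' := ⟨_, rfl⟩
  have h1 := h (Pool.F5.lp R x W) S (Pool.F5.deg_lp hR x W) (fun t ht => by
    rw [Pool.F5.eval_lp]
    refine hS _ fun o' => ?_
    rw [hx, hW]
    dsimp only
    split_ifs with h2
    · rw [zero_add, mul_one, abs_of_nonneg ht.1]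
      exact ht.2
    · rw [mul_zero, add_zero]
      exact hb o') (b o) (hb o)
  rw [(Pool.F5.der_lp R x W (b o)).1] at h1
  have e : (fun o' => x o' + b o * W o') = b := by
    funext o'
    rw [hx, hW]
    dsimp only
    split_ifs with h2
    · rw [h2]
      ring
    · ring
  rw [e] at h1
  have e2 : dd R b W = eval b (pderiv o R) := by
    unfold dd
    rw [hW, Finset.sum_eq_single o]
    · simp
    · intro o' _ h2
      show eval b (pderiv o' R) * (if o' = o then 1 else 0) = 0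
      rw [if_neg h2, mul_zero]
    · intro h2
      exact absurd (Finset.mem_univ _) h2
  rwa [e2] at h1

/-- A polynomial with a small gradient on the unit box is almost constant there. -/
theorem box_const {m : ℕ} {R : MvPolynomial (Option (Fin m)) ℝ} {M : ℝ}
    (h : ∀ b : Option (Fin m) → ℝ, (∀ o, |b o| ≤ 1) → ∀ o, |eval b (pderiv o R)| ≤ M)
    {x b : Option (Fin m) → ℝ} (hx : ∀ o, |x o| ≤ 1) (hb : ∀ o, |b o| ≤ 1) :
    |eval b R - eval x R| ≤ 2 * (m + 1) * M := by
  have h1 := mv_seg R x (fun o => b o - x o) (M := 2 * (m + 1) * M) (fun u hu => by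
    unfold dd
    refine (Finset.abs_sum_le_sum_abs _ _).trans ?_
    have h2 : ∀ o ∈ (Finset.univ : Finset (Option (Fin m))),
        |eval (fun o => x o + u * (b o - x o)) (pderiv o R) * (b o - x o)| ≤ M * 2 := by
      intro o _
      rw [abs_mul]
      have h3 : ∀ o, |x o + u * (b o - x o)| ≤ 1 := by
        intro o
        have h4 := abs_le.1 (hx o)
        have h5 := abs_le.1 (hb o)
        rw [abs_le]
        have e : x o + u * (b o - x o) = (1 - u) * x o + u * b o := by ring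
        rw [e]
        have h6 := hu.1
        have h7 := hu.2
        constructor <;> nlinarith
      have h4 : |b o - x o| ≤ 2 := by
        refine (abs_sub _ _).trans ?_
        linarith [hx o, hb o]
      have h5 := h _ h3 o
      exact mul_le_mul h5 h4 (abs_nonneg _) ((abs_nonneg _).trans h5)
    refine (Finset.sum_le_sum h2).trans (le_of_eq ?_)
    rw [Finset.sum_const, Finset.card_univ, Fintype.card_option, Fintype.card_fin, nsmul_eq_mul]
    push_cast
    ring) 1 ⟨zero_le_one, le_rfl⟩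
  have e : (fun o => x o + 1 * (b o - x o)) = b := by
    funext o
    ring
  rwa [e] at h1

/-! ### Horizontal derivatives -/

/-- The slope of the contact structure. -/
noncomputable def mf (m : Fin 3 → ℝ) (B : Fin 3 → Fin 3 → ℝ) (j : Fin 3) :
    MvPolynomial (Option (Fin 3)) ℝ := C (m j) + ∑ i, C (B i j) * X (some i)

/-- **The horizontal derivative.** -/
noncomputable def vf (m : Fin 3 → ℝ) (B : Fin 3 → Fin 3 → ℝ) (j : Fin 3)
    (F : MvPolynomial (Option (Fin 3)) ℝ) : MvPolynomial (Option (Fin 3)) ℝ :=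
  pderiv (some j) F + mf m B j * pderiv none F

variable {m : Fin 3 → ℝ} {B : Fin 3 → Fin 3 → ℝ}

theorem pd_mf (i j : Fin 3) : pderiv (some i) (mf m B j) = C (B i j) := by
  classical
  unfold mf
  rw [map_add, pderiv_C, zero_add, map_sum]
  simp only [pderiv_C_mul, pderiv_X]
  rw [Finset.sum_eq_single i]
  · simp
  · intro k _ hk
    rw [Pi.single_apply, if_neg]
    · simp
    · intro h
      exact hk (Option.some_injective _ h)
  · intro h
    exact absurd (Finset.mem_univ _) h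

theorem pd_mf_none (j : Fin 3) : pderiv none (mf m B j) = 0 := by
  classical
  unfold mf
  rw [map_add, pderiv_C, zero_add, map_sum]
  refine Finset.sum_eq_zero fun k _ => ?_
  rw [pderiv_C_mul, pderiv_X, Pi.single_apply, if_neg (by simp)]
  simp

theorem eval_mf (b : Option (Fin 3) → ℝ) (j : Fin 3) :
    eval b (mf m B j) = m j + ∑ i, B i j * b (some i) := by
  unfold mf
  simp

theorem eval_vf (b : Option (Fin 3) → ℝ) (j : Fin 3) (F : MvPolynomial (Option (Fin 3)) ℝ) :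
    eval b (vf m B j F) = eval b (pderiv (some j) F) +
      (m j + ∑ i, B i j * b (some i)) * eval b (pderiv none F) := by
  unfold vf
  rw [map_add, map_mul, eval_mf]

theorem vf_sub (j : Fin 3) (F G : MvPolynomial (Option (Fin 3)) ℝ) :
    vf m B j (F - G) = vf m B j F - vf m B j G := by
  unfold vf
  rw [map_sub, map_sub]
  ring

theorem vf_add (j : Fin 3) (F G : MvPolynomial (Option (Fin 3)) ℝ) :
    vf m B j (F + G) = vf m B j F + vf m B j G := by
  unfold vf
  rw [map_add, map_add]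
  ring

theorem vf_C_mul (j : Fin 3) (c : ℝ) (F : MvPolynomial (Option (Fin 3)) ℝ) :
    vf m B j (C c * F) = C c * vf m B j F := by
  unfold vf
  rw [pderiv_C_mul, pderiv_C_mul]
  ring

/-- The vertical derivative commutes with the horizontal ones. -/
theorem vf_none (j : Fin 3) (F : MvPolynomial (Option (Fin 3)) ℝ) :
    pderiv none (vf m B j F) = vf m B j (pderiv none F) := by
  unfold vf
  rw [map_add, Derivation.leibniz, pd_mf_none, Pool.D2R.pd_comm]
  simp

theorem vf_vf (i j : Fin 3) (F : MvPolynomial (Option (Fin 3)) ℝ) :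
    vf m B i (vf m B j F) = pderiv (some i) (pderiv (some j) F) + C (B i j) * pderiv none F +
      mf m B j * pderiv (some i) (pderiv none F) + mf m B i * pderiv (some j) (pderiv none F) +
      mf m B i * mf m B j * pderiv none (pderiv none F) := by
  have h1 : vf m B i (vf m B j F) = pderiv (some i) (vf m B j F) +
      mf m B i * pderiv none (vf m B j F) := rfl
  rw [h1, vf_none]
  unfold vf
  rw [map_add, Derivation.leibniz, pd_mf]
  simp only [smul_eq_mul]
  ring

/-- **The commutator** of two horizontal derivatives. -/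
theorem vf_comm (i j : Fin 3) (F : MvPolynomial (Option (Fin 3)) ℝ) :
    vf m B i (vf m B j F) - vf m B j (vf m B i F) = C (B i j - B j i) * pderiv none F := by
  rw [vf_vf, vf_vf, Pool.D2R.pd_comm (some i) (some j), C_sub]
  ring

theorem deg_mf (j : Fin 3) : (mf m B j).totalDegree ≤ 1 := by
  unfold mf
  refine (totalDegree_add _ _).trans (max_le (by rw [totalDegree_C]; exact Nat.zero_le _) ?_)
  refine totalDegree_finsetSum_le fun i _ => ?_
  refine (totalDegree_mul _ _).trans ?_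
  rw [totalDegree_C, totalDegree_X]

theorem deg_vf {F : MvPolynomial (Option (Fin 3)) ℝ} {D : ℕ} (h : F.totalDegree ≤ D) (j : Fin 3) :
    (vf m B j F).totalDegree ≤ D + 1 := by
  unfold vf
  refine (totalDegree_add _ _).trans (max_le ((totalDegree_pdσ h _).trans (Nat.le_succ _)) ?_)
  refine (totalDegree_mul _ _).trans ?_
  have h1 := deg_mf (m := m) (B := B) j
  have h2 := totalDegree_pdσ h (none : Option (Fin 3))
  omega

theorem mf_le {T : ℝ} (hm : ∀ j, |m j| ≤ T) (hB : ∀ i j, |B i j| ≤ T)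
    {b : Option (Fin 3) → ℝ} (hb : ∀ o, |b o| ≤ 1) (j : Fin 3) :
    |m j + ∑ i, B i j * b (some i)| ≤ 4 * T := by
  have hT0 : 0 ≤ T := (abs_nonneg _).trans (hm 0)
  refine (abs_add_le _ _).trans ?_
  have h2 : |∑ i, B i j * b (some i)| ≤ 3 * T := by
    refine (Finset.abs_sum_le_sum_abs _ _).trans ?_
    refine (Finset.sum_le_sum (g := fun _ => T) fun i _ => ?_).trans (le_of_eq ?_)
    · rw [abs_mul]
      calc _ ≤ T * 1 := mul_le_mul (hB _ _) (hb _) (abs_nonneg _) hT0
        _ = T := mul_one T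
    · rw [Finset.sum_const, Finset.card_univ, Fintype.card_fin, nsmul_eq_mul]
      push_cast
      ring
  linarith [hm j]

/-- The horizontal derivatives of a polynomial which is bounded on the unit box. -/
theorem vf_box {C T S : ℝ} (hT1 : 1 ≤ T) {R : MvPolynomial (Option (Fin 3)) ℝ}
    (hm : ∀ j, |m j| ≤ T) (hB : ∀ i j, |B i j| ≤ T)
    (h : ∀ b : Option (Fin 3) → ℝ, (∀ o, |b o| ≤ 1) → ∀ o, |eval b (pderiv o R)| ≤ C * S)
    {b : Option (Fin 3) → ℝ} (hb : ∀ o, |b o| ≤ 1) (j : Fin 3) :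
    |eval b (vf m B j R)| ≤ 5 * T * (C * S) := by
  rw [eval_vf]
  have h1 := h b hb (some j)
  have h2 := h b hb none
  have h3 := mf_le hm hB hb j
  have hCS : 0 ≤ C * S := (abs_nonneg _).trans h1
  have h4 : |(m j + ∑ i, B i j * b (some i)) * eval b (pderiv none R)| ≤ 4 * T * (C * S) := by
    rw [abs_mul]
    exact mul_le_mul h3 h2 (abs_nonneg _) (by linarith)
  refine (abs_add_le _ _).trans ?_
  nlinarith

/-! ### The constants -/

/-- The hypotheses on the directions and on the contact structure. -/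
structure Hei (P : Fin 3 → Fin 3 → ℝ) (X Y : Fin 3 → ℝ) (m : Fin 3 → ℝ) (B : Fin 3 → Fin 3 → ℝ)
    (i₀ j₀ : Fin 3) (T : ℝ) : Prop extends Five P X Y T where
  hm : ∀ j, |m j| ≤ T
  hB : ∀ i j, |B i j| ≤ T
  hom : 1 ≤ T * |B i₀ j₀ - B j₀ i₀|

/-- The second horizontal derivatives at a point. -/
noncomputable def vv (m : Fin 3 → ℝ) (B : Fin 3 → Fin 3 → ℝ) (F : MvPolynomial (Option (Fin 3)) ℝ)
    (b : Option (Fin 3) → ℝ) (i j : Fin 3) : ℝ := eval b (vf m B i (vf m B j F))

/-- The antisymmetric part of the slope. -/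
noncomputable def om (B : Fin 3 → Fin 3 → ℝ) (i j : Fin 3) : ℝ := (B i j - B j i) / 2

/-- The symmetric part of the second horizontal derivatives. -/
noncomputable def Sp (m : Fin 3 → ℝ) (B : Fin 3 → Fin 3 → ℝ) (F : MvPolynomial (Option (Fin 3)) ℝ)
    (i j : Fin 3) : MvPolynomial (Option (Fin 3)) ℝ :=
  vf m B i (vf m B j F) - C (om B i j) * pderiv none F

theorem Sp_symm (F : MvPolynomial (Option (Fin 3)) ℝ) (i j : Fin 3) :
    Sp m B F i j = Sp m B F j i := by
  have h := vf_comm (m := m) (B := B) i j F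
  have h1 : (C (B i j - B j i) : MvPolynomial (Option (Fin 3)) ℝ) = C (om B i j) - C (om B j i) := by
    rw [← C_sub]
    congr 1
    unfold om
    ring
  rw [h1] at h
  unfold Sp
  linear_combination h

/-- The coefficient of the conic. -/
noncomputable def sig (P : Fin 3 → Fin 3 → ℝ) (X Y : Fin 3 → ℝ) (m : Fin 3 → ℝ)
    (B : Fin 3 → Fin 3 → ℝ) (F : MvPolynomial (Option (Fin 3)) ℝ) :
    MvPolynomial (Option (Fin 3)) ℝ :=
  C (Five.tau P X Y) * ∑ i, ∑ j, C (P 1 i * P 2 j) * Sp m B F i j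

/-- The antisymmetric part has no quadratic form. -/
theorem q2_om (c : ℝ) (S : Fin 3 → Fin 3 → ℝ) (Z : Fin 3 → ℝ) :
    q2 (fun i j => S i j - om B i j * c) Z Z = q2 S Z Z := by
  unfold q2 om
  simp only [Fin.sum_univ_three]
  ring

theorem deg_Sp {F : MvPolynomial (Option (Fin 3)) ℝ} {D : ℕ} (h : F.totalDegree ≤ D)
    (i j : Fin 3) : (Sp m B F i j).totalDegree ≤ D + 2 := by
  unfold Sp
  refine (totalDegree_sub _ _).trans (max_le (deg_vf (deg_vf h j) i) ?_)
  refine (totalDegree_mul _ _).trans ?_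
  rw [totalDegree_C, zero_add]
  exact (totalDegree_pdσ h _).trans (by omega)

theorem deg_sig {P : Fin 3 → Fin 3 → ℝ} {X Y : Fin 3 → ℝ} {F : MvPolynomial (Option (Fin 3)) ℝ}
    {D : ℕ} (h : F.totalDegree ≤ D) : (sig P X Y m B F).totalDegree ≤ D + 2 := by
  unfold sig
  refine (totalDegree_mul _ _).trans ?_
  rw [totalDegree_C, zero_add]
  refine totalDegree_finsetSum_le fun i _ => totalDegree_finsetSum_le fun j _ => ?_
  refine (totalDegree_mul _ _).trans ?_
  rw [totalDegree_C, zero_add]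
  exact deg_Sp h i j

theorem eval_Sp (F : MvPolynomial (Option (Fin 3)) ℝ) (b : Option (Fin 3) → ℝ) (i j : Fin 3) :
    eval b (Sp m B F i j) = vv m B F b i j - om B i j * eval b (pderiv none F) := by
  unfold Sp vv
  rw [map_sub, map_mul, eval_C]

theorem eval_sig (P : Fin 3 → Fin 3 → ℝ) (X Y : Fin 3 → ℝ) (F : MvPolynomial (Option (Fin 3)) ℝ)
    (b : Option (Fin 3) → ℝ) : eval b (sig P X Y m B F) =
      Five.tau P X Y * q2 (fun i j => eval b (Sp m B F i j)) (P 1) (P 2) := by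
  unfold sig q2
  rw [map_mul, eval_C, map_sum]
  congr 1
  refine Finset.sum_congr rfl fun i _ => ?_
  rw [map_sum]
  refine Finset.sum_congr rfl fun j _ => ?_
  rw [map_mul, eval_C]
  ring

variable {P : Fin 3 → Fin 3 → ℝ} {X Y : Fin 3 → ℝ} {i₀ j₀ : Fin 3} {T : ℝ}

/-- **A polynomial with small horizontal derivatives is almost constant.** -/
theorem hor_all (D : ℕ) : ∃ C : ℝ, 1 ≤ C ∧ ∀ {P : Fin 3 → Fin 3 → ℝ} {X Y m : Fin 3 → ℝ}
    {B : Fin 3 → Fin 3 → ℝ} {i₀ j₀ : Fin 3} {T ε : ℝ} {G : MvPolynomial (Option (Fin 3)) ℝ},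
    Hei P X Y m B i₀ j₀ T → G.totalDegree ≤ D →
    (∀ b : Option (Fin 3) → ℝ, (∀ o, |b o| ≤ 1) → ∀ w, |eval b (vf m B w G)| ≤ ε) →
    ∀ b : Option (Fin 3) → ℝ, (∀ o, |b o| ≤ 1) → ∀ o, |eval b (pderiv o G)| ≤ C * T ^ 3 * ε := by
  obtain ⟨C, hC, hmk⟩ := mk_box (D + 1)
  refine ⟨50 * C, by linarith, ?_⟩
  intro P X Y m B i₀ j₀ T ε G h hG hv b hb
  have hT1 := h.one
  have hT0 : 0 ≤ T := zero_le_one.trans hT1
  have hε0 : 0 ≤ ε := (abs_nonneg _).trans (hv b hb 0)
  have h1 : ∀ v w, |eval b (vf m B v (vf m B w G))| ≤ 5 * T * (C * ε) := fun v w =>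
    vf_box hT1 h.hm h.hB (hmk (deg_vf hG w) (fun b hb => hv b hb w)) hb v
  have h2 : |(B i₀ j₀ - B j₀ i₀) * eval b (pderiv none G)| ≤ 10 * T * (C * ε) := by
    have e := congrArg (eval b) (vf_comm (m := m) (B := B) i₀ j₀ G)
    rw [map_sub, map_mul, eval_C] at e
    rw [← e]
    refine (abs_sub _ _).trans ?_
    linarith [h1 i₀ j₀, h1 j₀ i₀]
  have h3 : |eval b (pderiv none G)| ≤ 10 * C * T ^ 2 * ε := by
    rw [abs_mul] at h2
    calc |eval b (pderiv none G)| ≤ T * |B i₀ j₀ - B j₀ i₀| * |eval b (pderiv none G)| :=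
          le_mul_of_one_le_left (abs_nonneg _) h.hom
      _ = T * (|B i₀ j₀ - B j₀ i₀| * |eval b (pderiv none G)|) := by ring
      _ ≤ T * (10 * T * (C * ε)) := mul_le_mul_of_nonneg_left h2 hT0
      _ = _ := by ring
  have hTC : C * T ^ 2 * ε ≤ C * T ^ 3 * ε :=
    mul_le_mul_of_nonneg_right (mul_le_mul_of_nonneg_left (pow_le_pow_right₀ hT1 (by norm_num))
      (by linarith)) hε0
  have hC3 : 0 ≤ C * T ^ 3 * ε := by positivity
  intro o
  cases o with
  | none => linarith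
  | some j =>
    have h4 := hv b hb j
    rw [eval_vf] at h4
    have h5 := mf_le h.hm h.hB hb j
    have h6 : |(m j + ∑ i, B i j * b (some i)) * eval b (pderiv none G)| ≤
        4 * T * (10 * C * T ^ 2 * ε) := by
      rw [abs_mul]
      exact mul_le_mul h5 h3 (abs_nonneg _) (by positivity)
    have e : eval b (pderiv (some j) G) = (eval b (pderiv (some j) G) +
        (m j + ∑ i, B i j * b (some i)) * eval b (pderiv none G)) -
        (m j + ∑ i, B i j * b (some i)) * eval b (pderiv none G) := by ring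
    rw [e]
    refine (abs_sub _ _).trans ?_
    have h7 : ε ≤ C * T ^ 3 * ε := le_mul_of_one_le_left hε0
      (one_le_mul_of_one_le_of_one_le hC (one_le_pow₀ hT1))
    have e2 : 4 * T * (10 * C * T ^ 2 * ε) = 40 * (C * T ^ 3 * ε) := by ring
    rw [e2] at h6
    linarith

/-- The remainder. -/
noncomputable def Rm (P : Fin 3 → Fin 3 → ℝ) (X Y : Fin 3 → ℝ) (m : Fin 3 → ℝ)
    (B : Fin 3 → Fin 3 → ℝ) (F : MvPolynomial (Option (Fin 3)) ℝ) (i j : Fin 3) :
    MvPolynomial (Option (Fin 3)) ℝ := Sp m B F i j - C (cqm P X Y i j) * sig P X Y m B F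

/-- **The remainder is small.** -/
theorem Rm_le (h : Hei P X Y m B i₀ j₀ T) {F : MvPolynomial (Option (Fin 3)) ℝ} {ε : ℝ}
    {b : Option (Fin 3) → ℝ} (hP : ∀ i, |q2 (vv m B F b) (P i) (P i)| ≤ ε)
    (hX : |q2 (vv m B F b) X X| ≤ ε) (hY : |q2 (vv m B F b) Y Y| ≤ ε) (i j : Fin 3) :
    |eval b (Rm P X Y m B F i j)| ≤ 2 ^ 20 * T ^ 22 * ε := by
  have h1 : ∀ Z, q2 (fun i j => eval b (Sp m B F i j)) Z Z = q2 (vv m B F b) Z Z := by
    intro Z
    simp only [eval_Sp]
    exact q2_om _ _ Z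
  have h2 := h.toFive.con5 (S := fun i j => eval b (Sp m B F i j)) (ε := ε)
    (fun i j => by rw [Sp_symm]) (fun i => by rw [h1]; exact hP i) (by rw [h1]; exact hX)
    (by rw [h1]; exact hY) i j
  unfold Rm
  rw [map_sub, map_mul, eval_C, eval_sig]
  have e : cqm P X Y i j * (Five.tau P X Y * q2 (fun i j => eval b (Sp m B F i j)) (P 1) (P 2)) =
      Five.tau P X Y * q2 (fun i j => eval b (Sp m B F i j)) (P 1) (P 2) * cqm P X Y i j := by ring
  rw [e]
  exact h2

/-- **The integrability equation.** -/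
theorem ei_eq (F : MvPolynomial (Option (Fin 3)) ℝ) (b : Option (Fin 3) → ℝ) (w y z : Fin 3) :
    Ei (cqm P X Y) (om B) (fun w => eval b (vf m B w (sig P X Y m B F)))
      (fun w => eval b (vf m B w (pderiv none F))) w y z =
      eval b (vf m B y (Rm P X Y m B F w z)) - eval b (vf m B w (Rm P X Y m B F y z)) := by
  have h1 : ∀ w y z, vf m B w (Rm P X Y m B F y z) = vf m B w (vf m B y (vf m B z F)) -
      C (om B y z) * vf m B w (pderiv none F) -
      C (cqm P X Y y z) * vf m B w (sig P X Y m B F) := by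
    intro w y z
    unfold Rm Sp
    rw [vf_sub, vf_sub, vf_C_mul, vf_C_mul]
  have h2 := congrArg (eval b) (vf_comm (m := m) (B := B) w y (vf m B z F))
  rw [vf_none] at h2
  simp only [map_sub, map_mul, eval_C] at h2
  rw [h1, h1]
  simp only [map_sub, map_mul, eval_C]
  unfold Ei
  have h3 : B w y - B y w = 2 * om B w y := by
    unfold om
    ring
  rw [h3] at h2
  linear_combination h2

theorem cqm_symm (P : Fin 3 → Fin 3 → ℝ) (X Y : Fin 3 → ℝ) (i j : Fin 3) :
    cqm P X Y i j = cqm P X Y j i := cq_symm P X Y (eb i) (eb j)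

theorem om_anti (B : Fin 3 → Fin 3 → ℝ) (i j : Fin 3) : om B i j = -om B j i := by
  unfold om
  ring

/-- **The coefficients are almost constant.** -/
theorem con_flat (D : ℕ) : ∃ C : ℝ, 1 ≤ C ∧ ∀ {P : Fin 3 → Fin 3 → ℝ} {X Y m : Fin 3 → ℝ}
    {B : Fin 3 → Fin 3 → ℝ} {i₀ j₀ : Fin 3} {T ε : ℝ} {F : MvPolynomial (Option (Fin 3)) ℝ},
    Hei P X Y m B i₀ j₀ T → F.totalDegree ≤ D →
    (∀ b : Option (Fin 3) → ℝ, (∀ o, |b o| ≤ 1) → (∀ i, |q2 (vv m B F b) (P i) (P i)| ≤ ε) ∧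
      |q2 (vv m B F b) X X| ≤ ε ∧ |q2 (vv m B F b) Y Y| ≤ ε) →
    ∀ b : Option (Fin 3) → ℝ, (∀ o, |b o| ≤ 1) →
      (∀ o, |eval b (pderiv o (sig P X Y m B F))| ≤ C * T ^ 298 * ε) ∧
      (∀ o, |eval b (pderiv o (pderiv none F))| ≤ C * T ^ 298 * ε) ∧
      ∀ i j, |eval b (Rm P X Y m B F i j)| ≤ 2 ^ 20 * T ^ 22 * ε := by
  obtain ⟨C₁, hC₁, hmk⟩ := mk_box (D + 2)
  obtain ⟨C₂, hC₂, hall⟩ := hor_all (D + 2)
  refine ⟨C₂ * (12003 * (2 ^ 20) ^ 17 * (10 * C₁ * 2 ^ 20)), by nlinarith, ?_⟩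
  intro P X Y m B i₀ j₀ T ε F h hF hq
  have hT1 := h.one
  have hT0 : 0 ≤ T := zero_le_one.trans hT1
  have hε0 : 0 ≤ ε := (abs_nonneg _).trans (hq 0 (by simp)).2.1
  have hR : ∀ b : Option (Fin 3) → ℝ, (∀ o, |b o| ≤ 1) → ∀ i j,
      |eval b (Rm P X Y m B F i j)| ≤ 2 ^ 20 * T ^ 22 * ε := fun b hb i j =>
    Rm_le h (hq b hb).1 (hq b hb).2.1 (hq b hb).2.2 i j
  have hRd : ∀ i j, (Rm P X Y m B F i j).totalDegree ≤ D + 2 := by
    intro i j
    unfold Rm
    refine (totalDegree_sub _ _).trans (max_le (deg_Sp hF i j) ?_)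
    refine (totalDegree_mul _ _).trans ?_
    rw [totalDegree_C, zero_add]
    exact deg_sig hF
  have hRv : ∀ b : Option (Fin 3) → ℝ, (∀ o, |b o| ≤ 1) → ∀ w i j,
      |eval b (vf m B w (Rm P X Y m B F i j))| ≤ 5 * T * (C₁ * (2 ^ 20 * T ^ 22 * ε)) :=
    fun b hb w i j => vf_box hT1 h.hm h.hB (hmk (hRd i j) (fun b hb => hR b hb i j)) hb w
  obtain ⟨T', hT'⟩ : ∃ T' : ℝ, T' = 2 ^ 20 * T ^ 16 := ⟨_, rfl⟩
  have hTT : T ≤ T ^ 16 := by
    calc T = T ^ 1 := (pow_one T).symm
      _ ≤ T ^ 16 := pow_le_pow_right₀ hT1 (by norm_num)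
  have hT16 : 1 ≤ T ^ 16 := one_le_pow₀ hT1
  have hTT' : 2 * T ≤ T' := by rw [hT']; nlinarith
  have hT'1 : 1 ≤ T' := by rw [hT']; nlinarith
  obtain ⟨ε₂, hε₂⟩ : ∃ ε₂ : ℝ, ε₂ = 10 * T * (C₁ * (2 ^ 20 * T ^ 22 * ε)) := ⟨_, rfl⟩
  have hε₂0 : 0 ≤ ε₂ := by rw [hε₂]; positivity
  obtain ⟨ε₃, hε₃⟩ : ∃ ε₃ : ℝ, ε₃ = 12003 * T' ^ 17 * ε₂ := ⟨_, rfl⟩
  have hcon : ∀ b : Option (Fin 3) → ℝ, (∀ o, |b o| ≤ 1) →
      (∀ w, |eval b (vf m B w (sig P X Y m B F))| ≤ ε₃) ∧
      ∀ w, |eval b (vf m B w (pderiv none F))| ≤ ε₃ := by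
    intro b hb
    have h1 := cub_con (Q := cqm P X Y) (Om := om B)
      (s := fun w => eval b (vf m B w (sig P X Y m B F)))
      (γ := fun w => eval b (vf m B w (pderiv none F))) (T := T') (ε := ε₂) (i₀ := i₀) (j₀ := j₀)
      hT'1 (cqm_symm P X Y) (om_anti B) (fun i j => by rw [hT']; exact h.toFive.cqm_le i j)
      (fun i j => by
        unfold om
        rw [abs_div, abs_two]
        have h2 := abs_sub (B i j) (B j i)
        have h3 := h.hB i j
        have h4 := h.hB j i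
        linarith)
      (h.toFive.le_det.trans (mul_le_mul_of_nonneg_right (by rw [hT']; nlinarith)
        (abs_nonneg _)))
      (by
        unfold om
        rw [abs_div, abs_two]
        have h2 := h.hom
        have h3 : 2 * T * |B i₀ j₀ - B j₀ i₀| ≤ T' * |B i₀ j₀ - B j₀ i₀| :=
          mul_le_mul_of_nonneg_right hTT' (abs_nonneg _)
        linarith)
      (fun w y z => by
        rw [ei_eq]
        refine (abs_sub _ _).trans ?_
        rw [hε₂]
        linarith [hRv b hb y w z, hRv b hb w y z])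
    refine ⟨fun w => (h1.1 w).trans ?_, fun w => (h1.2 w).trans (le_of_eq hε₃.symm)⟩
    rw [hε₃]
    have h2 : T' ^ 15 ≤ T' ^ 17 := pow_le_pow_right₀ hT'1 (by norm_num)
    have h3 : 0 ≤ T' ^ 15 := by positivity
    refine mul_le_mul_of_nonneg_right ?_ hε₂0
    linarith
  have hfin : C₂ * T ^ 3 * ε₃ =
      C₂ * (12003 * (2 ^ 20) ^ 17 * (10 * C₁ * 2 ^ 20)) * T ^ 298 * ε := by
    rw [hε₃, hε₂, hT']
    ring
  intro b hb
  refine ⟨fun o => ?_, fun o => ?_, hR b hb⟩
  · rw [← hfin]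
    exact hall h (deg_sig hF) (fun b hb w => (hcon b hb).1 w) b hb o
  · rw [← hfin]
    exact hall h ((totalDegree_pdσ hF none).trans (by omega)) (fun b hb w => (hcon b hb).2 w) b hb o

/-! ### The model -/

/-- An affine function of the base, based at `x`. -/
noncomputable def lnp (x : Option (Fin 3) → ℝ) (v : Fin 3 → ℝ) :
    MvPolynomial (Option (Fin 3)) ℝ := ∑ i, C (v i) * (MvPolynomial.X (some i) - C (x (some i)))

/-- A quadratic function of the base, based at `x`. -/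
noncomputable def qdp (x : Option (Fin 3) → ℝ) (A : Fin 3 → Fin 3 → ℝ) :
    MvPolynomial (Option (Fin 3)) ℝ := ∑ i, ∑ j, C (A i j) *
      ((MvPolynomial.X (some i) - C (x (some i))) * (MvPolynomial.X (some j) - C (x (some j))))

theorem pd_lnp (x : Option (Fin 3) → ℝ) (v : Fin 3 → ℝ) (k : Fin 3) :
    pderiv (some k) (lnp x v) = C (v k) := by
  classical
  unfold lnp
  rw [map_sum, Finset.sum_eq_single k]
  · rw [pderiv_C_mul, map_sub, pderiv_C, pderiv_X_self, sub_zero, mul_one]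
  · intro i _ hi
    rw [pderiv_C_mul, map_sub, pderiv_C,
      pderiv_X_of_ne (fun h => hi (Option.some_injective _ h)), sub_zero, mul_zero]
  · intro h
    exact absurd (Finset.mem_univ _) h

theorem pd_lnp_none (x : Option (Fin 3) → ℝ) (v : Fin 3 → ℝ) : pderiv none (lnp x v) = 0 := by
  classical
  unfold lnp
  rw [map_sum]
  refine Finset.sum_eq_zero fun i _ => ?_
  rw [pderiv_C_mul, map_sub, pderiv_C, pderiv_X_of_ne (by simp), sub_zero, mul_zero]

theorem pd_qdp (x : Option (Fin 3) → ℝ) (A : Fin 3 → Fin 3 → ℝ) (k : Fin 3) :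
    pderiv (some k) (qdp x A) = lnp x (fun i => A i k + A k i) := by
  classical
  have h1 : ∀ i : Fin 3, pderiv (some k) (MvPolynomial.X (some i) - C (x (some i)) :
      MvPolynomial (Option (Fin 3)) ℝ) = if i = k then 1 else 0 := by
    intro i
    rw [map_sub, pderiv_C, sub_zero]
    split_ifs with h
    · rw [h, pderiv_X_self]
    · exact pderiv_X_of_ne (fun h' => h (Option.some_injective _ h'))
  unfold qdp lnp
  simp only [map_sum, Derivation.leibniz, h1, smul_eq_mul, C_add]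
  fin_cases k <;> simp [Fin.sum_univ_three] <;> ring

theorem pd_qdp_none (x : Option (Fin 3) → ℝ) (A : Fin 3 → Fin 3 → ℝ) :
    pderiv none (qdp x A) = 0 := by
  classical
  have h1 : ∀ i : Fin 3, pderiv none (MvPolynomial.X (some i) - C (x (some i)) :
      MvPolynomial (Option (Fin 3)) ℝ) = 0 := by
    intro i
    rw [map_sub, pderiv_C, sub_zero]
    exact pderiv_X_of_ne (by simp)
  unfold qdp
  simp only [map_sum, Derivation.leibniz, h1]
  simp

theorem eval_lnp (x b : Option (Fin 3) → ℝ) (v : Fin 3 → ℝ) :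
    eval b (lnp x v) = ∑ i, v i * (b (some i) - x (some i)) := by
  unfold lnp
  simp

theorem eval_qdp (x b : Option (Fin 3) → ℝ) (A : Fin 3 → Fin 3 → ℝ) :
    eval b (qdp x A) = q2 A (fun i => b (some i) - x (some i)) (fun i => b (some i) -
      x (some i)) := by
  unfold qdp q2
  simp

/-- The slope in a base point. -/
noncomputable def mx (m : Fin 3 → ℝ) (B : Fin 3 → Fin 3 → ℝ) (x : Option (Fin 3) → ℝ) (j : Fin 3) :
    ℝ := m j + ∑ i, B i j * x (some i)

theorem mf_eq (x : Option (Fin 3) → ℝ) (j : Fin 3) :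
    mf m B j = C (mx m B x j) + lnp x (fun i => B i j) := by
  unfold mf lnp mx
  simp only [mul_sub, Finset.sum_sub_distrib, C_add, map_sum, C_mul]
  ring

/-- **The model.** -/
noncomputable def mdl (Q : Fin 3 → Fin 3 → ℝ) (m : Fin 3 → ℝ) (B : Fin 3 → Fin 3 → ℝ)
    (x : Option (Fin 3) → ℝ) (a : ℝ) (θ : Fin 3 → ℝ) (sg cc : ℝ) :
    MvPolynomial (Option (Fin 3)) ℝ :=
  C a + lnp x (fun j => θ j - cc * mx m B x j) +
    qdp x (fun i j => sg / 2 * Q i j - cc / 2 * B i j) +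
    C cc * (MvPolynomial.X none - C (x none))

theorem pd_mdl_none (Q : Fin 3 → Fin 3 → ℝ) (x : Option (Fin 3) → ℝ) (a : ℝ) (θ : Fin 3 → ℝ)
    (sg cc : ℝ) : pderiv none (mdl Q m B x a θ sg cc) = C cc := by
  unfold mdl
  rw [map_add, map_add, map_add, pderiv_C, pd_lnp_none, pd_qdp_none, pderiv_C_mul, map_sub,
    pderiv_C, pderiv_X_self]
  ring

theorem vf_mdl {Q : Fin 3 → Fin 3 → ℝ} (hQ : ∀ i j, Q i j = Q j i) (x : Option (Fin 3) → ℝ)
    (a : ℝ) (θ : Fin 3 → ℝ) (sg cc : ℝ) (j : Fin 3) :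
    vf m B j (mdl Q m B x a θ sg cc) = C (θ j) + lnp x (fun i => sg * Q i j + cc * om B i j) := by
  have h0 : pderiv (some j) (mdl Q m B x a θ sg cc) = C (θ j - cc * mx m B x j) +
      lnp x (fun i => (sg / 2 * Q i j - cc / 2 * B i j) + (sg / 2 * Q j i - cc / 2 * B j i)) := by
    have h2 : pderiv (some j) (MvPolynomial.X none - C (x none) :
        MvPolynomial (Option (Fin 3)) ℝ) = 0 := by
      rw [map_sub, pderiv_C, pderiv_X_of_ne (by simp), sub_zero]
    unfold mdl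
    rw [map_add, map_add, map_add, pderiv_C, pd_lnp, pd_qdp, pderiv_C_mul, h2]
    ring
  unfold vf
  rw [pd_mdl_none, h0, mf_eq x]
  have h1 : lnp x (fun i => sg * Q i j + cc * om B i j) =
      lnp x (fun i => (sg / 2 * Q i j - cc / 2 * B i j) + (sg / 2 * Q j i - cc / 2 * B j i)) +
        C cc * lnp x (fun i => B i j) := by
    unfold lnp
    rw [Finset.mul_sum, ← Finset.sum_add_distrib]
    refine Finset.sum_congr rfl fun i _ => ?_
    have e : sg * Q i j + cc * om B i j =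
        ((sg / 2 * Q i j - cc / 2 * B i j) + (sg / 2 * Q j i - cc / 2 * B j i)) + cc * B i j := by
      rw [hQ j i]
      unfold om
      ring
    dsimp only
    rw [e, C_add, C_mul (a := cc)]
    ring
  rw [h1, C_sub, C_mul]
  ring

theorem vf_aff (x : Option (Fin 3) → ℝ) (a : ℝ) (v : Fin 3 → ℝ) (i : Fin 3) :
    vf m B i (C a + lnp x v) = C (v i) := by
  unfold vf
  rw [map_add, map_add, pderiv_C, pderiv_C, pd_lnp, pd_lnp_none]
  ring

theorem eval_mdl (Q : Fin 3 → Fin 3 → ℝ) (x b : Option (Fin 3) → ℝ) (a : ℝ) (θ : Fin 3 → ℝ)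
    (sg cc : ℝ) : eval b (mdl Q m B x a θ sg cc) = a +
      ∑ j, θ j * (b (some j) - x (some j)) +
      sg / 2 * q2 Q (fun i => b (some i) - x (some i)) (fun i => b (some i) - x (some i)) +
      cc * (b none - x none - ∑ j, mx m B x j * (b (some j) - x (some j)) -
        q2 B (fun i => b (some i) - x (some i)) (fun i => b (some i) - x (some i)) / 2) := by
  unfold mdl
  simp only [map_add, map_sub, map_mul, eval_C, eval_X, eval_lnp, eval_qdp, q2,
    Fin.sum_univ_three]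
  ring

theorem deg_lnp (x : Option (Fin 3) → ℝ) (v : Fin 3 → ℝ) : (lnp x v).totalDegree ≤ 1 := by
  unfold lnp
  refine totalDegree_finsetSum_le fun i _ => ?_
  refine (totalDegree_mul _ _).trans ?_
  rw [totalDegree_C, zero_add]
  refine (totalDegree_sub _ _).trans ?_
  rw [totalDegree_X, totalDegree_C]
  omega

theorem deg_mdl (Q : Fin 3 → Fin 3 → ℝ) (x : Option (Fin 3) → ℝ) (a : ℝ) (θ : Fin 3 → ℝ)
    (sg cc : ℝ) : (mdl Q m B x a θ sg cc).totalDegree ≤ 2 := by
  have h1 : ∀ o : Option (Fin 3), (MvPolynomial.X o - C (x o) :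
      MvPolynomial (Option (Fin 3)) ℝ).totalDegree ≤ 1 := by
    intro o
    refine (totalDegree_sub _ _).trans ?_
    rw [totalDegree_X, totalDegree_C]
    omega
  unfold mdl
  refine (totalDegree_add _ _).trans (max_le ((totalDegree_add _ _).trans
    (max_le ((totalDegree_add _ _).trans (max_le ?_ ?_)) ?_)) ?_)
  · rw [totalDegree_C]
    omega
  · exact (deg_lnp _ _).trans (by omega)
  · unfold qdp
    refine totalDegree_finsetSum_le fun i _ => totalDegree_finsetSum_le fun j _ => ?_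
    refine (totalDegree_mul _ _).trans ?_
    rw [totalDegree_C, zero_add]
    refine (totalDegree_mul _ _).trans ?_
    have := h1 (some i)
    have := h1 (some j)
    omega
  · refine (totalDegree_mul _ _).trans ?_
    rw [totalDegree_C, zero_add]
    exact (h1 none).trans (by omega)

/-- **The polynomial is near the model**, based at any point of the unit box. -/
theorem hei_five (D : ℕ) : ∃ C : ℝ, 1 ≤ C ∧ ∀ {P : Fin 3 → Fin 3 → ℝ} {X Y m : Fin 3 → ℝ}
    {B : Fin 3 → Fin 3 → ℝ} {i₀ j₀ : Fin 3} {T ε : ℝ} {F : MvPolynomial (Option (Fin 3)) ℝ},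
    Hei P X Y m B i₀ j₀ T → F.totalDegree ≤ D →
    (∀ b : Option (Fin 3) → ℝ, (∀ o, |b o| ≤ 1) → (∀ i, |q2 (vv m B F b) (P i) (P i)| ≤ ε) ∧
      |q2 (vv m B F b) X X| ≤ ε ∧ |q2 (vv m B F b) Y Y| ≤ ε) →
    ∀ x b : Option (Fin 3) → ℝ, (∀ o, |x o| ≤ 1) → (∀ o, |b o| ≤ 1) →
      |eval b F - eval b (mdl (cqm P X Y) m B x (eval x F) (fun j => eval x (vf m B j F))
        (eval x (sig P X Y m B F)) (eval x (pderiv none F)))| ≤ C * T ^ 320 * ε := by
  obtain ⟨C₁, hC₁, hflat⟩ := con_flat D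
  obtain ⟨C₂, hC₂, hall⟩ := hor_all (D + 3)
  refine ⟨64 * C₂ ^ 2 * (2 ^ 24 * C₁), by nlinarith [one_le_pow₀ (n := 2) hC₂], ?_⟩
  intro P X Y m B i₀ j₀ T ε F h hF hq x b hx hb
  have hT1 := h.one
  have hT0 : 0 ≤ T := zero_le_one.trans hT1
  have hε0 : 0 ≤ ε := (abs_nonneg _).trans (hq 0 (by simp)).2.1
  obtain ⟨sg, hsg⟩ : ∃ sg, sg = eval x (sig P X Y m B F) := ⟨_, rfl⟩
  obtain ⟨cc, hcc⟩ : ∃ cc, cc = eval x (pderiv none F) := ⟨_, rfl⟩
  obtain ⟨θ, hθ⟩ : ∃ θ : Fin 3 → ℝ, θ = fun j => eval x (vf m B j F) := ⟨_, rfl⟩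
  obtain ⟨M, hM⟩ : ∃ M, M = mdl (cqm P X Y) m B x (eval x F) θ sg cc := ⟨_, rfl⟩
  rw [← hsg, ← hcc, ← hθ, ← hM]
  obtain ⟨ε', hε'⟩ : ∃ ε', ε' = C₁ * T ^ 298 * ε := ⟨_, rfl⟩
  have hε'0 : 0 ≤ ε' := by rw [hε']; positivity
  have hs : ∀ b : Option (Fin 3) → ℝ, (∀ o, |b o| ≤ 1) →
      |eval b (sig P X Y m B F) - sg| ≤ 8 * ε' := by
    intro b hb
    have h1 := box_const (fun b hb => (hflat h hF hq b hb).1) hx hb
    rw [hsg, hε']
    refine h1.trans (le_of_eq ?_)
    push_cast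
    ring
  have hc : ∀ b : Option (Fin 3) → ℝ, (∀ o, |b o| ≤ 1) →
      |eval b (pderiv none F) - cc| ≤ 8 * ε' := by
    intro b hb
    have h1 := box_const (fun b hb => (hflat h hF hq b hb).2.1) hx hb
    rw [hcc, hε']
    refine h1.trans (le_of_eq ?_)
    push_cast
    ring
  -- the second horizontal derivatives of the difference
  obtain ⟨ε₆, hε₆⟩ : ∃ ε₆, ε₆ = 2 ^ 24 * T ^ 16 * ε' := ⟨_, rfl⟩
  have hε₆0 : 0 ≤ ε₆ := by rw [hε₆]; positivity
  have h2 : ∀ b : Option (Fin 3) → ℝ, (∀ o, |b o| ≤ 1) → ∀ i j,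
      |eval b (vf m B i (vf m B j (F - M)))| ≤ ε₆ := by
    intro b hb i j
    have e : eval b (vf m B i (vf m B j (F - M))) = eval b (Rm P X Y m B F i j) +
        cqm P X Y i j * (eval b (sig P X Y m B F) - sg) +
        om B i j * (eval b (pderiv none F) - cc) := by
      rw [vf_sub, vf_sub, hM, vf_mdl (cqm_symm P X Y), vf_aff, map_sub, eval_C]
      unfold Rm Sp
      simp only [map_sub, map_mul, eval_C]
      ring
    rw [e]
    have k1 := (hflat h hF hq b hb).2.2 i j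
    have k2 : |cqm P X Y i j * (eval b (sig P X Y m B F) - sg)| ≤ 2 ^ 20 * T ^ 16 * (8 * ε') := by
      rw [abs_mul]
      exact mul_le_mul (h.toFive.cqm_le i j) (hs b hb) (abs_nonneg _) (by positivity)
    have k3 : |om B i j * (eval b (pderiv none F) - cc)| ≤ T * (8 * ε') := by
      rw [abs_mul]
      refine mul_le_mul ?_ (hc b hb) (abs_nonneg _) hT0
      unfold om
      rw [abs_div, abs_two]
      have k4 := abs_sub (B i j) (B j i)
      have k5 := h.hB i j
      have k6 := h.hB j i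
      linarith
    have k7 : T ^ 22 * ε ≤ T ^ 16 * ε' := by
      rw [hε']
      have e1 : T ^ 16 * (C₁ * T ^ 298 * ε) = C₁ * (T ^ 314 * ε) := by ring
      rw [e1]
      refine le_trans ?_ (le_mul_of_one_le_left (by positivity) hC₁)
      exact mul_le_mul_of_nonneg_right (pow_le_pow_right₀ hT1 (by norm_num)) hε0
    have k8 : T * ε' ≤ T ^ 16 * ε' := by
      refine mul_le_mul_of_nonneg_right ?_ hε'0
      calc T = T ^ 1 := (pow_one T).symm
        _ ≤ T ^ 16 := pow_le_pow_right₀ hT1 (by norm_num)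
    have k9 : 0 ≤ T ^ 16 * ε' := by positivity
    refine (abs_add_le _ _).trans ((add_le_add (abs_add_le _ _) le_rfl).trans ?_)
    have e2 : (2 : ℝ) ^ 20 * T ^ 22 * ε = 2 ^ 20 * (T ^ 22 * ε) := by ring
    have e3 : (2 : ℝ) ^ 20 * T ^ 16 * (8 * ε') = 2 ^ 20 * 8 * (T ^ 16 * ε') := by ring
    have e4 : T * (8 * ε') = 8 * (T * ε') := by ring
    rw [e2] at k1
    rw [e3] at k2
    rw [e4] at k3
    have e5 : ε₆ = 2 ^ 24 * (T ^ 16 * ε') := by rw [hε₆]; ring
    rw [e5]
    have p20 : (2 : ℝ) ^ 20 = 1048576 := by norm_num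
    have p24 : (2 : ℝ) ^ 24 = 16777216 := by norm_num
    rw [p20] at k1 k2
    rw [p24]
    linarith
  have hMd : (F - M).totalDegree ≤ D + 2 := by
    refine (totalDegree_sub _ _).trans (max_le (hF.trans (by omega)) ?_)
    rw [hM]
    exact (deg_mdl _ _ _ _ _ _).trans (by omega)
  have e8 : 2 * (((3 : ℕ) : ℝ) + 1) = 8 := by norm_num
  -- the first horizontal derivatives
  have h3 : ∀ b : Option (Fin 3) → ℝ, (∀ o, |b o| ≤ 1) → ∀ j,
      |eval b (vf m B j (F - M))| ≤ 8 * (C₂ * T ^ 3 * ε₆) := by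
    intro b hb j
    have k1 := box_const (hall (G := vf m B j (F - M)) h (deg_vf hMd j)
      (fun b hb w => h2 b hb w j)) hx hb
    have k2 : eval x (vf m B j (F - M)) = 0 := by
      rw [vf_sub, hM, vf_mdl (cqm_symm P X Y), map_sub, map_add, eval_C, eval_lnp, hθ]
      simp
    rw [k2, sub_zero, e8] at k1
    exact k1
  have h4 := box_const (hall (G := F - M) h (hMd.trans (by omega)) (fun b hb w => h3 b hb w)) hx hb
  have h5 : eval x (F - M) = 0 := by
    rw [map_sub, hM, eval_mdl]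
    simp [q2]
  rw [h5, sub_zero, e8, map_sub] at h4
  refine h4.trans (le_of_eq ?_)
  rw [hε₆, hε']
  ring

/-- **A sixth direction.** -/
theorem sig_six (h : Five P X Y T) {F : MvPolynomial (Option (Fin 3)) ℝ} {ε : ℝ}
    {b : Option (Fin 3) → ℝ} {Z : Fin 3 → ℝ} (hZ : ∀ j, |Z j| ≤ T)
    (hR : ∀ i j, |eval b (Rm P X Y m B F i j)| ≤ 2 ^ 20 * T ^ 22 * ε)
    (hq : |q2 (vv m B F b) Z Z| ≤ ε) :
    |eval b (sig P X Y m B F) * cq P X Y Z Z| ≤ 2 ^ 24 * T ^ 24 * ε := by
  have hT1 := h.one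
  have hT0 : 0 ≤ T := zero_le_one.trans hT1
  have hε0 : 0 ≤ ε := (abs_nonneg _).trans hq
  have e : eval b (sig P X Y m B F) * cq P X Y Z Z = q2 (vv m B F b) Z Z -
      q2 (fun i j => eval b (Rm P X Y m B F i j)) Z Z := by
    rw [← q2_cqm, ← q2_om (B := B) (eval b (pderiv none F)) (vv m B F b)]
    unfold Rm
    simp only [map_sub, map_mul, eval_C, eval_Sp, q2, Fin.sum_univ_three]
    ring
  rw [e]
  have h1 : |q2 (fun i j => eval b (Rm P X Y m B F i j)) Z Z| ≤ 9 * (2 ^ 20 * T ^ 24 * ε) := by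
    unfold q2
    refine (Finset.abs_sum_le_sum_abs _ _).trans ?_
    have h2 : ∀ i j, |eval b (Rm P X Y m B F i j) * (Z i * Z j)| ≤ 2 ^ 20 * T ^ 24 * ε := by
      intro i j
      rw [abs_mul, abs_mul]
      calc _ ≤ 2 ^ 20 * T ^ 22 * ε * (T * T) := mul_le_mul (hR i j)
            (mul_le_mul (hZ i) (hZ j) (abs_nonneg _) hT0) (by positivity) (by positivity)
        _ = _ := by ring
    refine (Finset.sum_le_sum fun i _ => (Finset.abs_sum_le_sum_abs _ _).trans
      (Finset.sum_le_sum fun j _ => h2 i j)).trans (le_of_eq ?_)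
    simp only [Finset.sum_const, Finset.card_univ, Fintype.card_fin, nsmul_eq_mul]
    push_cast
    ring
  have h3 : ε ≤ T ^ 24 * ε := le_mul_of_one_le_left hε0 (one_le_pow₀ hT1)
  have h4 : 0 ≤ T ^ 24 * ε := by positivity
  refine (abs_sub _ _).trans ?_
  have e2 : 9 * (2 ^ 20 * T ^ 24 * ε) = 9 * 2 ^ 20 * (T ^ 24 * ε) := by ring
  have e3 : 2 ^ 24 * T ^ 24 * ε = 2 ^ 24 * (T ^ 24 * ε) := by ring
  rw [e2] at h1
  rw [e3]
  have p20 : (2 : ℝ) ^ 20 = 1048576 := by norm_num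
  have p24 : (2 : ℝ) ^ 24 = 16777216 := by norm_num
  rw [p20] at h1
  rw [p24]
  linarith

end Pool.CUB46
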