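import Pool.Agent.H46.D2.Hei

/-!
# Polynomials which are almost affine along five directions

`flat_five`: if the second derivatives of a polynomial on `ℝ³` along five directions, no three of
them in a plane, are small on the unit box, then the polynomial is near a quadratic polynomial
whose second derivative is a multiple of the conic of the five directions.
-/

set_option autoImplicit false

namespace Pool.CUB46

open Finset MvPolynomial
open Pool.GEN (totalDegree_pdσ)

section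

variable {σ : Type} (e : Fin 3 ≃ σ) (P : Fin 3 → Fin 3 → ℝ) (X Y : Fin 3 → ℝ)

/-- The second derivatives at a point. -/
noncomputable def hh (F : MvPolynomial σ ℝ) (b : σ → ℝ) (i j : Fin 3) : ℝ :=
  eval b (pderiv (e i) (pderiv (e j) F))

/-- The coefficient of the conic. -/
noncomputable def sg0 (F : MvPolynomial σ ℝ) (b : σ → ℝ) : ℝ :=
  Five.tau P X Y * q2 (hh e F b) (P 1) (P 2)

/-- The polynomial with one more variable. -/
noncomputable def up (F : MvPolynomial σ ℝ) : MvPolynomial (Option (Fin 3)) ℝ :=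
  rename (fun o => some (e.symm o)) F

theorem up_inj : Function.Injective fun o : σ => (some (e.symm o) : Option (Fin 3)) :=
  (Option.some_injective _).comp e.symm.injective

theorem pd_up (F : MvPolynomial σ ℝ) (i : Fin 3) :
    pderiv (some i) (up e F) = up e (pderiv (e i) F) := by
  have h := pderiv_rename (up_inj e) (e i) F
  simp only [Equiv.symm_apply_apply] at h
  exact h

theorem pd_up_none (F : MvPolynomial σ ℝ) : pderiv none (up e F) = 0 := by
  classical
  refine pderiv_eq_zero_of_notMem_vars fun h => ?_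
  have h1 := vars_rename (fun o : σ => (some (e.symm o) : Option (Fin 3))) F h
  obtain ⟨o, _, ho⟩ := Finset.mem_image.1 h1
  exact absurd ho (by simp)

theorem eval_up (F : MvPolynomial σ ℝ) (b : Option (Fin 3) → ℝ) :
    eval b (up e F) = eval (fun o => b (some (e.symm o))) F := by
  unfold up
  rw [eval_rename]
  rfl

theorem deg_up {F : MvPolynomial σ ℝ} {D : ℕ} (h : F.totalDegree ≤ D) :
    (up e F).totalDegree ≤ D := (totalDegree_rename_le _ _).trans h

/-- A fixed contact structure. -/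
noncomputable def B1 (i j : Fin 3) : ℝ := if i = 0 ∧ j = 1 then 1 else 0

theorem vf_up (j : Fin 3) (F : MvPolynomial σ ℝ) :
    vf (fun _ => 0) B1 j (up e F) = up e (pderiv (e j) F) := by
  unfold vf
  rw [pd_up, pd_up_none, mul_zero, add_zero]

theorem vv_up (F : MvPolynomial σ ℝ) (b : Option (Fin 3) → ℝ) (i j : Fin 3) :
    vv (fun _ => 0) B1 (up e F) b i j = hh e F (fun o => b (some (e.symm o))) i j := by
  unfold vv hh
  rw [vf_up, vf_up, eval_up]

theorem sig_up (F : MvPolynomial σ ℝ) (b : Option (Fin 3) → ℝ) :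
    eval b (sig P X Y (fun _ => 0) B1 (up e F)) =
      sg0 e P X Y F (fun o => b (some (e.symm o))) := by
  rw [eval_sig]
  unfold sg0
  congr 2
  funext i j
  rw [eval_Sp, vv_up, pd_up_none, map_zero, mul_zero, sub_zero]

end

/-- The hypotheses with the fixed contact structure. -/
theorem hei_fix {P : Fin 3 → Fin 3 → ℝ} {X Y : Fin 3 → ℝ} {T : ℝ} (h : Five P X Y T) :
    Hei P X Y (fun _ => 0) B1 0 1 T where
  toFive := h
  hm := fun _ => by rw [abs_zero]; exact zero_le_one.trans h.one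
  hB := fun i j => by
    unfold B1
    have h1 := h.one
    split_ifs
    · rw [abs_one]
      exact h1
    · rw [abs_zero]
      linarith
  hom := by
    unfold B1
    have h1 := h.one
    simp
    exact h1

/-- **Almost affine along five directions.** -/
theorem flat_five (D : ℕ) : ∃ C : ℝ, 1 ≤ C ∧ ∀ {σ : Type} (e : Fin 3 ≃ σ)
    {P : Fin 3 → Fin 3 → ℝ} {X Y : Fin 3 → ℝ} {T ε : ℝ} {F : MvPolynomial σ ℝ},
    Five P X Y T → F.totalDegree ≤ D →
    (∀ b : σ → ℝ, (∀ o, |b o| ≤ 1) → (∀ i, |q2 (hh e F b) (P i) (P i)| ≤ ε) ∧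
      |q2 (hh e F b) X X| ≤ ε ∧ |q2 (hh e F b) Y Y| ≤ ε) →
    ∀ x b : σ → ℝ, (∀ o, |x o| ≤ 1) → (∀ o, |b o| ≤ 1) →
      |eval b F - (eval x F + ∑ j, eval x (pderiv (e j) F) * (b (e j) - x (e j)) +
        sg0 e P X Y F x / 2 * q2 (cqm P X Y) (fun i => b (e i) - x (e i))
          (fun i => b (e i) - x (e i)))| ≤ C * T ^ 320 * ε ∧
      |sg0 e P X Y F b - sg0 e P X Y F x| ≤ C * T ^ 320 * ε ∧
      (∀ j, |eval b (pderiv (e j) F) - (eval x (pderiv (e j) F) +
        sg0 e P X Y F x * ∑ i, cqm P X Y i j * (b (e i) - x (e i)))| ≤ C * T ^ 320 * ε) ∧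
      ∀ i j, |hh e F b i j - sg0 e P X Y F x * cqm P X Y i j| ≤ C * T ^ 320 * ε := by
  classical
  obtain ⟨C₁, hC₁, hflat⟩ := con_flat D
  obtain ⟨C₂, hC₂, hfive⟩ := hei_five D
  obtain ⟨C₃, hC₃, hmk⟩ := mk_box (D + 2)
  have hC₃2 : C₃ ≤ C₃ ^ 2 := by nlinarith
  refine ⟨8 * C₁ + C₃ ^ 2 * C₂, by nlinarith, ?_⟩
  intro σ e P X Y T ε F h hF hq x b hx hb
  have hT1 := h.one
  have hT0 : 0 ≤ T := zero_le_one.trans hT1
  have hε0 : 0 ≤ ε := (abs_nonneg _).trans (hq x hx).2.1
  have hH := hei_fix h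
  have hdU := deg_up e hF
  have hqU : ∀ b : Option (Fin 3) → ℝ, (∀ o, |b o| ≤ 1) →
      (∀ i, |q2 (vv (fun _ => 0) B1 (up e F) b) (P i) (P i)| ≤ ε) ∧
      |q2 (vv (fun _ => 0) B1 (up e F) b) X X| ≤ ε ∧
      |q2 (vv (fun _ => 0) B1 (up e F) b) Y Y| ≤ ε := by
    intro b hb
    have e1 : vv (fun _ => 0) B1 (up e F) b = hh e F (fun o => b (some (e.symm o))) := by
      funext i j
      exact vv_up e F b i j
    rw [e1]
    exact hq _ fun o => hb _
  -- lifts of points
  obtain ⟨up', hup'⟩ : ∃ up' : (σ → ℝ) → Option (Fin 3) → ℝ,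
      up' = fun b o => Option.elim o 0 fun i => b (e i) := ⟨_, rfl⟩
  have hu0 : ∀ b, up' b none = 0 := fun b => by rw [hup']; rfl
  have hus : ∀ b i, up' b (some i) = b (e i) := fun b i => by rw [hup']; rfl
  have hub : ∀ b : σ → ℝ, (∀ o, |b o| ≤ 1) → ∀ o, |up' b o| ≤ 1 := by
    intro b hb o
    cases o with
    | none => rw [hu0, abs_zero]; exact zero_le_one
    | some i => rw [hus]; exact hb _
  have hdn : ∀ b : σ → ℝ, (fun o => up' b (some (e.symm o))) = b := by
    intro b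
    funext o
    rw [hus, Equiv.apply_symm_apply]
  have hev : ∀ (b : σ → ℝ) (G : MvPolynomial σ ℝ), eval (up' b) (up e G) = eval b G := by
    intro b G
    rw [eval_up, hdn]
  have hsg : ∀ b : σ → ℝ, eval (up' b) (sig P X Y (fun _ => 0) B1 (up e F)) =
      sg0 e P X Y F b := by
    intro b
    rw [sig_up, hdn]
  obtain ⟨M, hM⟩ : ∃ M, M = mdl (cqm P X Y) (fun _ => 0) B1 (up' x) (eval x F)
      (fun j => eval x (pderiv (e j) F)) (sg0 e P X Y F x) 0 := ⟨_, rfl⟩
  have hfin : ∀ b : Option (Fin 3) → ℝ, (∀ o, |b o| ≤ 1) →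
      |eval b (up e F - M)| ≤ C₂ * T ^ 320 * ε := by
    intro b hb
    have h1 := hfive hH hdU hqU (up' x) b (hub x hx) hb
    have e1 : mdl (cqm P X Y) (fun _ => 0) B1 (up' x) (eval (up' x) (up e F))
        (fun j => eval (up' x) (vf (fun _ => 0) B1 j (up e F)))
        (eval (up' x) (sig P X Y (fun _ => 0) B1 (up e F)))
        (eval (up' x) (pderiv none (up e F))) = M := by
      rw [hM, hev, hsg, pd_up_none, map_zero]
      congr 1
      funext j
      rw [vf_up, hev]
    rw [e1, ← map_sub] at h1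
    exact h1
  have hMd : (up e F - M).totalDegree ≤ D + 2 := by
    refine (totalDegree_sub _ _).trans (max_le (hdU.trans (by omega)) ?_)
    rw [hM]
    exact (deg_mdl _ _ _ _ _ _).trans (by omega)
  have h1d := fun (b : Option (Fin 3) → ℝ) hb o => hmk hMd hfin b hb o
  have h2d := fun (b : Option (Fin 3) → ℝ) hb o o' =>
    hmk (totalDegree_pdσ hMd o') (fun b hb => h1d b hb o') b hb o
  have hpM : ∀ j, pderiv (some j) M = C (eval x (pderiv (e j) F)) +
      lnp (up' x) (fun i => sg0 e P X Y F x * cqm P X Y i j) := by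
    intro j
    have h1 := vf_mdl (m := fun _ => 0) (B := B1) (cqm_symm P X Y) (up' x) (eval x F)
      (fun j => eval x (pderiv (e j) F)) (sg0 e P X Y F x) 0 j
    rw [← hM] at h1
    have h2 : vf (fun _ => 0) B1 j M = pderiv (some j) M := by
      unfold vf
      rw [hM, pd_mdl_none, C_0, mul_zero, add_zero]
    rw [h2] at h1
    rw [h1]
    congr 2
    funext i
    ring
  have hT320 : 0 ≤ T ^ 320 * ε := by positivity
  have k1 : C₂ * T ^ 320 * ε ≤ (8 * C₁ + C₃ ^ 2 * C₂) * T ^ 320 * ε := by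
    have : C₂ ≤ 8 * C₁ + C₃ ^ 2 * C₂ := by nlinarith [one_le_pow₀ (n := 2) hC₃]
    rw [mul_assoc, mul_assoc]
    exact mul_le_mul_of_nonneg_right this hT320
  have k2 : C₃ * (C₂ * T ^ 320 * ε) ≤ (8 * C₁ + C₃ ^ 2 * C₂) * T ^ 320 * ε := by
    have : C₃ * C₂ ≤ 8 * C₁ + C₃ ^ 2 * C₂ := by nlinarith
    calc _ = C₃ * C₂ * (T ^ 320 * ε) := by ring
      _ ≤ (8 * C₁ + C₃ ^ 2 * C₂) * (T ^ 320 * ε) := mul_le_mul_of_nonneg_right this hT320
      _ = _ := by ring
  have k3 : C₃ * (C₃ * (C₂ * T ^ 320 * ε)) ≤ (8 * C₁ + C₃ ^ 2 * C₂) * T ^ 320 * ε := by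
    have : C₃ * (C₃ * C₂) ≤ 8 * C₁ + C₃ ^ 2 * C₂ := by nlinarith
    calc _ = C₃ * (C₃ * C₂) * (T ^ 320 * ε) := by ring
      _ ≤ (8 * C₁ + C₃ ^ 2 * C₂) * (T ^ 320 * ε) := mul_le_mul_of_nonneg_right this hT320
      _ = _ := by ring
  have hub' := hub b hb
  refine ⟨?_, ?_, fun j => ?_, fun i j => ?_⟩
  · have h1 := (hfin _ hub').trans k1
    rw [map_sub, hev, hM, eval_mdl] at h1
    simp only [hus] at h1
    rw [zero_mul, add_zero] at h1
    exact h1
  · have h1 := box_const (fun b hb => (hflat hH hdU hqU b hb).1) (hub x hx) hub'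
    rw [hsg, hsg] at h1
    refine h1.trans ?_
    have h2 : T ^ 298 * ε ≤ T ^ 320 * ε := by
      have h5 : (298 : ℕ) ≤ 320 := by norm_num
      have h4 := pow_le_pow_right₀ hT1 h5
      exact mul_le_mul_of_nonneg_right h4 hε0
    have h3 : 0 ≤ T ^ 298 * ε := mul_nonneg (pow_nonneg hT0 _) hε0
    calc 2 * (((3 : ℕ) : ℝ) + 1) * (C₁ * T ^ 298 * ε) = 8 * C₁ * (T ^ 298 * ε) := by
          push_cast
          ring
      _ ≤ (8 * C₁ + C₃ ^ 2 * C₂) * (T ^ 320 * ε) :=
          mul_le_mul (by nlinarith [mul_nonneg (sq_nonneg C₃) (zero_le_one.trans hC₂)]) h2 h3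
            (by nlinarith [mul_nonneg (sq_nonneg C₃) (zero_le_one.trans hC₂)])
      _ = _ := by ring
  · have h1 := (h1d _ hub' (some j)).trans k2
    rw [map_sub, pd_up, hpM, map_sub, map_add, eval_C, eval_lnp, hev] at h1
    simp only [hus] at h1
    have e1 : ∑ i, sg0 e P X Y F x * cqm P X Y i j * (b (e i) - x (e i)) =
        sg0 e P X Y F x * ∑ i, cqm P X Y i j * (b (e i) - x (e i)) := by
      rw [Finset.mul_sum]
      exact Finset.sum_congr rfl fun i _ => by ring
    rw [e1] at h1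
    exact h1
  · have h1 := (h2d _ hub' (some i) (some j)).trans k3
    rw [map_sub, pd_up, hpM, map_sub, pd_up, map_add, pderiv_C, pd_lnp, zero_add, map_sub,
      eval_C, hev] at h1
    exact h1

end Pool.CUB46
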