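import Mathlib.RingTheory.MvPolynomial.EulerIdentity
import Pool.Agent.H40.FR.Grid

/-!
# The potential of a covector field which is almost closed

`pot D om`: the potential of a polynomial covector field `om` of degree at most `D`. `pot_small`: if
the antisymmetric part of the derivative of `om` is small on the segment from `0` to `p`, then the
gradient of the potential is near `om` at `p`.
-/

set_option autoImplicit false

namespace Pool.CUB46

open Finset MvPolynomial

variable {n : ℕ}

/-- The averages: the homogeneous part of degree `m` is divided by `m + 1`. -/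
noncomputable def av (D : ℕ) (R : MvPolynomial (Fin n) ℝ) : MvPolynomial (Fin n) ℝ :=
  ∑ m ∈ range (D + 1), C (1 / ((m : ℝ) + 1)) * homogeneousComponent m R

/-- **The potential** of a polynomial covector field. -/
noncomputable def pot (D : ℕ) (om : Fin n → MvPolynomial (Fin n) ℝ) : MvPolynomial (Fin n) ℝ :=
  ∑ i, X i * av D (om i)

/-- The sum of the homogeneous parts. -/
theorem sum_hom {D : ℕ} {R : MvPolynomial (Fin n) ℝ} (h : R.totalDegree ≤ D) :
    ∑ m ∈ range (D + 1), homogeneousComponent m R = R := by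
  conv_rhs => rw [← sum_homogeneousComponent R]
  symm
  refine Finset.sum_subset (Finset.range_subset_range.2 (by omega)) fun m _ hm => ?_
  rw [Finset.mem_range, not_lt] at hm
  exact homogeneousComponent_eq_zero m R (by omega)

theorem eval_hom {k : ℕ} {φ : MvPolynomial (Fin n) ℝ} (h : φ.IsHomogeneous k) (s : ℝ)
    (p : Fin n → ℝ) : eval (fun i => s * p i) φ = s ^ k * eval p φ := by
  rw [MvPolynomial.eval_eq, MvPolynomial.eval_eq, Finset.mul_sum]
  refine Finset.sum_congr rfl fun d hd => ?_
  have h1 : d.degree = k := by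
    have := h (mem_support_iff.1 hd)
    rwa [Finsupp.degree_eq_weight_one]
  have h2 : ∏ i ∈ d.support, (s * p i) ^ d i = s ^ k * ∏ i ∈ d.support, p i ^ d i := by
    simp only [mul_pow]
    rw [Finset.prod_mul_distrib, Finset.prod_pow_eq_pow_sum]
    congr 2
  rw [h2]
  ring

/-- The derivatives of the potential. -/
theorem pd_pot {D : ℕ} {om : Fin n → MvPolynomial (Fin n) ℝ} (h : ∀ i, (om i).totalDegree ≤ D)
    (j : Fin n) : pderiv j (pot D om) = om j + ∑ m ∈ range (D + 1), C (1 / ((m : ℝ) + 1)) *
      ∑ i, X i * (pderiv j (homogeneousComponent m (om i)) -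
        pderiv i (homogeneousComponent m (om j))) := by
  have h1 : pderiv j (pot D om) = av D (om j) + ∑ i, X i * pderiv j (av D (om i)) := by
    unfold pot
    rw [map_sum]
    have h2 : ∀ i, pderiv j (X i * av D (om i)) =
        (if i = j then av D (om i) else 0) + X i * pderiv j (av D (om i)) := by
      intro i
      rw [Derivation.leibniz, smul_eq_mul, smul_eq_mul, add_comm]
      congr 1
      by_cases hij : i = j
      · rw [if_pos hij, hij, pderiv_X_self, mul_one]
      · rw [if_neg hij, pderiv_X_of_ne (Ne.symm fun h => hij h.symm), mul_zero]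
    rw [Finset.sum_congr rfl fun i _ => h2 i, Finset.sum_add_distrib, Finset.sum_ite_eq',
      if_pos (Finset.mem_univ _)]
  have h2 : ∀ i, pderiv j (av D (om i)) = ∑ m ∈ range (D + 1),
      C (1 / ((m : ℝ) + 1)) * pderiv j (homogeneousComponent m (om i)) := by
    intro i
    unfold av
    rw [map_sum]
    exact Finset.sum_congr rfl fun m _ => by rw [pderiv_C_mul]
  have h3 : om j = ∑ m ∈ range (D + 1), C (1 / ((m : ℝ) + 1)) *
      (homogeneousComponent m (om j) + ∑ i, X i * pderiv i (homogeneousComponent m (om j))) := by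
    conv_lhs => rw [← sum_hom (h j)]
    refine Finset.sum_congr rfl fun m _ => ?_
    rw [(homogeneousComponent_isHomogeneous m (om j)).sum_X_mul_pderiv]
    have h4 : homogeneousComponent m (om j) + m • homogeneousComponent m (om j) =
        C ((m : ℝ) + 1) * homogeneousComponent m (om j) := by
      rw [map_add, map_one, nsmul_eq_mul, add_mul, one_mul, add_comm]
      congr 2
    rw [h4, ← mul_assoc, ← map_mul]
    have h5 : (1 / ((m : ℝ) + 1)) * ((m : ℝ) + 1) = 1 := by
      have : (m : ℝ) + 1 ≠ 0 := by positivity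
      field_simp
    rw [h5, map_one, one_mul]
  obtain ⟨S, hS⟩ : ∃ S, S = ∑ m ∈ range (D + 1), C (1 / ((m : ℝ) + 1)) *
      ∑ i, X i * (pderiv j (homogeneousComponent m (om i)) -
        pderiv i (homogeneousComponent m (om j))) := ⟨_, rfl⟩
  rw [← hS]
  suffices hgoal : pderiv j (pot D om) = ∑ m ∈ range (D + 1), C (1 / ((m : ℝ) + 1)) *
      (homogeneousComponent m (om j) + ∑ i, X i * pderiv i (homogeneousComponent m (om j))) + S from
    hgoal.trans (by rw [← h3])
  rw [h1, Finset.sum_congr rfl fun i _ => by rw [h2 i], hS]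
  rw [← Finset.sum_add_distrib]
  have h6 : ∑ i, X i * ∑ m ∈ range (D + 1), C (1 / ((m : ℝ) + 1)) *
      pderiv j (homogeneousComponent m (om i)) = ∑ m ∈ range (D + 1), C (1 / ((m : ℝ) + 1)) *
      ∑ i, X i * pderiv j (homogeneousComponent m (om i)) := by
    simp only [Finset.mul_sum]
    rw [Finset.sum_comm]
    exact Finset.sum_congr rfl fun m _ => Finset.sum_congr rfl fun i _ => by ring
  rw [h6]
  unfold av
  rw [← Finset.sum_add_distrib]
  refine Finset.sum_congr rfl fun m _ => ?_
  rw [← mul_add, ← mul_add]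
  congr 1
  simp only [mul_sub, Finset.sum_sub_distrib]
  ring

theorem deg_av {D : ℕ} (R : MvPolynomial (Fin n) ℝ) : (av D R).totalDegree ≤ D := by
  unfold av
  refine totalDegree_finsetSum_le fun m hm => ?_
  refine (totalDegree_mul _ _).trans ?_
  rw [totalDegree_C, zero_add]
  exact (homogeneousComponent_isHomogeneous m R).totalDegree_le.trans
    (Nat.lt_succ_iff.1 (Finset.mem_range.1 hm))

theorem deg_pot {D : ℕ} (om : Fin n → MvPolynomial (Fin n) ℝ) :
    (pot D om).totalDegree ≤ D + 1 := by
  unfold pot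
  refine totalDegree_finsetSum_le fun i _ => ?_
  refine (totalDegree_mul _ _).trans ?_
  rw [totalDegree_X]
  have := deg_av (D := D) (om i)
  omega

/-- **The gradient of the potential is near the covector field.** -/
theorem pot_small (D n : ℕ) : ∃ C₀ : ℝ, 1 ≤ C₀ ∧ ∀ {om : Fin n → MvPolynomial (Fin n) ℝ}
    {p : Fin n → ℝ} {ε : ℝ}, (∀ i, (om i).totalDegree ≤ D) → (∀ i, |p i| ≤ 1) →
    (∀ s ∈ Set.Icc (0 : ℝ) 1, ∀ i j, |eval (fun i => s * p i) (pderiv j (om i)) -
      eval (fun i => s * p i) (pderiv i (om j))| ≤ ε) →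
    ∀ j, |eval p (pderiv j (pot D om)) - eval p (om j)| ≤ C₀ * ε := by
  obtain ⟨C₁, hC₁, hco⟩ := Pool.Agent.H40.FR.unit_coef D
  refine ⟨(D + 1) * (C₁ * n) + 1, by
    have : 0 ≤ ((D : ℝ) + 1) * (C₁ * n) := by positivity
    linarith, ?_⟩
  intro om p ε hD hp hε j
  have hε0 : 0 ≤ ε := (abs_nonneg _).trans (hε 0 ⟨le_rfl, zero_le_one⟩ j j)
  obtain ⟨R, hR⟩ : ∃ R : ℕ → ℝ, R = fun m => eval p (∑ i, X i *
      (pderiv j (homogeneousComponent m (om i)) - pderiv i (homogeneousComponent m (om j)))) :=
    ⟨_, rfl⟩
  have h1 : eval p (pderiv j (pot D om)) - eval p (om j) =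
      ∑ m ∈ range (D + 1), 1 / ((m : ℝ) + 1) * R m := by
    rw [pd_pot hD j, map_add, add_sub_cancel_left, map_sum]
    exact Finset.sum_congr rfl fun m _ => by rw [map_mul, eval_C, hR]
  obtain ⟨q, hq⟩ : ∃ q : Polynomial ℝ, q = ∑ m ∈ range (D + 1),
      Polynomial.C (R m) * Polynomial.X ^ m := ⟨_, rfl⟩
  have hqd : q.natDegree ≤ D := by
    rw [hq]
    refine Polynomial.natDegree_sum_le_of_forall_le _ _ fun m hm => ?_
    exact (Polynomial.natDegree_C_mul_X_pow_le _ _).trans (Nat.lt_succ_iff.1 (Finset.mem_range.1 hm))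
  have hqc : ∀ m < D + 1, q.coeff m = R m := by
    intro m hm
    rw [hq, Polynomial.finsetSum_coeff, Finset.sum_eq_single m]
    · rw [Polynomial.coeff_C_mul, Polynomial.coeff_X_pow, if_pos rfl, mul_one]
    · intro k _ hk
      rw [Polynomial.coeff_C_mul, Polynomial.coeff_X_pow, if_neg (Ne.symm hk), mul_zero]
    · intro h
      exact absurd (Finset.mem_range.2 hm) h
  have hqe : ∀ s, q.eval s = s * ∑ i, p i * (eval (fun i => s * p i) (pderiv j (om i)) -
      eval (fun i => s * p i) (pderiv i (om j))) := by
    intro s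
    have h2 : ∀ i k, eval (fun i => s * p i) (pderiv k (om i)) = ∑ m ∈ range (D + 1),
        eval (fun i => s * p i) (pderiv k (homogeneousComponent m (om i))) := by
      intro i k
      conv_lhs => rw [← sum_hom (hD i)]
      rw [map_sum, map_sum]
    have h3 : ∀ i k m, s * eval (fun i => s * p i) (pderiv k (homogeneousComponent m (om i))) =
        s ^ m * eval p (pderiv k (homogeneousComponent m (om i))) := by
      intro i k m
      cases m with
      | zero =>
        rw [homogeneousComponent_zero, pderiv_C, map_zero, map_zero]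
        ring
      | succ m =>
        have h4 := (homogeneousComponent_isHomogeneous (m + 1) (om i)).pderiv (i := k)
        rw [Nat.add_sub_cancel] at h4
        rw [eval_hom h4 s p, pow_succ]
        ring
    rw [hq, Polynomial.eval_finsetSum]
    have h5 : s * ∑ i, p i * (eval (fun i => s * p i) (pderiv j (om i)) -
        eval (fun i => s * p i) (pderiv i (om j))) = ∑ i, p i * ∑ m ∈ range (D + 1),
        (s * eval (fun i => s * p i) (pderiv j (homogeneousComponent m (om i))) -
          s * eval (fun i => s * p i) (pderiv i (homogeneousComponent m (om j)))) := by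
      rw [Finset.mul_sum]
      refine Finset.sum_congr rfl fun i _ => ?_
      rw [h2, h2, ← Finset.sum_sub_distrib]
      have : ∀ x : ℝ, s * (p i * x) = p i * (s * x) := fun x => by ring
      rw [this, Finset.mul_sum]
      congr 1
      exact Finset.sum_congr rfl fun m _ => by ring
    rw [h5]
    have h6 : ∀ m ∈ range (D + 1), (Polynomial.C (R m) * Polynomial.X ^ m).eval s =
        ∑ i, p i * (s ^ m * eval p (pderiv j (homogeneousComponent m (om i))) -
          s ^ m * eval p (pderiv i (homogeneousComponent m (om j)))) := by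
      intro m _
      rw [Polynomial.eval_mul, Polynomial.eval_C, Polynomial.eval_pow, Polynomial.eval_X, hR]
      show eval p (∑ i, X i * (pderiv j (homogeneousComponent m (om i)) -
        pderiv i (homogeneousComponent m (om j)))) * s ^ m = _
      rw [map_sum, Finset.sum_mul]
      refine Finset.sum_congr rfl fun i _ => ?_
      rw [map_mul, eval_X, map_sub]
      ring
    rw [Finset.sum_congr rfl h6, Finset.sum_comm]
    refine Finset.sum_congr rfl fun i _ => ?_
    rw [← Finset.mul_sum]
    congr 1
    exact Finset.sum_congr rfl fun m _ => by rw [h3, h3]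
  have hqb : ∀ s ∈ Set.Icc (0 : ℝ) 1, |q.eval s| ≤ n * ε := by
    intro s hs
    rw [hqe, abs_mul, abs_of_nonneg hs.1]
    have h2 : |∑ i, p i * (eval (fun i => s * p i) (pderiv j (om i)) -
        eval (fun i => s * p i) (pderiv i (om j)))| ≤ n * ε := by
      refine (Finset.abs_sum_le_sum_abs _ _).trans ?_
      have h3 : ∀ i ∈ (Finset.univ : Finset (Fin n)), |p i * (eval (fun i => s * p i)
          (pderiv j (om i)) - eval (fun i => s * p i) (pderiv i (om j)))| ≤ ε := by
        intro i _
        rw [abs_mul]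
        calc |p i| * _ ≤ 1 * ε := mul_le_mul (hp i) (hε s hs i j) (abs_nonneg _) zero_le_one
          _ = ε := one_mul ε
      refine (Finset.sum_le_sum h3).trans (le_of_eq ?_)
      rw [Finset.sum_const, Finset.card_univ, Fintype.card_fin, nsmul_eq_mul]
    calc s * _ ≤ 1 * (n * ε) := mul_le_mul hs.2 h2 (abs_nonneg _) zero_le_one
      _ = n * ε := one_mul _
  have hRb : ∀ m < D + 1, |R m| ≤ C₁ * (n * ε) := by
    intro m hm
    rw [← hqc m hm]
    exact hco q (n * ε) hqd hqb m
  rw [h1]
  refine (Finset.abs_sum_le_sum_abs _ _).trans ?_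
  have h2 : ∀ m ∈ range (D + 1), |1 / ((m : ℝ) + 1) * R m| ≤ C₁ * (n * ε) := by
    intro m hm
    rw [abs_mul, abs_of_pos (by positivity)]
    have h3 : 1 / ((m : ℝ) + 1) ≤ 1 := by
      rw [div_le_one (by positivity)]
      have : (0 : ℝ) ≤ m := Nat.cast_nonneg m
      linarith
    calc 1 / ((m : ℝ) + 1) * |R m| ≤ 1 * (C₁ * (n * ε)) :=
          mul_le_mul h3 (hRb m (Finset.mem_range.1 hm)) (abs_nonneg _) zero_le_one
      _ = _ := one_mul _
  refine (Finset.sum_le_sum h2).trans ?_
  rw [Finset.sum_const, Finset.card_range, nsmul_eq_mul]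
  push_cast
  nlinarith

end Pool.CUB46
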