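import Pool.Agent.H46.D2.Hei0
import Pool.Agent.H71.GEN.Poly

/-!
# A polynomial on the graph of a chart

`phi F g`: the polynomial `F (p, g (p))`. `t2_core`: if a path in the direction `X` is straight for `F`
and near the graph of `g`, then the second derivative of `F (p, g (p))` in the direction `X` is
bounded.
-/

set_option autoImplicit false

namespace Pool.CUB46

open Finset MvPolynomial
open Pool.GEN (pd_aeval eval_aevalσ totalDegree_aevalσ)

variable {σ : Type}

/-- The derivatives commute. -/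
theorem pd_commσ {τ : Type} (o o' : τ) (R : MvPolynomial τ ℝ) :
    pderiv o (pderiv o' R) = pderiv o' (pderiv o R) := by
  classical
  induction R using MvPolynomial.induction_on with
  | C a => simp
  | add p q hp hq => rw [map_add, map_add, map_add, map_add, hp, hq]
  | mul_X p j hp =>
    have hX : ∀ i i' : τ, pderiv i (pderiv i' (MvPolynomial.X j : MvPolynomial τ ℝ)) = 0 := by
      intro i i'
      rw [pderiv_X]
      by_cases h : i' = j
      · rw [h, Pi.single_eq_same, pderiv_one]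
      · rw [Pi.single_eq_of_ne (Ne.symm h), map_zero]
    rw [pderiv_mul, pderiv_mul, map_add, map_add, pderiv_mul, pderiv_mul, pderiv_mul, pderiv_mul,
      hX, hX, hp]
    ring

/-- The polynomial on the graph of `g`. -/
noncomputable def phi (F : MvPolynomial (Option σ) ℝ) (g : MvPolynomial σ ℝ) : MvPolynomial σ ℝ :=
  aeval (fun o : Option σ => Option.elim o g MvPolynomial.X) F

/-- The point of the graph. -/
noncomputable def gpt (g : MvPolynomial σ ℝ) (p : σ → ℝ) : Option σ → ℝ :=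
  fun o => Option.elim o (eval p g) p

theorem eval_phi (F : MvPolynomial (Option σ) ℝ) (g : MvPolynomial σ ℝ) (p : σ → ℝ) :
    eval p (phi F g) = eval (gpt g p) F := by
  unfold phi
  rw [eval_aevalσ]
  congr 1
  congr 1
  funext o
  cases o with
  | none => rfl
  | some i => exact eval_X i

theorem deg_phi {F : MvPolynomial (Option σ) ℝ} {g : MvPolynomial σ ℝ} {D K : ℕ}
    (hF : F.totalDegree ≤ D) (hg : g.totalDegree ≤ K) (hK : 1 ≤ K) :
    (phi F g).totalDegree ≤ K * D := by
  refine totalDegree_aevalσ (fun o => ?_) hF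
  cases o with
  | none => exact hg
  | some i =>
    show (MvPolynomial.X i : MvPolynomial σ ℝ).totalDegree ≤ K
    rw [totalDegree_X]
    exact hK

/-- The derivatives on the graph. -/
theorem pd_phi [Fintype σ] (F : MvPolynomial (Option σ) ℝ) (g : MvPolynomial σ ℝ) (k : σ) :
    pderiv k (phi F g) = phi (pderiv (some k) F) g + phi (pderiv none F) g * pderiv k g := by
  classical
  unfold phi
  rw [pd_aeval, Fintype.sum_option, add_comm]
  congr 1
  rw [Finset.sum_eq_single k]
  · show aeval _ (pderiv (some k) F) * pderiv k (MvPolynomial.X k) = _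
    rw [pderiv_X_self, mul_one]
  · intro i _ hi
    show aeval _ (pderiv (some i) F) * pderiv k (MvPolynomial.X i) = _
    rw [pderiv_X_of_ne hi, mul_zero]
  · intro h
    exact absurd (Finset.mem_univ _) h

theorem pd_phi2 [Fintype σ] (F : MvPolynomial (Option σ) ℝ) (g : MvPolynomial σ ℝ) (k l : σ) :
    pderiv k (pderiv l (phi F g)) = phi (pderiv (some k) (pderiv (some l) F)) g +
      phi (pderiv (some l) (pderiv none F)) g * pderiv k g +
      (phi (pderiv (some k) (pderiv none F)) g +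
        phi (pderiv none (pderiv none F)) g * pderiv k g) * pderiv l g +
      phi (pderiv none F) g * pderiv k (pderiv l g) := by
  rw [pd_phi, map_add, Derivation.leibniz, pd_phi, pd_phi,
    pd_commσ (none : Option σ) (some l)]
  simp only [smul_eq_mul]
  ring

/-- The second derivative on the graph in a direction. -/
theorem q2_phi [Fintype σ] (e : Fin 3 ≃ σ) (F : MvPolynomial (Option σ) ℝ) (g : MvPolynomial σ ℝ)
    (p : σ → ℝ) (X : Fin 3 → ℝ) : q2 (hh e (phi F g) p) X X =
      q2 (fun i j => eval (gpt g p) (pderiv (some (e i)) (pderiv (some (e j)) F))) X X +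
      2 * (∑ i, eval (gpt g p) (pderiv (some (e i)) (pderiv none F)) * X i) *
        (∑ i, eval p (pderiv (e i) g) * X i) +
      eval (gpt g p) (pderiv none (pderiv none F)) * (∑ i, eval p (pderiv (e i) g) * X i) ^ 2 +
      eval (gpt g p) (pderiv none F) * q2 (hh e g p) X X := by
  unfold q2 hh
  simp only [pd_phi2, map_add, map_mul, eval_phi, Fin.sum_univ_three]
  ring

/-- **A straight path near the graph.** -/
theorem t2_core [Fintype σ] (e : Fin 3 ≃ σ) {F : MvPolynomial (Option σ) ℝ} {g : MvPolynomial σ ℝ}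
    {p : σ → ℝ} {X : Fin 3 → ℝ} {D B : ℝ} (hB : 1 ≤ B)
    (h1 : |eval (gpt g p) (pderiv none F)| ≤ B)
    (h2 : |eval (gpt g p) (pderiv none (pderiv none F))| ≤ B)
    (h3 : |∑ i, eval (gpt g p) (pderiv (some (e i)) (pderiv none F)) * X i +
      eval (gpt g p) (pderiv none (pderiv none F)) * ∑ i, eval p (pderiv (e i) g) * X i| ≤ B)
    (h4 : |q2 (fun i j => eval (gpt g p) (pderiv (some (e i)) (pderiv (some (e j)) F))) X X +
      2 * (∑ i, eval (gpt g p) (pderiv (some (e i)) (pderiv none F)) * X i) * D +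
      eval (gpt g p) (pderiv none (pderiv none F)) * D ^ 2| ≤ B)
    (h5 : |∑ i, eval p (pderiv (e i) g) * X i - D| ≤ B) (h6 : |q2 (hh e g p) X X| ≤ B) :
    |q2 (hh e (phi F g) p) X X| ≤ 6 * B ^ 3 := by
  rw [q2_phi]
  obtain ⟨a, ha⟩ : ∃ a, a = q2 (fun i j =>
      eval (gpt g p) (pderiv (some (e i)) (pderiv (some (e j)) F))) X X := ⟨_, rfl⟩
  obtain ⟨b, hb⟩ : ∃ b, b = ∑ i, eval (gpt g p) (pderiv (some (e i)) (pderiv none F)) * X i :=
    ⟨_, rfl⟩
  obtain ⟨G, hG⟩ : ∃ G, G = ∑ i, eval p (pderiv (e i) g) * X i := ⟨_, rfl⟩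
  obtain ⟨u, hu⟩ : ∃ u, u = eval (gpt g p) (pderiv none F) := ⟨_, rfl⟩
  obtain ⟨v, hv⟩ : ∃ v, v = eval (gpt g p) (pderiv none (pderiv none F)) := ⟨_, rfl⟩
  obtain ⟨w, hw⟩ : ∃ w, w = q2 (hh e g p) X X := ⟨_, rfl⟩
  rw [← hb, ← hG, ← hv] at h3
  rw [← ha, ← hb, ← hv] at h4
  rw [← hG] at h5
  rw [← hw] at h6
  rw [← hu] at h1
  rw [← hv] at h2
  rw [← ha, ← hb, ← hG, ← hu, ← hv, ← hw]
  have hB0 : 0 ≤ B := zero_le_one.trans hB
  have e1 : a + 2 * b * G + v * G ^ 2 + u * w = (a + 2 * b * D + v * D ^ 2) +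
      2 * (G - D) * (b + v * G) - v * (G - D) ^ 2 + u * w := by ring
  rw [e1]
  have k1 : |2 * (G - D) * (b + v * G)| ≤ 2 * B ^ 2 := by
    rw [abs_mul, abs_mul, abs_two]
    calc 2 * |G - D| * |b + v * G| ≤ 2 * B * B :=
          mul_le_mul (by linarith) h3 (abs_nonneg _) (by linarith)
      _ = _ := by ring
  have k2 : |v * (G - D) ^ 2| ≤ B ^ 3 := by
    rw [abs_mul, abs_pow]
    calc |v| * |G - D| ^ 2 ≤ B * B ^ 2 :=
          mul_le_mul h2 (pow_le_pow_left₀ (abs_nonneg _) h5 2) (by positivity) hB0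
      _ = _ := by ring
  have k3 : |u * w| ≤ B ^ 2 := by
    rw [abs_mul, sq]
    exact mul_le_mul h1 h6 (abs_nonneg _) hB0
  have k4 : B ≤ B ^ 3 := by
    calc B = B ^ 1 := (pow_one B).symm
      _ ≤ B ^ 3 := pow_le_pow_right₀ hB (by norm_num)
  have k5 : B ^ 2 ≤ B ^ 3 := pow_le_pow_right₀ hB (by norm_num)
  rw [abs_le] at h4 k1 k2 k3 ⊢
  constructor <;> linarith [h4.1, h4.2, k1.1, k1.2, k2.1, k2.2, k3.1, k3.2]

end Pool.CUB46
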